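import Mathlib

/-!
# Laplace transforms on the half line (real parameter)
-/

open Complex Filter Topology MeasureTheory Set

namespace Pool.Agent.Osc

/-- `F` has Laplace transform `L` at the real point `w` -/
def HasLap (F : ℝ → ℂ) (w : ℝ) (L : ℂ) : Prop :=
  IntegrableOn (fun u => F u * (Real.exp (-(w * u)) : ℂ)) (Ioi 0) ∧
    ∫ u in Ioi (0 : ℝ), F u * (Real.exp (-(w * u)) : ℂ) = L

lemma HasLap.add {F G : ℝ → ℂ} {w : ℝ} {L M : ℂ} (hF : HasLap F w L) (hG : HasLap G w M) :
    HasLap (fun u => F u + G u) w (L + M) := by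
  refine ⟨?_, ?_⟩
  · simp only [add_mul]; exact hF.1.add hG.1
  · simp only [add_mul]
    rw [integral_add hF.1 hG.1, hF.2, hG.2]

lemma HasLap.const_mul {F : ℝ → ℂ} {w : ℝ} {L : ℂ} (c : ℂ) (hF : HasLap F w L) :
    HasLap (fun u => c * F u) w (c * L) := by
  refine ⟨?_, ?_⟩
  · simp only [mul_assoc]; exact hF.1.const_mul c
  · simp only [mul_assoc]
    rw [integral_const_mul, hF.2]

lemma HasLap.neg {F : ℝ → ℂ} {w : ℝ} {L : ℂ} (hF : HasLap F w L) :
    HasLap (fun u => - F u) w (-L) := by
  simpa using hF.const_mul (-1)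

lemma HasLap.sub {F G : ℝ → ℂ} {w : ℝ} {L M : ℂ} (hF : HasLap F w L) (hG : HasLap G w M) :
    HasLap (fun u => F u - G u) w (L - M) := by
  simpa [sub_eq_add_neg] using hF.add hG.neg

lemma HasLap.congr {F G : ℝ → ℂ} {w : ℝ} {L : ℂ} (hF : HasLap F w L)
    (h : ∀ u, 0 < u → F u = G u) : HasLap G w L := by
  have h1 : EqOn (fun u => F u * (Real.exp (-(w * u)) : ℂ))
      (fun u => G u * (Real.exp (-(w * u)) : ℂ)) (Ioi 0) := by
    intro u hu
    simp only [h u hu]
  refine ⟨hF.1.congr_fun h1 measurableSet_Ioi, ?_⟩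
  rw [← hF.2]
  exact (setIntegral_congr_fun measurableSet_Ioi h1).symm

lemma hasLap_exp (β : ℂ) {w : ℝ} (hw : β.re < w) :
    HasLap (fun u => exp (β * u)) w (1 / (w - β)) := by
  have h0 : ∀ u : ℝ, exp (β * u) * (Real.exp (-(w * u)) : ℂ) = exp ((β - w) * u) := by
    intro u
    rw [Complex.ofReal_exp, ← exp_add]
    congr 1
    push_cast
    ring
  have hre : (β - w).re < 0 := by simp; exact hw
  refine ⟨?_, ?_⟩
  · simp only [h0]
    exact integrableOn_exp_mul_complex_Ioi hre 0
  · simp only [h0]
    rw [integral_exp_mul_complex_Ioi hre 0]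
    have : (w : ℂ) - β ≠ 0 := by
      intro h
      have h2 : ((w : ℂ) - β).re = 0 := by rw [h]; simp
      simp at h2
      linarith
    have h3 : (β : ℂ) - w ≠ 0 := by
      intro h; apply this; linear_combination -h
    simp only [ofReal_zero, mul_zero, exp_zero]
    rw [div_eq_div_iff h3 this]
    ring

lemma hasLap_one {w : ℝ} (hw : 0 < w) : HasLap (fun _ => (1 : ℂ)) w (1 / w) := by
  have := hasLap_exp 0 (w := w) (by simpa using hw)
  simpa using this

/-- exponential weights shift the parameter -/
lemma HasLap.weight {F : ℝ → ℂ} {w a : ℝ} {L : ℂ} (hF : HasLap F (w + a) L) :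
    HasLap (fun t => (Real.exp (-(a * t)) : ℂ) * F t) w L := by
  have h0 : ∀ u : ℝ, (Real.exp (-(a * u)) : ℂ) * F u * (Real.exp (-(w * u)) : ℂ) =
      F u * (Real.exp (-((w + a) * u)) : ℂ) := by
    intro u
    have : (Real.exp (-((w + a) * u)) : ℂ) = (Real.exp (-(a * u)) : ℂ) * (Real.exp (-(w * u)) : ℂ) := by
      rw [← ofReal_mul, ← Real.exp_add]
      congr 2
      ring
    rw [this]
    ring
  refine ⟨?_, ?_⟩
  · simp only [h0]; exact hF.1
  · simp only [h0]; exact hF.2

lemma integrableOn_exp_neg {w : ℝ} (hw : 0 < w) (t : ℝ) :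
    IntegrableOn (fun u => Real.exp (-(w * u))) (Ioi t) := by
  have := exp_neg_integrableOn_Ioi t hw
  simpa [neg_mul] using this

lemma integral_exp_neg_mul {w : ℝ} (hw : 0 < w) (t : ℝ) :
    ∫ u in Ioi t, Real.exp (-(w * u)) = Real.exp (-(w * t)) / w := by
  have := integral_exp_mul_Ioi (a := -w) (by linarith) t
  simp only [neg_mul] at this
  rw [this]
  field_simp

/-- The Laplace transform of a primitive. -/
lemma HasLap.primitive {F : ℝ → ℂ} {w : ℝ} {L : ℂ} (hw : 0 < w) (hF : HasLap F w L) :
    HasLap (fun u => ∫ t in (0 : ℝ)..u, F t) w (L / w) := by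
  obtain ⟨hF1, hF2⟩ := hF
  have hmeas : AEStronglyMeasurable F (volume.restrict (Ioi 0)) := by
    have h1 : AEStronglyMeasurable
        (fun u => (F u * (Real.exp (-(w * u)) : ℂ)) * (Real.exp (w * u) : ℂ))
        (volume.restrict (Ioi 0)) := by
      refine hF1.aestronglyMeasurable.mul ?_
      exact Continuous.aestronglyMeasurable (by fun_prop)
    refine h1.congr (Eventually.of_forall fun u => ?_)
    have : (Real.exp (-(w * u)) : ℂ) * (Real.exp (w * u) : ℂ) = 1 := by
      rw [← ofReal_mul, ← Real.exp_add]; simp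
    simp only [mul_assoc, this, mul_one]
  set μ : Measure ℝ := volume.restrict (Ioi 0) with hμ
  set G : ℝ → ℝ → ℂ := fun t u => (if t < u then (Real.exp (-(w * u)) : ℂ) else 0) * F t with hG
  have hGmeas : AEStronglyMeasurable (Function.uncurry G) (μ.prod μ) := by
    have h1 : AEStronglyMeasurable (fun p : ℝ × ℝ => F p.1) (μ.prod μ) := hmeas.comp_fst
    have h2 : Measurable (fun p : ℝ × ℝ => if p.1 < p.2 then (Real.exp (-(w * p.2)) : ℂ) else 0) := by
      apply Measurable.ite
      · exact measurableSet_lt measurable_fst measurable_snd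
      · fun_prop
      · fun_prop
    exact h2.aestronglyMeasurable.mul h1
  have hinner : ∀ t, 0 < t → ∀ (c : ℝ), ∫ u, (if t < u then Real.exp (-(w * u)) else 0) * c ∂μ =
      Real.exp (-(w * t)) / w * c := by
    intro t ht c
    rw [integral_mul_const]
    congr 1
    have : (fun u => if t < u then Real.exp (-(w * u)) else 0) =
        (Ioi t).indicator (fun u => Real.exp (-(w * u))) := by
      funext u
      simp [indicator, mem_Ioi]
    rw [this, hμ, setIntegral_indicator measurableSet_Ioi, Ioi_inter_Ioi, max_eq_right ht.le,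
      integral_exp_neg_mul hw]
  have hinnerint : ∀ t, 0 < t → Integrable (fun u => if t < u then Real.exp (-(w * u)) else 0) μ := by
    intro t ht
    have : (fun u => if t < u then Real.exp (-(w * u)) else 0) =
        (Ioi t).indicator (fun u => Real.exp (-(w * u))) := by
      funext u
      simp [indicator, mem_Ioi]
    rw [this, integrable_indicator_iff measurableSet_Ioi]
    have h2 := integrableOn_exp_neg hw t
    exact h2.mono_measure Measure.restrict_le_self
  have hGint : Integrable (Function.uncurry G) (μ.prod μ) := by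
    rw [integrable_prod_iff hGmeas]
    constructor
    · rw [hμ, ae_restrict_iff' measurableSet_Ioi]
      refine Eventually.of_forall fun t ht => ?_
      have h1 := (hinnerint t ht).ofReal (𝕜 := ℂ)
      have h2 := h1.mul_const (F t)
      refine h2.congr (Eventually.of_forall fun u => ?_)
      simp only [Function.uncurry, hG]
      split_ifs <;> simp
    · have h1 : ∀ t, 0 < t → ∫ u, ‖Function.uncurry G (t, u)‖ ∂μ =
          ‖F t * (Real.exp (-(w * t)) : ℂ)‖ / w := by
        intro t ht
        have h2 : ∀ u, ‖Function.uncurry G (t, u)‖ =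
            (if t < u then Real.exp (-(w * u)) else 0) * ‖F t‖ := by
          intro u
          simp only [Function.uncurry, hG, norm_mul]
          congr 1
          split_ifs
          · rw [Complex.norm_real, Real.norm_eq_abs, abs_of_pos (Real.exp_pos _)]
          · simp
        simp only [h2]
        rw [hinner t ht, norm_mul, Complex.norm_real, Real.norm_eq_abs,
          abs_of_pos (Real.exp_pos _)]
        ring
      have h3 : Integrable (fun t => ‖F t * (Real.exp (-(w * t)) : ℂ)‖ / w) μ :=
        (hF1.norm).div_const w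
      refine h3.congr ?_
      rw [hμ]
      filter_upwards [ae_restrict_mem measurableSet_Ioi] with t ht
      exact (h1 t ht).symm
  have hcomp : ∀ u, 0 < u → ∫ t, G t u ∂μ = (∫ t in (0 : ℝ)..u, F t) * (Real.exp (-(w * u)) : ℂ) := by
    intro u hu
    rw [intervalIntegral.integral_of_le hu.le, ← integral_mul_const]
    have h1 : ∀ t, G t u = (Iio u).indicator (fun t => F t * (Real.exp (-(w * u)) : ℂ)) t := by
      intro t
      simp only [hG, indicator, mem_Iio]
      split_ifs
      · ring
      · simp
    simp only [h1]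
    rw [hμ, setIntegral_indicator measurableSet_Iio, Ioi_inter_Iio,
      integral_Ioc_eq_integral_Ioo]
  refine ⟨?_, ?_⟩
  · have h1 := hGint.integral_prod_right
    have h2 : Integrable (fun u => ∫ t, G t u ∂μ) μ := h1
    refine h2.congr ?_
    rw [hμ]
    filter_upwards [ae_restrict_mem measurableSet_Ioi] with u hu
    exact hcomp u hu
  · have h1 : ∫ u, (∫ t, G t u ∂μ) ∂μ = ∫ t, (∫ u, G t u ∂μ) ∂μ :=
      (integral_integral_swap hGint).symm
    have h2 : ∫ u, (∫ t, G t u ∂μ) ∂μ =
        ∫ u in Ioi (0 : ℝ), (∫ t in (0 : ℝ)..u, F t) * (Real.exp (-(w * u)) : ℂ) := by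
      rw [hμ]
      exact setIntegral_congr_fun measurableSet_Ioi fun u hu => hcomp u hu
    have h3 : ∫ t, (∫ u, G t u ∂μ) ∂μ = L / w := by
      have h4 : ∀ t, 0 < t → ∫ u, G t u ∂μ = (F t * (Real.exp (-(w * t)) : ℂ)) / w := by
        intro t ht
        have h5 : ∀ u, G t u = (((if t < u then Real.exp (-(w * u)) else 0) * 1 : ℝ) : ℂ) * F t := by
          intro u
          simp only [hG, mul_one]
          split_ifs <;> simp
        simp only [h5]
        rw [integral_mul_const, integral_complex_ofReal, hinner t ht 1]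
        push_cast
        ring
      have h6 : ∫ t, (∫ u, G t u ∂μ) ∂μ =
          ∫ t in Ioi (0 : ℝ), (F t * (Real.exp (-(w * t)) : ℂ)) / w := by
        rw [hμ]
        exact setIntegral_congr_fun measurableSet_Ioi fun t ht => h4 t ht
      rw [h6, integral_div, hF2]
    rw [← h2, h1, h3]

end Pool.Agent.Osc
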