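import Mathlib
import Pool.Agent.Osc.Lap

/-!
# Uniqueness of Laplace transforms (Lerch)
-/

open Complex Filter Topology MeasureTheory Set

namespace Pool.Agent.Osc

lemma integrableOn_weight {D : ℝ → ℝ} (hD : ContinuousOn D (Ici 0)) {B a w : ℝ}
    (hB : ∀ u, 0 ≤ u → |D u| ≤ B * Real.exp (a * u)) (haw : a < w) :
    IntegrableOn (fun u => D u * Real.exp (-(w * u))) (Ioi 0) := by
  have h1 : IntegrableOn (fun u => B * Real.exp (-((w - a) * u))) (Ioi 0) :=
    (integrableOn_exp_neg (sub_pos.2 haw) 0).const_mul B
  refine Integrable.mono' h1 ?_ ?_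
  · refine ContinuousOn.aestronglyMeasurable ?_ measurableSet_Ioi
    exact (hD.mono Ioi_subset_Ici_self).mul (Continuous.continuousOn (by fun_prop))
  · filter_upwards [ae_restrict_mem measurableSet_Ioi] with u hu
    rw [norm_mul, Real.norm_eq_abs, Real.norm_eq_abs, abs_of_pos (Real.exp_pos _)]
    calc |D u| * Real.exp (-(w * u)) ≤ B * Real.exp (a * u) * Real.exp (-(w * u)) :=
          mul_le_mul_of_nonneg_right (hB u (le_of_lt hu)) (Real.exp_pos _).le
      _ = B * Real.exp (-((w - a) * u)) := by
          rw [mul_assoc, ← Real.exp_add]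
          congr 2
          ring

lemma lerch_real {D : ℝ → ℝ} (hD : ContinuousOn D (Ici 0)) {B a w₀ : ℝ}
    (hB : ∀ u, 0 ≤ u → |D u| ≤ B * Real.exp (a * u)) (haw : a < w₀)
    (h0 : ∀ n : ℕ, ∫ u in Ioi (0 : ℝ), D u * Real.exp (-((w₀ + n) * u)) = 0) :
    ∀ u, 0 ≤ u → D u = 0 := by
  obtain ⟨m, hm⟩ := exists_nat_gt (max a 1)
  have hma : a < m := lt_of_le_of_lt (le_max_left _ _) hm
  have hm1 : (1 : ℝ) < m := lt_of_le_of_lt (le_max_right _ _) hm
  have hBnn : 0 ≤ B := by
    have := (abs_nonneg _).trans (hB 0 le_rfl)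
    simpa using this
  set G : ℝ → ℝ := fun y => if y ≤ 0 then 0 else D (-Real.log y) * y ^ m with hG
  have hGcont : ContinuousOn G (Icc 0 1) := by
    intro y hy
    rcases hy.1.eq_or_lt with h | h
    · subst h
      have hG0 : G 0 = 0 := by simp [hG]
      rw [ContinuousWithinAt, hG0]
      have h1 : Tendsto (fun y : ℝ => B * y ^ ((m : ℝ) - a)) (𝓝[Icc 0 1] 0) (𝓝 (B * 0)) := by
        apply Tendsto.const_mul
        have h2 : ContinuousAt (fun y : ℝ => y ^ ((m : ℝ) - a)) 0 :=
          Real.continuousAt_rpow_const 0 _ (Or.inr (by linarith))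
        have h3 : (0 : ℝ) ^ ((m : ℝ) - a) = 0 := Real.zero_rpow (by linarith)
        have h4 := h2.tendsto
        rw [h3] at h4
        exact h4.mono_left nhdsWithin_le_nhds
      rw [mul_zero] at h1
      refine squeeze_zero_norm' ?_ h1
      filter_upwards [self_mem_nhdsWithin] with y hy
      by_cases hy0 : y ≤ 0
      · have : y = 0 := le_antisymm hy0 hy.1
        rw [this]
        simp only [hG, le_refl, if_true, norm_zero]
        positivity
      · push Not at hy0
        simp only [hG, not_le.2 hy0, if_false]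
        rw [norm_mul, Real.norm_eq_abs, norm_pow, Real.norm_eq_abs, abs_of_pos hy0]
        have hl : 0 ≤ -Real.log y := by
          have := Real.log_nonpos hy.1 hy.2
          linarith
        calc |D (-Real.log y)| * y ^ m ≤ B * Real.exp (a * (-Real.log y)) * y ^ m :=
              mul_le_mul_of_nonneg_right (hB _ hl) (by positivity)
          _ = B * y ^ ((m : ℝ) - a) := by
              rw [mul_assoc]
              congr 1
              rw [Real.rpow_def_of_pos hy0, ← Real.rpow_natCast, Real.rpow_def_of_pos hy0,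
                ← Real.exp_add]
              congr 1
              ring
    · have h1 : ContinuousWithinAt (fun y => D (-Real.log y) * y ^ m) (Icc 0 1) y := by
        refine ContinuousWithinAt.mul ?_ (by fun_prop)
        have h2 : ContinuousWithinAt (fun y => -Real.log y) (Icc 0 1 ∩ Ioi 0) y :=
          ((Real.continuousAt_log h.ne').neg).continuousWithinAt
        have h3 : ContinuousWithinAt (fun y => D (-Real.log y)) (Icc 0 1 ∩ Ioi 0) y := by
          refine ContinuousWithinAt.comp (t := Ici 0) (hD _ ?_) h2 ?_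
          · have := Real.log_nonpos hy.1 hy.2
            simp only [mem_Ici]; linarith
          · intro z hz
            have := Real.log_nonpos hz.1.1 hz.1.2
            simp only [mem_Ici]; linarith
        exact (continuousWithinAt_inter (Ioi_mem_nhds h)).1 h3
      refine h1.congr_of_eventuallyEq ?_ ?_
      · filter_upwards [mem_nhdsWithin_of_mem_nhds (Ioi_mem_nhds h)] with z hz
        simp [hG, not_le.2 (show (0 : ℝ) < z from hz)]
      · simp [hG, not_le.2 h]
  have hint : ∀ n : ℕ, IntegrableOn (fun u => D u * Real.exp (-((w₀ + n) * u))) (Ioi 0) := by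
    intro n
    apply integrableOn_weight hD hB
    have : (0 : ℝ) ≤ n := by positivity
    linarith
  -- polynomials
  have hpoly : ∀ p : Polynomial ℝ,
      ∫ u in Ioi (0 : ℝ), D u * Real.exp (-(w₀ * u)) * p.eval (Real.exp (-u)) = 0 := by
    intro p
    have h1 : ∀ u, D u * Real.exp (-(w₀ * u)) * p.eval (Real.exp (-u)) =
        ∑ i ∈ Finset.range (p.natDegree + 1), p.coeff i * (D u * Real.exp (-((w₀ + i) * u))) := by
      intro u
      rw [Polynomial.eval_eq_sum_range, Finset.mul_sum]
      refine Finset.sum_congr rfl fun i _ => ?_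
      have : Real.exp (-((w₀ + i) * u)) = Real.exp (-(w₀ * u)) * Real.exp (-u) ^ i := by
        rw [← Real.exp_nat_mul, ← Real.exp_add]
        congr 1
        ring
      rw [this]
      ring
    simp only [h1]
    rw [integral_finsetSum]
    · refine Finset.sum_eq_zero fun i _ => ?_
      rw [integral_const_mul, h0 i, mul_zero]
    · intro i _
      exact (hint i).const_mul _
  have hI0 : IntegrableOn (fun u => D u * Real.exp (-(w₀ * u))) (Ioi 0) := by
    simpa using hint 0
  have hsq : ∀ u, 0 ≤ u → D u * Real.exp (-(w₀ * u)) * G (Real.exp (-u)) =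
      D u ^ 2 * Real.exp (-((w₀ + m) * u)) := by
    intro u hu
    simp only [hG, not_le.2 (Real.exp_pos _), if_false, Real.log_exp, neg_neg]
    have : Real.exp (-((w₀ + m) * u)) = Real.exp (-(w₀ * u)) * Real.exp (-u) ^ m := by
      rw [← Real.exp_nat_mul, ← Real.exp_add]
      congr 1
      ring
    rw [this]
    ring
  have hmem : ∀ u : ℝ, 0 < u → Real.exp (-u) ∈ Icc (0 : ℝ) 1 := by
    intro u hu
    exact ⟨(Real.exp_pos _).le, Real.exp_le_one_iff.2 (by linarith)⟩
  have hIG : IntegrableOn (fun u => D u ^ 2 * Real.exp (-((w₀ + m) * u))) (Ioi 0) := by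
    have hD2 : ContinuousOn (fun u => D u ^ 2) (Ici 0) := hD.pow 2
    have := integrableOn_weight (D := fun u => D u ^ 2) (B := B ^ 2) (a := 2 * a) (w := w₀ + m) hD2
      (by
        intro u hu
        rw [abs_pow]
        calc |D u| ^ 2 ≤ (B * Real.exp (a * u)) ^ 2 := pow_le_pow_left₀ (abs_nonneg _) (hB u hu) 2
          _ = B ^ 2 * Real.exp (2 * a * u) := by
            rw [mul_pow, ← Real.exp_nat_mul]
            congr 2
            push_cast; ring) (by linarith)
    exact this
  have hzero : ∫ u in Ioi (0 : ℝ), D u ^ 2 * Real.exp (-((w₀ + m) * u)) = 0 := by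
    set M := ∫ u in Ioi (0 : ℝ), |D u * Real.exp (-(w₀ * u))| with hM
    have hMnn : 0 ≤ M := integral_nonneg fun u => abs_nonneg _
    by_contra hne
    set I := ∫ u in Ioi (0 : ℝ), D u ^ 2 * Real.exp (-((w₀ + m) * u)) with hI
    obtain ⟨p, hp⟩ := exists_polynomial_near_of_continuousOn 0 1 G hGcont (|I| / (2 * (M + 1)))
      (by positivity)
    have h2 : I = ∫ u in Ioi (0 : ℝ), D u * Real.exp (-(w₀ * u)) * (G (Real.exp (-u)) -
        p.eval (Real.exp (-u))) := by
      have h3 : IntegrableOn (fun u => D u * Real.exp (-(w₀ * u)) * G (Real.exp (-u))) (Ioi 0) := by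
        refine hIG.congr_fun ?_ measurableSet_Ioi
        intro u hu
        exact (hsq u (le_of_lt hu)).symm
      have h4 : IntegrableOn (fun u => D u * Real.exp (-(w₀ * u)) * p.eval (Real.exp (-u)))
          (Ioi 0) := by
        obtain ⟨Cp, hCp⟩ := isCompact_Icc.exists_bound_of_continuousOn
          (f := fun x => p.eval x) (s := Icc (0 : ℝ) 1) p.continuous.continuousOn
        refine Integrable.mul_bdd (c := Cp) hI0 ?_ ?_
        · exact Continuous.aestronglyMeasurable (p.continuous.comp (by fun_prop))
        · filter_upwards [ae_restrict_mem measurableSet_Ioi] with u hu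
          exact hCp _ (hmem u hu)
      simp only [mul_sub]
      rw [integral_sub h3 h4, hpoly p, sub_zero, hI]
      refine setIntegral_congr_fun measurableSet_Ioi fun u hu => ?_
      exact (hsq u (le_of_lt hu)).symm
    have h5 : |I| ≤ |I| / (2 * (M + 1)) * M := by
      conv_lhs => rw [h2]
      rw [← Real.norm_eq_abs]
      refine (norm_integral_le_integral_norm _).trans ?_
      rw [hM, ← integral_const_mul]
      refine setIntegral_mono_on ?_ ?_ measurableSet_Ioi ?_
      · have h3 : IntegrableOn (fun u => D u * Real.exp (-(w₀ * u)) * G (Real.exp (-u))) (Ioi 0) := by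
          refine hIG.congr_fun ?_ measurableSet_Ioi
          intro u hu
          exact (hsq u (le_of_lt hu)).symm
        have h4 : IntegrableOn (fun u => D u * Real.exp (-(w₀ * u)) * p.eval (Real.exp (-u)))
            (Ioi 0) := by
          obtain ⟨Cp, hCp⟩ := isCompact_Icc.exists_bound_of_continuousOn
            (f := fun x => p.eval x) (s := Icc (0 : ℝ) 1) p.continuous.continuousOn
          refine Integrable.mul_bdd (c := Cp) hI0 ?_ ?_
          · exact Continuous.aestronglyMeasurable (p.continuous.comp (by fun_prop))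
          · filter_upwards [ae_restrict_mem measurableSet_Ioi] with u hu
            exact hCp _ (hmem u hu)
        simp only [mul_sub]
        exact (h3.sub h4).norm
      · exact hI0.abs.const_mul _
      · intro u hu
        rw [norm_mul, mul_comm, Real.norm_eq_abs, Real.norm_eq_abs]
        refine mul_le_mul_of_nonneg_right ?_ (abs_nonneg _)
        rw [abs_sub_comm]
        exact (hp _ (hmem u hu)).le
    have h6 : |I| / (2 * (M + 1)) * M ≤ |I| / 2 := by
      rw [div_mul_eq_mul_div, div_le_div_iff₀ (by positivity) (by norm_num)]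
      nlinarith [abs_nonneg I]
    have h7 : 0 < |I| := abs_pos.2 hne
    linarith
  -- conclude
  have hae : (fun u => D u ^ 2 * Real.exp (-((w₀ + m) * u))) =ᵐ[volume.restrict (Ioi 0)] 0 := by
    rw [← integral_eq_zero_iff_of_nonneg (fun u => by positivity) hIG]
    exact hzero
  have hae2 : D =ᵐ[volume.restrict (Ioi 0)] (fun _ => (0 : ℝ)) := by
    filter_upwards [hae] with u hu
    have hu' : D u ^ 2 * Real.exp (-((w₀ + m) * u)) = 0 := hu
    have := (mul_eq_zero.1 hu').resolve_right (Real.exp_pos _).ne'
    simpa using this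
  have hEq : EqOn D (fun _ => (0 : ℝ)) (Ioi 0) :=
    Measure.eqOn_open_of_ae_eq hae2 isOpen_Ioi (hD.mono Ioi_subset_Ici_self) continuousOn_const
  intro u hu
  have h8 : EqOn D (fun _ => (0 : ℝ)) (closure (Ioi 0) ∩ Ici 0) := by
    intro v hv
    rcases (show (0:ℝ) ≤ v from hv.2).eq_or_lt with h | h
    · subst h
      have h9 : Tendsto D (𝓝[>] 0) (𝓝 (D 0)) :=
        (hD 0 (mem_Ici.2 le_rfl)).mono_left (nhdsWithin_mono _ Ioi_subset_Ici_self)
      have h10 : Tendsto D (𝓝[>] 0) (𝓝 0) := by
        apply tendsto_const_nhds.congr'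
        filter_upwards [self_mem_nhdsWithin] with v hv
        exact (hEq hv).symm
      exact tendsto_nhds_unique h9 h10
    · exact hEq h
  apply h8
  rw [closure_Ioi]
  exact ⟨hu, hu⟩

lemma lerch_complex {D : ℝ → ℂ} (hD : ContinuousOn D (Ici 0)) {B a w₀ : ℝ}
    (hB : ∀ u, 0 ≤ u → ‖D u‖ ≤ B * Real.exp (a * u)) (haw : a < w₀)
    (h0 : ∀ n : ℕ, HasLap D (w₀ + n) 0) :
    ∀ u, 0 ≤ u → D u = 0 := by
  have hre : ∀ u, 0 ≤ u → (D u).re = 0 := by
    apply lerch_real (D := fun u => (D u).re) (B := B) (a := a) (w₀ := w₀)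
      (continuous_re.comp_continuousOn hD)
      (fun u hu => (abs_re_le_norm _).trans (hB u hu)) haw
    intro n
    have h1 := (h0 n).2
    have h2 := congrArg Complex.re h1
    rw [← RCLike.re_eq_complex_re, ← integral_re (h0 n).1] at h2
    simpa only [Complex.re_mul_ofReal, RCLike.re_eq_complex_re, Complex.zero_re] using h2
  have him : ∀ u, 0 ≤ u → (D u).im = 0 := by
    apply lerch_real (D := fun u => (D u).im) (B := B) (a := a) (w₀ := w₀)
      (continuous_im.comp_continuousOn hD)
      (fun u hu => (abs_im_le_norm _).trans (hB u hu)) haw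
    intro n
    have h1 := (h0 n).2
    have h2 := congrArg Complex.im h1
    rw [← RCLike.im_eq_complex_im, ← integral_im (h0 n).1] at h2
    simpa only [Complex.im_mul_ofReal, RCLike.im_eq_complex_im, Complex.zero_im] using h2
  intro u hu
  exact Complex.ext (hre u hu) (him u hu)

end Pool.Agent.Osc
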