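import Mathlib
import Pool.Agent.Osc.Lerch

/-!
# Basic functions for the integrated explicit formula
-/

open Complex Filter Topology MeasureTheory Set

namespace Pool.Agent.Osc

/-- primitive of an exponential -/
noncomputable def E (β : ℂ) (u : ℝ) : ℂ := ∫ t in (0 : ℝ)..u, exp (β * t)

/-- the weight `exp (-t/2)` -/
noncomputable def wt (t : ℝ) : ℂ := (Real.exp (-(1 / 2 * t)) : ℂ)

/-- primitive of the weight -/
noncomputable def E0 (u : ℝ) : ℂ := ∫ t in (0 : ℝ)..u, wt t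

/-- the building block attached to a singularity `b` -/
noncomputable def W (b : ℂ) (u : ℝ) : ℂ := ∫ t in (0 : ℝ)..u, wt t * (E b t - 1 / (2 - b))

/-- the building block attached to the integer `n` -/
noncomputable def phi (n : ℕ) (u : ℝ) : ℂ :=
  ∫ t in (0 : ℝ)..u, wt t * (if Real.log n ≤ t then 1 else 0)

lemma continuous_wt : Continuous wt := by unfold wt; fun_prop

lemma norm_wt (t : ℝ) : ‖wt t‖ = Real.exp (-(1 / 2 * t)) := by
  rw [wt, Complex.norm_real, Real.norm_eq_abs, abs_of_pos (Real.exp_pos _)]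

lemma norm_wt_le_one {t : ℝ} (ht : 0 ≤ t) : ‖wt t‖ ≤ 1 := by
  rw [norm_wt]; exact Real.exp_le_one_iff.2 (by linarith)

lemma continuous_E (β : ℂ) : Continuous (E β) := by
  unfold E
  refine intervalIntegral.continuous_primitive (fun a b => ?_) 0
  exact Continuous.intervalIntegrable (by fun_prop) a b

lemma E_eq {β : ℂ} (hβ : β ≠ 0) (u : ℝ) : E β u = (exp (β * u) - 1) / β := by
  rw [E, integral_exp_mul_complex hβ]
  simp

lemma E_zero (u : ℝ) : E 0 u = u := by simp [E]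

lemma continuous_W (b : ℂ) : Continuous (W b) := by
  unfold W
  refine intervalIntegral.continuous_primitive (fun a c => ?_) 0
  have := continuous_wt
  have := continuous_E b
  exact Continuous.intervalIntegrable (by fun_prop) a c

lemma continuous_E0 : Continuous E0 := by
  unfold E0
  refine intervalIntegral.continuous_primitive (fun a c => ?_) 0
  exact continuous_wt.intervalIntegrable a c

lemma intervalIntegrable_step (n : ℕ) (a b : ℝ) :
    IntervalIntegrable (fun t => wt t * (if Real.log n ≤ t then 1 else 0)) volume a b := by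
  have h1 : IntervalIntegrable wt volume a b := continuous_wt.intervalIntegrable a b
  have h2 : (fun t => wt t * (if Real.log n ≤ t then (1 : ℂ) else 0)) =
      (Ici (Real.log n)).indicator wt := by
    funext t
    simp [indicator, mem_Ici]
  rw [h2]
  exact ⟨h1.1.indicator measurableSet_Ici, h1.2.indicator measurableSet_Ici⟩

lemma continuous_phi (n : ℕ) : Continuous (phi n) := by
  unfold phi
  exact intervalIntegral.continuous_primitive (fun a b => intervalIntegrable_step n a b) 0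

lemma hasLap_E {β : ℂ} {w : ℝ} (hw : 0 < w) (hβ : β.re < w) :
    HasLap (E β) w (1 / (w - β) / w) := (hasLap_exp β hβ).primitive hw

lemma hasLap_wt {w : ℝ} (hw : 0 < w) : HasLap wt w (1 / ((w + 1 / 2 : ℝ) : ℂ)) := by
  have h := (hasLap_one (w := w + 1 / 2) (by linarith)).weight (w := w) (a := 1 / 2)
  exact h.congr fun u _ => by simp [wt]

lemma hasLap_E0 {w : ℝ} (hw : 0 < w) : HasLap E0 w (1 / ((w + 1 / 2 : ℝ) : ℂ) / w) :=
  (hasLap_wt hw).primitive hw

lemma hasLap_W {b : ℂ} {w : ℝ} (hw : 0 < w) (hb : b.re < w + 1 / 2) :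
    HasLap (W b) w ((1 / (((w + 1 / 2 : ℝ) : ℂ) - b) / ((w + 1 / 2 : ℝ) : ℂ) -
      1 / (2 - b) * (1 / ((w + 1 / 2 : ℝ) : ℂ))) / w) := by
  have h1 := hasLap_E (β := b) (w := w + 1 / 2) (by linarith) hb
  have h2 := (hasLap_one (w := w + 1 / 2) (by linarith)).const_mul (1 / (2 - b))
  have h3 := (h1.sub h2).weight (w := w) (a := 1 / 2)
  have h4 : HasLap (fun t => wt t * (E b t - 1 / (2 - b))) w
      (1 / (((w + 1 / 2 : ℝ) : ℂ) - b) / ((w + 1 / 2 : ℝ) : ℂ) -
      1 / (2 - b) * (1 / ((w + 1 / 2 : ℝ) : ℂ))) :=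
    h3.congr fun u _ => by simp [wt]
  exact h4.primitive hw

lemma hasLap_step {n : ℕ} (hn : 1 ≤ n) {s : ℝ} (hs : 0 < s) :
    HasLap (fun t => if Real.log n ≤ t then (1 : ℂ) else 0) s (1 / ((n : ℂ) ^ (s : ℂ)) / s) := by
  have hn' : (0 : ℝ) < n := by exact_mod_cast hn
  have hlog : 0 ≤ Real.log n := Real.log_natCast_nonneg n
  have e1 : (fun u => (if Real.log n ≤ u then (1 : ℂ) else 0) * (Real.exp (-(s * u)) : ℂ)) =
      (Ici (Real.log n)).indicator (fun u => (Real.exp (-(s * u)) : ℂ)) := by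
    funext u
    simp [indicator, mem_Ici]
  have hint : IntegrableOn (fun u => (Real.exp (-(s * u)) : ℂ)) (Ioi (Real.log n)) :=
    (integrableOn_exp_neg hs (Real.log n)).ofReal
  refine ⟨?_, ?_⟩
  · rw [e1, IntegrableOn, integrable_indicator_iff measurableSet_Ici]
    have h1 : IntegrableOn (fun u => (Real.exp (-(s * u)) : ℂ)) (Ici (Real.log n)) := by
      rw [integrableOn_Ici_iff_integrableOn_Ioi]
      exact hint
    exact h1.mono_measure Measure.restrict_le_self
  · rw [e1, setIntegral_indicator measurableSet_Ici]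
    have h2 : ∫ u in Ioi (0 : ℝ) ∩ Ici (Real.log n), (Real.exp (-(s * u)) : ℂ) =
        ∫ u in Ioi (Real.log n), (Real.exp (-(s * u)) : ℂ) := by
      apply setIntegral_congr_set
      have h3 : (Ici (Real.log n) : Set ℝ) =ᵐ[volume] Ioi (Real.log n) := Ioi_ae_eq_Ici.symm
      have h4 : (Ioi (0 : ℝ) ∩ Ici (Real.log n) : Set ℝ) =ᵐ[volume]
          (Ioi (0 : ℝ) ∩ Ioi (Real.log n) : Set ℝ) := ae_eq_set_inter (ae_eq_refl _) h3
      refine h4.trans ?_
      rw [Ioi_inter_Ioi, max_eq_right hlog]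
    rw [h2, integral_complex_ofReal, integral_exp_neg_mul hs]
    have h5 : ((n : ℂ) ^ (s : ℂ)) = ((Real.exp (s * Real.log n) : ℝ) : ℂ) := by
      rw [← Complex.ofReal_natCast, ← Complex.ofReal_cpow hn'.le, Real.rpow_def_of_pos hn',
        mul_comm]
    rw [h5, Real.exp_neg]
    push_cast
    field_simp

lemma hasLap_phi {n : ℕ} (hn : 1 ≤ n) {w : ℝ} (hw : 0 < w) :
    HasLap (phi n) w (1 / ((n : ℂ) ^ ((w + 1 / 2 : ℝ) : ℂ)) / ((w + 1 / 2 : ℝ) : ℂ) / w) := by
  have h1 := (hasLap_step hn (s := w + 1 / 2) (by linarith)).weight (w := w) (a := 1 / 2)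
  exact HasLap.primitive hw h1

/-! ### Bounds -/

lemma norm_integral_le_of_bound {F : ℝ → ℂ} {g : ℝ → ℝ} {u : ℝ} (hu : 0 ≤ u)
    (hg : IntervalIntegrable g volume 0 u) (h : ∀ t ∈ Ioc (0 : ℝ) u, ‖F t‖ ≤ g t) :
    ‖∫ t in (0 : ℝ)..u, F t‖ ≤ ∫ t in (0 : ℝ)..u, g t :=
  intervalIntegral.norm_integral_le_of_norm_le hu (Eventually.of_forall fun t ht => h t ht) hg

lemma norm_phi_le {n : ℕ} (hn : 1 ≤ n) {u : ℝ} (hu : 0 ≤ u) :
    ‖phi n u‖ ≤ 2 * (n : ℝ) ^ (-(5 / 4) : ℝ) * Real.exp (3 / 4 * u) := by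
  have hn' : (0 : ℝ) < n := by exact_mod_cast hn
  have h1 : ‖phi n u‖ ≤ ∫ t in (0 : ℝ)..u, (n : ℝ) ^ (-(5 / 4) : ℝ) * Real.exp (3 / 4 * t) := by
    refine norm_integral_le_of_bound hu (Continuous.intervalIntegrable (by fun_prop) _ _) ?_
    intro t ht
    rw [norm_mul, norm_wt]
    by_cases h : Real.log n ≤ t
    · rw [if_pos h, norm_one, mul_one, Real.rpow_def_of_pos hn', ← Real.exp_add]
      apply Real.exp_le_exp.2
      linarith
    · rw [if_neg h, norm_zero, mul_zero]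
      positivity
  refine h1.trans ?_
  have h2 : ∫ t in (0 : ℝ)..u, (n : ℝ) ^ (-(5 / 4) : ℝ) * Real.exp (3 / 4 * t) =
      (n : ℝ) ^ (-(5 / 4) : ℝ) * ((Real.exp (3 / 4 * u) - 1) / (3 / 4)) := by
    rw [intervalIntegral.integral_const_mul]
    congr 1
    have : ∀ x ∈ uIcc 0 u, HasDerivAt (fun x => Real.exp (3 / 4 * x) / (3 / 4))
        (Real.exp (3 / 4 * x)) x := by
      intro x _
      have h3 : HasDerivAt (fun x : ℝ => 3 / 4 * x) (3 / 4) x := by
        simpa using (hasDerivAt_id x).const_mul (3 / 4 : ℝ)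
      have h4 := h3.exp.div_const (3 / 4)
      convert! h4 using 1
      field_simp
    rw [intervalIntegral.integral_eq_sub_of_hasDerivAt this
      (Continuous.intervalIntegrable (by fun_prop) _ _)]
    simp
    ring
  rw [h2]
  have h5 : 0 ≤ (n : ℝ) ^ (-(5 / 4) : ℝ) := by positivity
  have h6 : (Real.exp (3 / 4 * u) - 1) / (3 / 4) ≤ 2 * Real.exp (3 / 4 * u) := by
    rw [div_le_iff₀ (by norm_num)]
    have := Real.exp_pos (3 / 4 * u)
    nlinarith
  calc (n : ℝ) ^ (-(5 / 4) : ℝ) * ((Real.exp (3 / 4 * u) - 1) / (3 / 4))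
      ≤ (n : ℝ) ^ (-(5 / 4) : ℝ) * (2 * Real.exp (3 / 4 * u)) := mul_le_mul_of_nonneg_left h6 h5
    _ = _ := by ring

lemma norm_E0_le {u : ℝ} (hu : 0 ≤ u) : ‖E0 u‖ ≤ 2 := by
  have h1 : ‖E0 u‖ ≤ ∫ t in (0 : ℝ)..u, Real.exp (-(1 / 2 * t)) :=
    norm_integral_le_of_bound hu (Continuous.intervalIntegrable (by fun_prop) _ _)
      fun t _ => (norm_wt t).le
  refine h1.trans ?_
  have : ∀ x ∈ uIcc 0 u, HasDerivAt (fun x => -2 * Real.exp (-(1 / 2 * x)))
      (Real.exp (-(1 / 2 * x))) x := by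
    intro x _
    have h3 : HasDerivAt (fun x : ℝ => -(1 / 2 * x)) (-(1 / 2)) x := by
      simpa using ((hasDerivAt_id x).const_mul (1 / 2 : ℝ)).fun_neg
    have h4 := h3.exp.const_mul (-2)
    convert! h4 using 1
    ring
  rw [intervalIntegral.integral_eq_sub_of_hasDerivAt this
    (Continuous.intervalIntegrable (by fun_prop) _ _)]
  have := Real.exp_pos (-(1 / 2 * u))
  simp only [mul_zero, neg_zero, Real.exp_zero]
  linarith

end Pool.Agent.Osc
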