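import Mathlib

/-!
# Definitions used in the statements about primes in arithmetic progressions
-/

open DirichletCharacter

namespace Pool.Agent.Osc

/-- The number of primes `p ≤ x` whose residue class modulo `q` is `a`. -/
noncomputable def primeCountAP (q : ℕ) (a : ZMod q) (x : ℝ) : ℕ :=
  ((Finset.Icc 1 ⌊x⌋₊).filter fun p : ℕ => p.Prime ∧ (p : ZMod q) = a).card

/-- The logarithmic integral, the integral of `1 / log t` from `2` to `x`. -/
noncomputable def li (x : ℝ) : ℝ := ∫ t in (2 : ℝ)..x, 1 / Real.log t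

/-- The normalised error `E(x;q,a) = (log x / √x) (π(x,q,a) - li x / φ(q))`. -/
noncomputable def errAP (q : ℕ) (a : ZMod q) (x : ℝ) : ℝ :=
  Real.log x / Real.sqrt x * ((primeCountAP q a x : ℝ) - 1 / (q.totient : ℝ) * li x)

/-- The Generalized Riemann Hypothesis for modulus `q`: for every Dirichlet character `χ`
modulo `q`, every zero of `L(s, χ)` with `0 < Re s < 1` has real part `1/2`. -/
def GRH (q : ℕ) [NeZero q] : Prop :=
  ∀ χ : DirichletCharacter ℂ q, ∀ s : ℂ, 0 < s.re → s.re < 1 → LFunction χ s = 0 →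
    s.re = 1 / 2

end Pool.Agent.Osc
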