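import Mathlib

/-!
# Partial fractions of the digamma function on the positive reals
-/

open Complex Filter Topology Set

namespace Pool.Agent.Osc

/-- derivative of `log Gamma` -/
noncomputable def dg (x : ℝ) : ℝ := deriv (Real.log ∘ Real.Gamma) x

lemma differentiableAt_logGamma {x : ℝ} (hx : 0 < x) :
    DifferentiableAt ℝ (Real.log ∘ Real.Gamma) x := by
  have h1 : DifferentiableAt ℝ Real.Gamma x := by
    apply Real.differentiableAt_Gamma
    intro m h
    have : (0 : ℝ) ≤ m := by positivity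
    linarith
  exact (Real.differentiableAt_log (Real.Gamma_pos_of_pos hx).ne').comp x h1

lemma logGamma_add_one {x : ℝ} (hx : 0 < x) :
    (Real.log ∘ Real.Gamma) (x + 1) = (Real.log ∘ Real.Gamma) x + Real.log x := by
  simp only [Function.comp]
  rw [Real.Gamma_add_one hx.ne', Real.log_mul hx.ne' (Real.Gamma_pos_of_pos hx).ne']
  ring

lemma dg_add_one {x : ℝ} (hx : 0 < x) : dg (x + 1) = dg x + 1 / x := by
  have h1 : HasDerivAt (fun y => (Real.log ∘ Real.Gamma) (y + 1)) (dg (x + 1)) x := by
    have := (differentiableAt_logGamma (by linarith : (0 : ℝ) < x + 1)).hasDerivAt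
    exact this.comp_add_const x 1
  have h2 : HasDerivAt (fun y => (Real.log ∘ Real.Gamma) y + Real.log y) (dg x + x⁻¹) x :=
    (differentiableAt_logGamma hx).hasDerivAt.add (Real.hasDerivAt_log hx.ne')
  have h3 : (fun y => (Real.log ∘ Real.Gamma) (y + 1)) =ᶠ[𝓝 x]
      (fun y => (Real.log ∘ Real.Gamma) y + Real.log y) := by
    filter_upwards [Ioi_mem_nhds hx] with y hy
    exact logGamma_add_one hy
  rw [one_div]
  exact (h1.congr_of_eventuallyEq h3.symm).unique h2

lemma dg_le_log {x : ℝ} (hx : 0 < x) : dg x ≤ Real.log x := by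
  have h := Real.convexOn_log_Gamma.deriv_le_slope (x := x) (y := x + 1) hx
    (show (0 : ℝ) < x + 1 by linarith) (by linarith) (differentiableAt_logGamma hx)
  rw [slope_def_field, logGamma_add_one hx] at h
  simpa [dg] using h

lemma log_le_dg_add_one {x : ℝ} (hx : 0 < x) : Real.log x ≤ dg (x + 1) := by
  have h := Real.convexOn_log_Gamma.slope_le_deriv (x := x) (y := x + 1) hx
    (show (0 : ℝ) < x + 1 by linarith) (by linarith)
    (differentiableAt_logGamma (by linarith : (0 : ℝ) < x + 1))
  rw [slope_def_field, logGamma_add_one hx] at h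
  simpa [dg] using h

lemma abs_dg_sub_log {x : ℝ} (hx : 0 < x) : |dg x - Real.log x| ≤ 1 / x := by
  have h1 := dg_le_log hx
  have h2 := log_le_dg_add_one hx
  rw [dg_add_one hx] at h2
  rw [abs_le]
  have : 0 < 1 / x := by positivity
  constructor <;> linarith

lemma dg_add_nat {x : ℝ} (hx : 0 < x) (n : ℕ) :
    dg (x + n) = dg x + ∑ k ∈ Finset.range n, 1 / (x + k) := by
  induction n with
  | zero => simp
  | succ n ih =>
    have h1 : x + ((n + 1 : ℕ) : ℝ) = (x + n) + 1 := by push_cast; ring
    rw [h1, dg_add_one (by positivity), ih, Finset.sum_range_succ]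
    ring

lemma tendsto_dg_sub {x y : ℝ} (hx : 0 < x) (hy : 0 < y) :
    Tendsto (fun n : ℕ => dg (x + n) - dg (y + n)) atTop (𝓝 0) := by
  have h1 : Tendsto (fun n : ℕ => dg (x + n) - Real.log (x + n)) atTop (𝓝 0) := by
    refine squeeze_zero_norm (fun n => abs_dg_sub_log (by positivity)) ?_
    simp only [one_div]
    exact tendsto_inv_atTop_zero.comp (tendsto_atTop_add_const_left _ _ tendsto_natCast_atTop_atTop)
  have h2 : Tendsto (fun n : ℕ => dg (y + n) - Real.log (y + n)) atTop (𝓝 0) := by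
    refine squeeze_zero_norm (fun n => abs_dg_sub_log (by positivity)) ?_
    simp only [one_div]
    exact tendsto_inv_atTop_zero.comp (tendsto_atTop_add_const_left _ _ tendsto_natCast_atTop_atTop)
  have h3 : Tendsto (fun n : ℕ => Real.log ((x + n) / (y + n))) atTop (𝓝 0) := by
    rw [← Real.log_one]
    have h4 : Tendsto (fun n : ℕ => (x + n) / (y + n)) atTop (𝓝 1) := by
      have h5 : Tendsto (fun n : ℕ => 1 + (x - y) * (y + (n : ℝ))⁻¹) atTop (𝓝 (1 + (x - y) * 0)) := by
        apply Tendsto.const_add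
        apply Tendsto.const_mul
        exact tendsto_inv_atTop_zero.comp
          (tendsto_atTop_add_const_left _ _ tendsto_natCast_atTop_atTop)
      simp only [mul_zero, add_zero] at h5
      refine h5.congr fun n => ?_
      have : y + (n : ℝ) ≠ 0 := by positivity
      field_simp
      ring
    exact (Real.continuousAt_log one_ne_zero).tendsto.comp h4
  have h6 := (h1.sub h2).add h3
  simp only [sub_zero, add_zero] at h6
  refine h6.congr fun n => ?_
  rw [Real.log_div (by positivity) (by positivity)]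
  ring

lemma summable_inv_sub {x y : ℝ} (hx : 0 < x) (hy : 0 < y) :
    Summable (fun k : ℕ => 1 / (y + k) - 1 / (x + k)) := by
  have h1 : Summable (fun k : ℕ => |x - y| * (1 / ((min x y + k) ^ 2))) := by
    apply Summable.mul_left
    have h2 : Summable (fun k : ℕ => 1 / |(k : ℝ) + min x y| ^ (2 : ℝ)) :=
      (Real.summable_one_div_nat_add_rpow (min x y) 2).2 (by norm_num)
    refine h2.congr fun k => ?_
    have : 0 < (k : ℝ) + min x y := by
      have : 0 < min x y := lt_min hx hy
      positivity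
    rw [abs_of_pos this, add_comm (k : ℝ)]
    norm_num
  refine Summable.of_norm_bounded h1 fun k => ?_
  have hm : 0 < min x y := lt_min hx hy
  have hxk : 0 < x + k := by positivity
  have hyk : 0 < y + k := by positivity
  have e : 1 / (y + k) - 1 / (x + (k : ℝ)) = (x - y) / ((y + k) * (x + k)) := by
    field_simp
    ring
  rw [e, Real.norm_eq_abs, abs_div, abs_of_pos (mul_pos hyk hxk), mul_one_div]
  apply div_le_div_of_nonneg_left (abs_nonneg _) (by positivity)
  rw [sq]
  apply mul_le_mul _ _ (by positivity) hyk.le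
  · linarith [min_le_right x y]
  · linarith [min_le_left x y]

lemma hasSum_dg {x y : ℝ} (hx : 0 < x) (hy : 0 < y) :
    HasSum (fun k : ℕ => 1 / (y + k) - 1 / (x + k)) (dg x - dg y) := by
  have h1 := summable_inv_sub hx hy
  have h2 := h1.hasSum.tendsto_sum_nat
  have h3 : Tendsto (fun n : ℕ => ∑ k ∈ Finset.range n, (1 / (y + k) - 1 / (x + (k : ℝ)))) atTop
      (𝓝 (dg x - dg y)) := by
    have h4 := (tendsto_const_nhds (x := dg x - dg y) (f := atTop (α := ℕ))).sub
      (tendsto_dg_sub hx hy)
    simp only [sub_zero] at h4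
    refine h4.congr fun n => ?_
    rw [dg_add_nat hx, dg_add_nat hy, Finset.sum_sub_distrib]
    ring
  rw [tendsto_nhds_unique h3 h2]
  exact h1.hasSum

lemma digamma_ofReal {x : ℝ} (hx : 0 < x) : Complex.digamma (x : ℂ) = (dg x : ℂ) := by
  have hd : DifferentiableAt ℝ Real.Gamma x := by
    apply Real.differentiableAt_Gamma
    intro m h
    have : (0 : ℝ) ≤ m := by positivity
    linarith
  have hG := Real.Gamma_pos_of_pos hx
  have h0 : dg x = deriv Real.Gamma x / Real.Gamma x := by
    rw [dg]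
    exact (hd.hasDerivAt.log hG.ne').deriv
  have hc : DifferentiableAt ℂ Complex.Gamma (x : ℂ) := by
    apply Complex.differentiableAt_Gamma
    intro m h
    have : (0 : ℝ) ≤ m := by positivity
    have h' : x = -(m : ℝ) := by exact_mod_cast h
    linarith
  have h1 : HasDerivAt (fun y : ℝ => Complex.Gamma (y : ℂ)) (deriv Complex.Gamma (x : ℂ)) x :=
    hc.hasDerivAt.comp_ofReal
  have h2 : HasDerivAt (fun y : ℝ => ((Real.Gamma y : ℝ) : ℂ)) ((deriv Real.Gamma x : ℝ) : ℂ) x :=
    hd.hasDerivAt.ofReal_comp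
  have h3 : (fun y : ℝ => Complex.Gamma (y : ℂ)) = (fun y : ℝ => ((Real.Gamma y : ℝ) : ℂ)) := by
    funext y
    exact Complex.Gamma_ofReal y
  rw [h3] at h1
  have h4 := h1.unique h2
  rw [Complex.digamma_def, logDeriv_apply, h4, Complex.Gamma_ofReal, h0]
  push_cast
  rfl

/-- the logarithmic derivative of the archimedean factor -/
lemma logDeriv_Gammaℝ {z : ℂ} (hz : 0 < z.re) (κ : ℝ) (hκ : 0 ≤ κ) :
    logDeriv (fun z => Gammaℝ (z + κ)) z = -(Real.log Real.pi : ℂ) / 2 +
      1 / 2 * Complex.digamma ((z + κ) / 2) := by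
  have hGd : DifferentiableAt ℂ (fun z : ℂ => Gamma ((z + κ) / 2)) z := by
    have h1 : DifferentiableAt ℂ Gamma ((z + κ) / 2) := by
      apply Complex.differentiableAt_Gamma
      intro m h
      have h2 := congrArg Complex.re h
      simp at h2
      have : (0 : ℝ) ≤ m := by positivity
      linarith
    exact h1.comp (g := Gamma) (f := fun z : ℂ => (z + κ) / 2) z (by fun_prop)
  have hGne : Gamma ((z + κ) / 2) ≠ 0 := by
    apply Complex.Gamma_ne_zero_of_re_pos
    simp
    linarith
  have hpi : (Real.pi : ℂ) ≠ 0 := ofReal_ne_zero.2 Real.pi_ne_zero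
  have e1 : (fun z : ℂ => Gammaℝ (z + κ)) =
      fun z : ℂ => (Real.pi : ℂ) ^ (-(z + κ) / 2) * Gamma ((z + κ) / 2) := by
    funext z
    rw [Gammaℝ_def]
  have hpd : DifferentiableAt ℂ (fun z : ℂ => (Real.pi : ℂ) ^ (-(z + κ) / 2)) z :=
    (DifferentiableAt.const_cpow (by fun_prop) (Or.inl hpi))
  have hpne : (Real.pi : ℂ) ^ (-(z + κ) / 2) ≠ 0 := by
    rw [Complex.cpow_def_of_ne_zero hpi]
    exact exp_ne_zero _
  rw [e1, logDeriv_mul (f := fun z : ℂ => (Real.pi : ℂ) ^ (-(z + κ) / 2)) z hpne hGne hpd hGd]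
  congr 1
  · rw [logDeriv_apply]
    have h3 : HasDerivAt (fun z : ℂ => (Real.pi : ℂ) ^ (-(z + κ) / 2))
        ((Real.pi : ℂ) ^ (-(z + κ) / 2) * Complex.log Real.pi * (-1 / 2)) z := by
      have h4 : HasDerivAt (fun z : ℂ => -(z + κ) / 2) (-1 / 2) z := by
        have := ((hasDerivAt_id z).add_const (κ : ℂ)).neg.div_const 2
        exact this
      exact h4.const_cpow (Or.inl hpi)
    rw [h3.deriv, ← Complex.ofReal_log Real.pi_pos.le]
    field_simp
  · rw [logDeriv_apply, Complex.digamma_def, logDeriv_apply]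
    have h5 : HasDerivAt (fun z : ℂ => Gamma ((z + κ) / 2))
        (deriv Gamma ((z + κ) / 2) * (1 / 2)) z := by
      have h1 : DifferentiableAt ℂ Gamma ((z + κ) / 2) := by
        apply Complex.differentiableAt_Gamma
        intro m h
        have h2 := congrArg Complex.re h
        simp at h2
        have : (0 : ℝ) ≤ m := by positivity
        linarith
      have h6 : HasDerivAt (fun z : ℂ => (z + κ) / 2) (1 / 2) z := by
        have := ((hasDerivAt_id z).add_const (κ : ℂ)).div_const 2
        exact this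
      exact h1.hasDerivAt.comp z h6
    rw [h5.deriv]
    ring

/-- partial fractions for the archimedean factor, on the real axis -/
lemma hasSum_gammaFactor {s : ℝ} (hs : 0 < s) (κ : ℝ) (hκ : 0 ≤ κ) :
    HasSum (fun k : ℕ => (1 / ((2 : ℂ) + (κ + 2 * k : ℝ)) - 1 / ((s : ℂ) + (κ + 2 * k : ℝ))))
      (logDeriv (fun z => Gammaℝ (z + κ)) s - logDeriv (fun z => Gammaℝ (z + κ)) 2) := by
  rw [logDeriv_Gammaℝ (z := (s : ℂ)) (by simpa using hs) κ hκ,
    logDeriv_Gammaℝ (z := 2) (by simp) κ hκ]
  have e1 : ((s : ℂ) + κ) / 2 = (((s + κ) / 2 : ℝ) : ℂ) := by push_cast; ring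
  have e2 : ((2 : ℂ) + κ) / 2 = (((2 + κ) / 2 : ℝ) : ℂ) := by push_cast; ring
  rw [e1, e2, digamma_ofReal (by positivity), digamma_ofReal (by positivity)]
  have h1 := hasSum_dg (x := (s + κ) / 2) (y := (2 + κ) / 2) (by positivity) (by positivity)
  have h2 := h1.mul_left (1 / 2 : ℝ)
  have h3 := Complex.hasSum_ofReal.2 h2
  convert! h3 using 1
  · funext k
    have hk : (0 : ℝ) ≤ k := by positivity
    have a1 : (2 : ℝ) + (κ + 2 * k) ≠ 0 := by positivity
    have a2 : s + (κ + 2 * k) ≠ 0 := by positivity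
    have a3 : (2 + κ) / 2 + k ≠ 0 := by positivity
    have a4 : (s + κ) / 2 + k ≠ 0 := by positivity
    have : (1 / 2 : ℝ) * (1 / ((2 + κ) / 2 + k) - 1 / ((s + κ) / 2 + k)) =
        1 / (2 + (κ + 2 * k)) - 1 / (s + (κ + 2 * k)) := by
      field_simp
      ring
    rw [this]
    push_cast
    rfl
  · push_cast
    ring

end Pool.Agent.Osc
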