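import Mathlib
import Pool.Agent.Osc.Basic

/-!
# Sums of families of functions with exponential bounds
-/

open Complex Filter Topology MeasureTheory Set

namespace Pool.Agent.Osc

variable {ι : Type*} {F : ι → ℝ → ℂ} {A : ι → ℝ}

lemma fam_summable (hb : ∀ i u, 0 ≤ u → ‖F i u‖ ≤ A i * Real.exp (3 / 4 * u))
    (hA : Summable A) {u : ℝ} (hu : 0 ≤ u) : Summable (fun i => F i u) :=
  Summable.of_norm_bounded (hA.mul_right _) fun i => hb i u hu

lemma fam_norm (hb : ∀ i u, 0 ≤ u → ‖F i u‖ ≤ A i * Real.exp (3 / 4 * u))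
    (hA : Summable A) {u : ℝ} (hu : 0 ≤ u) :
    ‖∑' i, F i u‖ ≤ (∑' i, A i) * Real.exp (3 / 4 * u) := by
  rw [← tsum_mul_right]
  exact tsum_of_norm_bounded (hA.mul_right _).hasSum fun i => hb i u hu

lemma fam_continuousOn (hc : ∀ i, Continuous (F i))
    (hb : ∀ i u, 0 ≤ u → ‖F i u‖ ≤ A i * Real.exp (3 / 4 * u))
    (hA : Summable A) : ContinuousOn (fun u => ∑' i, F i u) (Ici 0) := by
  have hA0 : ∀ i, 0 ≤ A i := by
    intro i
    have := (norm_nonneg _).trans (hb i 0 le_rfl)
    simpa using this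
  have h1 : ∀ M : ℝ, ContinuousOn (fun u => ∑' i, F i u) (Ici 0 ∩ Iio M) := by
    intro M
    refine continuousOn_tsum (u := fun i => A i * Real.exp (3 / 4 * M))
      (fun i => (hc i).continuousOn) (hA.mul_right _) ?_
    intro i x hx
    refine (hb i x hx.1).trans ?_
    apply mul_le_mul_of_nonneg_left _ (hA0 i)
    apply Real.exp_le_exp.2
    have : x < M := hx.2
    linarith
  intro u hu
  have h2 := h1 (u + 1) u ⟨hu, by simp⟩
  exact (continuousWithinAt_inter (Iio_mem_nhds (by linarith : u < u + 1))).1 h2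

lemma fam_hasLap (S : Set ι) (hS : S.Countable) (h0 : ∀ i, i ∉ S → ∀ u, F i u = 0)
    (hc : ∀ i, Continuous (F i))
    (hb : ∀ i u, 0 ≤ u → ‖F i u‖ ≤ A i * Real.exp (3 / 4 * u))
    (hA : Summable A) {w : ℝ} (hw : 3 / 4 < w) {L : ι → ℂ} (hL : ∀ i, HasLap (F i) w (L i)) :
    HasLap (fun u => ∑' i, F i u) w (∑' i, L i) := by
  have hA0 : ∀ i, 0 ≤ A i := by
    intro i
    have := (norm_nonneg _).trans (hb i 0 le_rfl)
    simpa using this
  have hexp : ∀ u : ℝ, Real.exp (3 / 4 * u) * Real.exp (-(w * u)) =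
      Real.exp (-((w - 3 / 4) * u)) := by
    intro u
    rw [← Real.exp_add]; congr 1; ring
  have hgint : IntegrableOn (fun u => Real.exp (-((w - 3 / 4) * u))) (Ioi 0) :=
    integrableOn_exp_neg (by linarith) 0
  have hbw : ∀ i u, 0 ≤ u → ‖F i u * (Real.exp (-(w * u)) : ℂ)‖ ≤
      A i * Real.exp (-((w - 3 / 4) * u)) := by
    intro i u hu
    rw [norm_mul, Complex.norm_real, Real.norm_eq_abs, abs_of_pos (Real.exp_pos _), ← hexp,
      ← mul_assoc]
    exact mul_le_mul_of_nonneg_right (hb i u hu) (Real.exp_pos _).le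
  have hcont := fam_continuousOn hc hb hA
  refine ⟨?_, ?_⟩
  · refine Integrable.mono' (hgint.const_mul (∑' i, A i)) ?_ ?_
    · refine ContinuousOn.aestronglyMeasurable ?_ measurableSet_Ioi
      exact (hcont.mono Ioi_subset_Ici_self).mul (Continuous.continuousOn (by fun_prop))
    · filter_upwards [ae_restrict_mem measurableSet_Ioi] with u hu
      rw [norm_mul, Complex.norm_real, Real.norm_eq_abs, abs_of_pos (Real.exp_pos _), ← hexp,
        ← mul_assoc]
      exact mul_le_mul_of_nonneg_right (fam_norm hb hA (le_of_lt hu)) (Real.exp_pos _).le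
  · have hSc : Countable S := hS.to_subtype
    have hLS : ∀ i, i ∉ S → L i = 0 := by
      intro i hi
      have h1 := (hL i).2
      rw [← h1]
      simp [h0 i hi]
    have e1 : ∀ u, ∑' i, F i u = ∑' i : S, F i u := by
      intro u
      rw [tsum_subtype S (fun i => F i u)]
      refine tsum_congr fun i => ?_
      by_cases hi : i ∈ S
      · simp [hi]
      · simp [hi, h0 i hi u]
    have e2 : ∑' i, L i = ∑' i : S, L i := by
      rw [tsum_subtype S L]
      refine tsum_congr fun i => ?_
      by_cases hi : i ∈ S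
      · simp [hi]
      · simp [hi, hLS i hi]
    rw [e2]
    have h3 := hasSum_integral_of_summable_integral_norm (ι := S) (μ := volume.restrict (Ioi 0))
      (F := fun i u => F i u * (Real.exp (-(w * u)) : ℂ)) (fun i => (hL i).1) (by
        have h4 : Summable (fun i : S => A i * ∫ u in Ioi (0 : ℝ), Real.exp (-((w - 3 / 4) * u))) :=
          (hA.subtype S).mul_right _
        refine Summable.of_nonneg_of_le (fun i => integral_nonneg fun u => norm_nonneg _) ?_ h4
        intro i
        rw [← integral_const_mul]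
        refine setIntegral_mono_on (hL i).1.norm (hgint.const_mul _) measurableSet_Ioi ?_
        intro u hu
        exact hbw i u (le_of_lt hu))
    have h5 : ∫ u in Ioi (0 : ℝ), (∑' i, F i u) * (Real.exp (-(w * u)) : ℂ) =
        ∫ u in Ioi (0 : ℝ), ∑' i : S, F i u * (Real.exp (-(w * u)) : ℂ) := by
      refine setIntegral_congr_fun measurableSet_Ioi fun u _ => ?_
      rw [e1, tsum_mul_right]
    rw [h5, ← h3.tsum_eq]
    exact tsum_congr fun i => (hL i).2

end Pool.Agent.Osc
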