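import Mathlib

/-!
# Dividing out finitely many zeros of an entire function
-/

open Complex Filter Topology Metric Finset

namespace Pool.Agent.Osc

/-- An entire function that is nonzero somewhere has finite order everywhere. -/
lemma order_ne_top {f : ℂ → ℂ} (hf : Differentiable ℂ f) {c : ℂ} (hc : f c ≠ 0) (a : ℂ) :
    analyticOrderAt f a ≠ ⊤ := by
  have h1 : AnalyticOnNhd ℂ f Set.univ := fun z _ => hf.analyticAt z
  refine h1.analyticOrderAt_ne_top_of_isPreconnected isPreconnected_univ (Set.mem_univ c)
    (Set.mem_univ a) ?_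
  rw [(hf.analyticAt c).analyticOrderAt_eq_zero.2 hc]
  simp

/-- Divide out one zero. -/
lemma exists_factor_one {f : ℂ → ℂ} (hf : Differentiable ℂ f) (a : ℂ)
    (ha : analyticOrderAt f a ≠ ⊤) :
    ∃ g : ℂ → ℂ, Differentiable ℂ g ∧ g a ≠ 0 ∧
      ∀ z, f z = (z - a) ^ (analyticOrderNatAt f a) * g z := by
  obtain ⟨g₁, hg₁, hga, heq⟩ := ((hf.analyticAt a).analyticOrderNatAt_eq_iff ha).1 rfl
  set n := analyticOrderNatAt f a with hn
  classical
  refine ⟨fun z => if z = a then g₁ a else f z / (z - a) ^ n, ?_, ?_, ?_⟩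
  · intro z
    by_cases hz : z = a
    · subst hz
      have : (fun w => if w = z then g₁ z else f w / (w - z) ^ n) =ᶠ[𝓝 z] g₁ := by
        filter_upwards [heq] with w hw
        by_cases hwz : w = z
        · simp [hwz]
        · have : (w - z) ^ n ≠ 0 := pow_ne_zero _ (sub_ne_zero.2 hwz)
          simp only [hwz, if_false]
          rw [hw, smul_eq_mul]
          field_simp
      exact (this.differentiableAt_iff).2 hg₁.differentiableAt
    · have : (fun w => if w = a then g₁ a else f w / (w - a) ^ n) =ᶠ[𝓝 z]
          (fun w => f w / (w - a) ^ n) := by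
        filter_upwards [isOpen_ne.mem_nhds hz] with w hw
        simp [show w ≠ a from hw]
      refine (this.differentiableAt_iff).2 ?_
      exact (hf z).div (by fun_prop) (pow_ne_zero _ (sub_ne_zero.2 hz))
  · simp [hga]
  · intro z
    by_cases hz : z = a
    · subst hz
      have h1 := heq.self_of_nhds
      simpa using h1
    · have : (z - a) ^ n ≠ 0 := pow_ne_zero _ (sub_ne_zero.2 hz)
      simp only [hz, if_false]
      field_simp

/-- Divide out the zeros in a finite set. -/
lemma exists_factor_finset {f : ℂ → ℂ} (hf : Differentiable ℂ f) {c : ℂ} (hc : f c ≠ 0)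
    (Z : Finset ℂ) :
    ∃ g : ℂ → ℂ, Differentiable ℂ g ∧ (∀ a ∈ Z, g a ≠ 0) ∧
      ∀ z, f z = (∏ a ∈ Z, (z - a) ^ (analyticOrderNatAt f a)) * g z := by
  classical
  induction Z using Finset.induction_on with
  | empty => exact ⟨f, hf, by simp, by simp⟩
  | insert b Z hb ih =>
    obtain ⟨g, hg, hgZ, hfg⟩ := ih
    have hgc : g c ≠ 0 := by
      intro h
      apply hc
      rw [hfg c, h, mul_zero]
    have hord : analyticOrderAt f b = analyticOrderAt g b := by
      have h1 : f = (fun z => (∏ a ∈ Z, (z - a) ^ (analyticOrderNatAt f a))) * g := by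
        funext z; exact hfg z
      have hP : Differentiable ℂ (fun z : ℂ => (∏ a ∈ Z, (z - a) ^ (analyticOrderNatAt f a))) := by
        fun_prop
      have h3 : analyticOrderAt (fun z : ℂ => (∏ a ∈ Z, (z - a) ^ (analyticOrderNatAt f a))) b = 0 := by
        rw [(hP.analyticAt b).analyticOrderAt_eq_zero]
        rw [Finset.prod_ne_zero_iff]
        intro a ha
        refine pow_ne_zero _ (sub_ne_zero.2 ?_)
        rintro rfl
        exact hb ha
      have h2 := analyticOrderAt_mul (hP.analyticAt b) (hg.analyticAt b)
      rw [h3, zero_add, ← h1] at h2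
      exact h2
    obtain ⟨g', hg', hgb, hgg'⟩ := exists_factor_one hg b (order_ne_top hg hgc b)
    refine ⟨g', hg', ?_, ?_⟩
    · intro a ha
      rcases Finset.mem_insert.1 ha with rfl | ha
      · exact hgb
      · intro h
        apply hgZ a ha
        rw [hgg' a, h, mul_zero]
    · intro z
      have h5 : analyticOrderNatAt f b = analyticOrderNatAt g b := by
        rw [analyticOrderNatAt, hord, analyticOrderNatAt]
      rw [Finset.prod_insert hb, h5, hfg z, hgg' z]
      ring

end Pool.Agent.Osc
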