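import Mathlib
import Pool.Agent.Osc.Factor

/-!
# Counting zeros of an entire function of order at most 3/2
-/

open Complex Filter Topology Metric Finset

namespace Pool.Agent.Osc

/-- growth condition used throughout -/
def GrowthLE (f : ℂ → ℂ) (C : ℝ) : Prop :=
  0 ≤ C ∧ ∀ z, ‖f z‖ ≤ Real.exp (C * (1 + ‖z‖) ^ (3 / 2 : ℝ))

lemma zeros_finite {f : ℂ → ℂ} (hf : Differentiable ℂ f) {c : ℂ} (hc : f c ≠ 0) (r : ℝ) :
    {z : ℂ | f z = 0 ∧ dist z c ≤ r}.Finite := by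
  have h1 : AnalyticOnNhd ℂ f Set.univ := fun z _ => hf.analyticAt z
  have h2 := h1.preimage_zero_mem_codiscrete hc
  rw [mem_codiscrete'] at h2
  obtain ⟨h3, h4⟩ := h2
  have h5 : (closedBall c r ∩ (f ⁻¹' {0}ᶜ)ᶜ).Finite := by
    apply IsCompact.finite
    · exact (isCompact_closedBall c r).inter_right h3.isClosed_compl
    · exact h4.mono Set.inter_subset_right
  refine h5.subset ?_
  rintro z ⟨hz1, hz2⟩
  exact ⟨hz2, by simpa using hz1⟩

open Classical in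
/-- the finite set of zeros in a closed ball -/
noncomputable def zset (f : ℂ → ℂ) (c : ℂ) (r : ℝ) : Finset ℂ :=
  if h : {z : ℂ | f z = 0 ∧ dist z c ≤ r}.Finite then h.toFinset else ∅

lemma mem_zset {f : ℂ → ℂ} (hf : Differentiable ℂ f) {c : ℂ} (hc : f c ≠ 0) (r : ℝ) (z : ℂ) :
    z ∈ zset f c r ↔ f z = 0 ∧ dist z c ≤ r := by
  rw [zset, dif_pos (zeros_finite hf hc r)]
  simp

lemma zmult_pos_iff {f : ℂ → ℂ} (hf : Differentiable ℂ f) {c : ℂ} (hc : f c ≠ 0) (z : ℂ) :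
    analyticOrderNatAt f z ≠ 0 ↔ f z = 0 := by
  constructor
  · exact apply_eq_zero_of_analyticOrderNatAt_ne_zero
  · intro h h0
    have h1 := (hf.analyticAt z).analyticOrderAt_ne_zero.2 h
    apply h1
    rw [← Nat.cast_analyticOrderNatAt (order_ne_top hf hc z), h0]
    simp

lemma sum_zmult_eq_finsum {f : ℂ → ℂ} (hf : Differentiable ℂ f) {c : ℂ} (hc : f c ≠ 0) (r : ℝ) :
    ∑ᶠ u, MeromorphicOn.divisor f (closedBall c r) u =
      ∑ z ∈ zset f c r, (analyticOrderNatAt f z : ℤ) := by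
  have h1 : AnalyticOnNhd ℂ f (closedBall c r) := fun z _ => hf.analyticAt z
  have h2 : ∀ u, u ∈ closedBall c r → MeromorphicOn.divisor f (closedBall c r) u =
      (analyticOrderNatAt f u : ℤ) := by
    intro u hu
    rw [MeromorphicOn.AnalyticOnNhd.divisor_apply h1 hu,
      ← Nat.cast_analyticOrderNatAt (order_ne_top hf hc u)]
    rfl
  rw [finsum_eq_sum_of_support_subset (s := zset f c r)]
  · refine Finset.sum_congr rfl ?_
    intro u hu
    apply h2
    rw [mem_zset hf hc] at hu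
    exact hu.2
  · intro u hu
    have hu' : u ∈ closedBall c r := by
      by_contra h
      exact hu (Function.locallyFinsuppWithin.apply_eq_zero_of_notMem _ h)
    rw [Finset.mem_coe, mem_zset hf hc]
    refine ⟨?_, hu'⟩
    have h3 : (analyticOrderNatAt f u : ℤ) ≠ 0 := by
      rw [← h2 u hu']; exact hu
    exact apply_eq_zero_of_analyticOrderNatAt_ne_zero (by exact_mod_cast h3)

lemma rpow_three_half_mono {a b : ℝ} (ha : 0 ≤ a) (hab : a ≤ b) :
    a ^ (3 / 2 : ℝ) ≤ b ^ (3 / 2 : ℝ) := Real.rpow_le_rpow ha hab (by norm_num)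

/-- Number of zeros in a ball. -/
lemma exists_count_bound {f : ℂ → ℂ} (hf : Differentiable ℂ f) {c : ℂ} (hc : f c ≠ 0) {C : ℝ}
    (hC : GrowthLE f C) :
    ∃ K : ℝ, 0 ≤ K ∧ ∀ r : ℝ, 0 < r →
      (∑ z ∈ zset f c r, (analyticOrderNatAt f z : ℝ)) ≤ K * (1 + r) ^ (3 / 2 : ℝ) := by
  obtain ⟨hC0, hC1⟩ := hC
  refine ⟨(C * (2 + ‖c‖) ^ (3 / 2 : ℝ) + |Real.log ‖f c‖|) / Real.log 2, by positivity, ?_⟩
  intro r hr
  have hmain := AnalyticOnNhd.sum_divisor_le (c := c) (r := r) (R := 2 * r)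
    (M := Real.exp (C * (1 + ‖c‖ + 2 * r) ^ (3 / 2 : ℝ))) (f := f)
    (by rw [abs_of_pos hr]; exact hr)
    (by rw [abs_of_pos hr, abs_of_pos (by linarith)]; linarith)
    (by rw [← Real.exp_zero]; exact Real.exp_le_exp.2 (by positivity))
    (fun z _ => hf.analyticAt z) hc
    (by
      intro z hz
      rw [abs_of_pos (by linarith : (0:ℝ) < 2 * r), mem_sphere] at hz
      refine (hC1 z).trans (Real.exp_le_exp.2 ?_)
      refine mul_le_mul_of_nonneg_left ?_ hC0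
      apply rpow_three_half_mono (by positivity)
      have : ‖z‖ ≤ ‖c‖ + dist z c := by
        rw [dist_eq_norm]
        calc ‖z‖ = ‖c + (z - c)‖ := by ring_nf
          _ ≤ ‖c‖ + ‖z - c‖ := norm_add_le _ _
      linarith)
  rw [abs_of_pos hr, sum_zmult_eq_finsum hf hc r] at hmain
  have h1 : ((∑ z ∈ zset f c r, (analyticOrderNatAt f z : ℤ) : ℤ) : ℝ) =
      ∑ z ∈ zset f c r, (analyticOrderNatAt f z : ℝ) := by push_cast; rfl
  rw [h1] at hmain
  refine hmain.trans ?_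
  have h2 : 2 * r / r = 2 := by field_simp
  rw [h2, Real.log_div (Real.exp_pos _).ne' (norm_ne_zero_iff.2 hc), Real.log_exp,
    div_mul_eq_mul_div]
  refine div_le_div_of_nonneg_right ?_ (Real.log_nonneg (by norm_num))
  have h3 : (1 : ℝ) ≤ (1 + r) ^ (3 / 2 : ℝ) := Real.one_le_rpow (by linarith) (by norm_num)
  have h4 : (1 + ‖c‖ + 2 * r) ^ (3 / 2 : ℝ) ≤ (2 + ‖c‖) ^ (3 / 2 : ℝ) * (1 + r) ^ (3 / 2 : ℝ) := by
    rw [← Real.mul_rpow (by positivity) (by positivity)]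
    apply rpow_three_half_mono (by positivity)
    nlinarith [norm_nonneg c]
  have h5 : -Real.log ‖f c‖ ≤ |Real.log ‖f c‖| * (1 + r) ^ (3 / 2 : ℝ) := by
    calc -Real.log ‖f c‖ ≤ |Real.log ‖f c‖| := neg_le_abs _
      _ = |Real.log ‖f c‖| * 1 := by ring
      _ ≤ _ := mul_le_mul_of_nonneg_left h3 (abs_nonneg _)
  nlinarith [mul_le_mul_of_nonneg_left h4 hC0]


lemma summable_geom_aux (K : ℝ) :
    Summable (fun j : ℕ => 4 * (1 / 4 : ℝ) ^ j * (K * (1 + 2 ^ j) ^ (3 / 2 : ℝ))) := by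
  have h1 : Summable (fun j : ℕ => (|K| * 4 * 2 ^ (3 / 2 : ℝ)) *
      ((1 / 4 : ℝ) * 2 ^ (3 / 2 : ℝ)) ^ j) := by
    apply Summable.mul_left
    apply summable_geometric_of_lt_one (by positivity)
    have h2 : (2 : ℝ) ^ (3 / 2 : ℝ) < 4 := by
      have : (4 : ℝ) = 2 ^ (2 : ℝ) := by norm_num
      rw [this]
      exact Real.rpow_lt_rpow_of_exponent_lt (by norm_num) (by norm_num)
    linarith
  refine Summable.of_norm_bounded h1 ?_
  intro j
  have h3 : (1 + (2 : ℝ) ^ j) ^ (3 / 2 : ℝ) ≤ 2 ^ (3 / 2 : ℝ) * (2 ^ (3 / 2 : ℝ)) ^ j := by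
    have h4 : (1 : ℝ) ≤ 2 ^ j := one_le_pow₀ (by norm_num)
    calc (1 + (2 : ℝ) ^ j) ^ (3 / 2 : ℝ) ≤ (2 * 2 ^ j) ^ (3 / 2 : ℝ) := by
          apply rpow_three_half_mono (by positivity); linarith
      _ = 2 ^ (3 / 2 : ℝ) * (2 ^ j) ^ (3 / 2 : ℝ) := by
          rw [Real.mul_rpow (by norm_num) (by positivity)]
      _ = 2 ^ (3 / 2 : ℝ) * (2 ^ (3 / 2 : ℝ)) ^ j := by
          rw [← Real.rpow_natCast, ← Real.rpow_mul (by norm_num), ← Real.rpow_natCast,
            ← Real.rpow_mul (by norm_num)]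
          ring_nf
  rw [norm_mul, norm_mul, norm_mul, norm_pow, Real.norm_eq_abs, Real.norm_eq_abs, Real.norm_eq_abs,
    Real.norm_eq_abs, abs_of_nonneg (by positivity : (0 : ℝ) ≤ 4),
    abs_of_nonneg (by positivity : (0 : ℝ) ≤ 1 / 4),
    abs_of_nonneg (by positivity : (0 : ℝ) ≤ (1 + (2 : ℝ) ^ j) ^ (3 / 2 : ℝ)), mul_pow]
  calc 4 * (1 / 4 : ℝ) ^ j * (|K| * (1 + 2 ^ j) ^ (3 / 2 : ℝ))
      ≤ 4 * (1 / 4 : ℝ) ^ j * (|K| * (2 ^ (3 / 2 : ℝ) * (2 ^ (3 / 2 : ℝ)) ^ j)) := by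
        gcongr
    _ = _ := by ring

/-- The zeros of an entire function of order at most `3/2` are square summable. -/
lemma summable_zmult {f : ℂ → ℂ} (hf : Differentiable ℂ f) {c : ℂ} (hc : f c ≠ 0) {C : ℝ}
    (hC : GrowthLE f C) :
    Summable (fun ρ : ℂ => (analyticOrderNatAt f ρ : ℝ) / (1 + dist ρ c) ^ 2) := by
  classical
  obtain ⟨K, hK0, hK⟩ := exists_count_bound hf hc hC
  have hsum := summable_geom_aux K
  refine summable_of_sum_le (c := ∑' j : ℕ, 4 * (1 / 4 : ℝ) ^ j * (K * (1 + 2 ^ j) ^ (3 / 2 : ℝ)))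
    (fun ρ => by positivity) ?_
  intro s
  obtain ⟨J, hJ⟩ : ∃ J : ℕ, ∀ ρ ∈ s, dist ρ c ≤ 2 ^ J := by
    have : ∀ x : ℝ, ∃ J : ℕ, x ≤ 2 ^ J := fun x => by
      obtain ⟨n, hn⟩ := pow_unbounded_of_one_lt x (by norm_num : (1 : ℝ) < 2)
      exact ⟨n, hn.le⟩
    obtain ⟨J, hJ⟩ := this (∑ ρ ∈ s, dist ρ c)
    refine ⟨J, fun ρ hρ => le_trans ?_ hJ⟩
    exact Finset.single_le_sum (f := fun ρ => dist ρ c) (fun i _ => dist_nonneg) hρ
  have key : ∀ ρ ∈ s, (analyticOrderNatAt f ρ : ℝ) / (1 + dist ρ c) ^ 2 ≤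
      ∑ j ∈ range (J + 1), 4 * (1 / 4 : ℝ) ^ j *
        (if ρ ∈ zset f c (2 ^ j) then (analyticOrderNatAt f ρ : ℝ) else 0) := by
    intro ρ hρ
    by_cases hz : f ρ = 0
    · have hex : ∃ j : ℕ, dist ρ c ≤ 2 ^ j := ⟨J, hJ ρ hρ⟩
      set j := Nat.find hex with hj
      have hj1 : dist ρ c ≤ 2 ^ j := Nat.find_spec hex
      have hjJ : j ≤ J := Nat.find_min' hex (hJ ρ hρ)
      have hb : (analyticOrderNatAt f ρ : ℝ) / (1 + dist ρ c) ^ 2 ≤
          4 * (1 / 4 : ℝ) ^ j *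
            (if ρ ∈ zset f c (2 ^ j) then (analyticOrderNatAt f ρ : ℝ) else 0) := by
        rw [if_pos ((mem_zset hf hc _ _).2 ⟨hz, hj1⟩)]
        rw [div_le_iff₀ (by positivity)]
        have h6 : 1 ≤ 4 * (1 / 4 : ℝ) ^ j * (1 + dist ρ c) ^ 2 := by
          rcases Nat.eq_zero_or_pos j with h0 | hpos
          · rw [h0]
            nlinarith [dist_nonneg (x := ρ) (y := c)]
          · have h7 : (2 : ℝ) ^ (j - 1) < dist ρ c := by
              have := Nat.find_min hex (m := j - 1) (by omega)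
              exact not_le.1 this
            have h8 : (2 : ℝ) ^ j = 2 * 2 ^ (j - 1) := by
              conv_lhs => rw [show j = (j - 1) + 1 by omega]
              rw [pow_succ]; ring
            have h9 : (1 / 4 : ℝ) ^ j * (2 ^ j) ^ 2 = 1 := by
              rw [← pow_mul, mul_comm j 2, pow_mul, ← mul_pow]; norm_num
            have h10 : (2 ^ j) ^ 2 ≤ 4 * (1 + dist ρ c) ^ 2 := by
              rw [h8]
              have : (0:ℝ) < 2 ^ (j - 1) := by positivity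
              nlinarith
            have h11 : (0 : ℝ) < (1 / 4 : ℝ) ^ j := by positivity
            nlinarith
        calc (analyticOrderNatAt f ρ : ℝ) = (analyticOrderNatAt f ρ : ℝ) * 1 := by ring
          _ ≤ (analyticOrderNatAt f ρ : ℝ) * (4 * (1 / 4 : ℝ) ^ j * (1 + dist ρ c) ^ 2) := by
              apply mul_le_mul_of_nonneg_left h6 (by positivity)
          _ = _ := by ring
      refine hb.trans ?_
      exact Finset.single_le_sum (f := fun j => 4 * (1 / 4 : ℝ) ^ j *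
        (if ρ ∈ zset f c (2 ^ j) then (analyticOrderNatAt f ρ : ℝ) else 0))
        (fun i _ => by positivity) (Finset.mem_range.2 (by omega))
    · have h0 : analyticOrderNatAt f ρ = 0 := by
        by_contra h
        exact hz ((zmult_pos_iff hf hc ρ).1 h)
      rw [h0]
      simp
  calc ∑ ρ ∈ s, (analyticOrderNatAt f ρ : ℝ) / (1 + dist ρ c) ^ 2
      ≤ ∑ ρ ∈ s, ∑ j ∈ range (J + 1), 4 * (1 / 4 : ℝ) ^ j *
        (if ρ ∈ zset f c (2 ^ j) then (analyticOrderNatAt f ρ : ℝ) else 0) :=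
        Finset.sum_le_sum key
    _ = ∑ j ∈ range (J + 1), 4 * (1 / 4 : ℝ) ^ j * ∑ ρ ∈ s,
        (if ρ ∈ zset f c (2 ^ j) then (analyticOrderNatAt f ρ : ℝ) else 0) := by
        rw [Finset.sum_comm]
        refine Finset.sum_congr rfl fun j _ => ?_
        rw [Finset.mul_sum]
    _ ≤ ∑ j ∈ range (J + 1), 4 * (1 / 4 : ℝ) ^ j * (K * (1 + 2 ^ j) ^ (3 / 2 : ℝ)) := by
        refine Finset.sum_le_sum fun j _ => ?_
        refine mul_le_mul_of_nonneg_left ?_ (by positivity)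
        refine le_trans ?_ (hK (2 ^ j) (by positivity))
        rw [← Finset.sum_filter]
        refine Finset.sum_le_sum_of_subset_of_nonneg ?_ (fun i _ _ => by positivity)
        intro z hz
        exact (Finset.mem_filter.1 hz).2
    _ ≤ _ := hsum.sum_le_tsum _ (fun j _ => by positivity)

end Pool.Agent.Osc
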