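import Mathlib
import Pool.Agent.Osc.Count

/-!
# Growth bounds of order 3/2
-/

open Complex Filter Topology MeasureTheory Set

namespace Pool.Agent.Osc

/-- growth of order at most `3/2` on a set -/
def GrowOn (S : Set ℂ) (f : ℂ → ℂ) : Prop :=
  ∃ C : ℝ, 0 ≤ C ∧ ∀ z ∈ S, ‖f z‖ ≤ Real.exp (C * (1 + ‖z‖) ^ (3 / 2 : ℝ))

lemma one_le_wt (z : ℂ) : (1 : ℝ) ≤ (1 + ‖z‖) ^ (3 / 2 : ℝ) :=
  Real.one_le_rpow (by linarith [norm_nonneg z]) (by norm_num)

lemma lin_le_wt (z : ℂ) : 1 + ‖z‖ ≤ (1 + ‖z‖) ^ (3 / 2 : ℝ) := by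
  conv_lhs => rw [← Real.rpow_one (1 + ‖z‖)]
  exact Real.rpow_le_rpow_of_exponent_le (by linarith [norm_nonneg z]) (by norm_num)

lemma GrowOn.mono {S T : Set ℂ} {f : ℂ → ℂ} (h : GrowOn T f) (hST : S ⊆ T) : GrowOn S f := by
  obtain ⟨C, hC, h⟩ := h
  exact ⟨C, hC, fun z hz => h z (hST hz)⟩

lemma GrowOn.union {S T : Set ℂ} {f : ℂ → ℂ} (h1 : GrowOn S f) (h2 : GrowOn T f) :
    GrowOn (S ∪ T) f := by
  obtain ⟨C, hC, h1⟩ := h1
  obtain ⟨D, hD, h2⟩ := h2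
  refine ⟨C + D, by positivity, ?_⟩
  have hw : ∀ z : ℂ, (0 : ℝ) ≤ (1 + ‖z‖) ^ (3 / 2 : ℝ) := fun z => by positivity
  rintro z (hz | hz)
  · refine (h1 z hz).trans (Real.exp_le_exp.2 ?_)
    nlinarith [hw z]
  · refine (h2 z hz).trans (Real.exp_le_exp.2 ?_)
    nlinarith [hw z]

lemma GrowOn.congr {S : Set ℂ} {f g : ℂ → ℂ} (h1 : GrowOn S f) (h : ∀ z ∈ S, f z = g z) :
    GrowOn S g := by
  obtain ⟨C, hC, h1⟩ := h1
  exact ⟨C, hC, fun z hz => by rw [← h z hz]; exact h1 z hz⟩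

lemma GrowOn.of_le {S : Set ℂ} {f g : ℂ → ℂ} (h1 : GrowOn S g) (h : ∀ z ∈ S, ‖f z‖ ≤ ‖g z‖) :
    GrowOn S f := by
  obtain ⟨C, hC, h1⟩ := h1
  exact ⟨C, hC, fun z hz => (h z hz).trans (h1 z hz)⟩

lemma GrowOn.mul {S : Set ℂ} {f g : ℂ → ℂ} (h1 : GrowOn S f) (h2 : GrowOn S g) :
    GrowOn S (fun z => f z * g z) := by
  obtain ⟨C, hC, h1⟩ := h1
  obtain ⟨D, hD, h2⟩ := h2
  refine ⟨C + D, by positivity, fun z hz => ?_⟩
  rw [norm_mul, add_mul, Real.exp_add]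
  exact mul_le_mul (h1 z hz) (h2 z hz) (norm_nonneg _) (Real.exp_pos _).le

lemma GrowOn.add {S : Set ℂ} {f g : ℂ → ℂ} (h1 : GrowOn S f) (h2 : GrowOn S g) :
    GrowOn S (fun z => f z + g z) := by
  obtain ⟨C, hC, h1⟩ := h1
  obtain ⟨D, hD, h2⟩ := h2
  refine ⟨C + D + 1, by positivity, fun z hz => ?_⟩
  have hw := one_le_wt z
  set w := (1 + ‖z‖) ^ (3 / 2 : ℝ) with hwdef
  have e1 : Real.exp (C * w) ≤ Real.exp ((C + D) * w) := Real.exp_le_exp.2 (by nlinarith)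
  have e2 : Real.exp (D * w) ≤ Real.exp ((C + D) * w) := Real.exp_le_exp.2 (by nlinarith)
  have e3 : 2 ≤ Real.exp w := by
    have := Real.add_one_le_exp w
    linarith
  calc ‖f z + g z‖ ≤ ‖f z‖ + ‖g z‖ := norm_add_le _ _
    _ ≤ Real.exp (C * w) + Real.exp (D * w) := add_le_add (h1 z hz) (h2 z hz)
    _ ≤ 2 * Real.exp ((C + D) * w) := by linarith
    _ ≤ Real.exp w * Real.exp ((C + D) * w) := by
        apply mul_le_mul_of_nonneg_right e3 (Real.exp_pos _).le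
    _ = Real.exp ((C + D + 1) * w) := by
        rw [← Real.exp_add]; congr 1; ring

lemma growOn_of_bounded {S : Set ℂ} {f : ℂ → ℂ} (B : ℝ) (h : ∀ z ∈ S, ‖f z‖ ≤ B) :
    GrowOn S f := by
  refine ⟨|B|, abs_nonneg _, fun z hz => ?_⟩
  have hw := one_le_wt z
  calc ‖f z‖ ≤ |B| := (h z hz).trans (le_abs_self B)
    _ ≤ Real.exp |B| := by linarith [Real.add_one_le_exp |B|]
    _ ≤ _ := Real.exp_le_exp.2 (by nlinarith [abs_nonneg B])

lemma growOn_const (S : Set ℂ) (c : ℂ) : GrowOn S (fun _ => c) :=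
  growOn_of_bounded ‖c‖ fun _ _ => le_rfl

lemma growOn_of_exp_lin {S : Set ℂ} {f : ℂ → ℂ} (A : ℝ) (hA : 0 ≤ A)
    (h : ∀ z ∈ S, ‖f z‖ ≤ Real.exp (A * (1 + ‖z‖))) :
    GrowOn S f := by
  refine ⟨A, hA, fun z hz => (h z hz).trans (Real.exp_le_exp.2 ?_)⟩
  exact mul_le_mul_of_nonneg_left (lin_le_wt z) hA

lemma growOn_id (S : Set ℂ) : GrowOn S (fun z => z) := by
  refine growOn_of_exp_lin 1 (by norm_num) fun z _ => ?_
  have := Real.add_one_le_exp (1 * (1 + ‖z‖))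
  linarith

lemma growOn_cpow (S : Set ℂ) (N : ℕ) [NeZero N] (a b : ℂ) :
    GrowOn S (fun z => (N : ℂ) ^ (a * z + b)) := by
  have hN : (0 : ℝ) < N := by exact_mod_cast NeZero.pos N
  have hlog : 0 ≤ Real.log N := Real.log_natCast_nonneg N
  refine growOn_of_exp_lin (Real.log N * (‖a‖ + ‖b‖)) (by positivity) fun z _ => ?_
  have h1 : ‖(N : ℂ) ^ (a * z + b)‖ = (N : ℝ) ^ (a * z + b).re := by
    rw [← Complex.ofReal_natCast, Complex.norm_cpow_eq_rpow_re_of_pos hN]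
  rw [h1, Real.rpow_def_of_pos hN]
  apply Real.exp_le_exp.2
  rw [mul_assoc]
  apply mul_le_mul_of_nonneg_left _ hlog
  calc (a * z + b).re ≤ ‖a * z + b‖ := re_le_norm _
    _ ≤ ‖a * z‖ + ‖b‖ := norm_add_le _ _
    _ = ‖a‖ * ‖z‖ + ‖b‖ := by rw [norm_mul]
    _ ≤ (‖a‖ + ‖b‖) * (1 + ‖z‖) := by
      nlinarith [norm_nonneg a, norm_nonneg b, norm_nonneg z, mul_nonneg (norm_nonneg a) (norm_nonneg z),
        mul_nonneg (norm_nonneg b) (norm_nonneg z)]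

/-- composing with an affine map -/
lemma GrowOn.comp_affine {S T : Set ℂ} {f : ℂ → ℂ} (h : GrowOn T f) (a b : ℂ)
    (hST : ∀ z ∈ S, a * z + b ∈ T) : GrowOn S (fun z => f (a * z + b)) := by
  obtain ⟨C, hC, h⟩ := h
  refine ⟨C * (1 + ‖a‖ + ‖b‖) ^ (3 / 2 : ℝ), by positivity, fun z hz => ?_⟩
  refine (h _ (hST z hz)).trans (Real.exp_le_exp.2 ?_)
  rw [mul_assoc]
  apply mul_le_mul_of_nonneg_left _ hC
  rw [← Real.mul_rpow (by positivity) (by positivity)]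
  apply rpow_three_half_mono (by positivity)
  have : ‖a * z + b‖ ≤ ‖a‖ * ‖z‖ + ‖b‖ := by
    refine (norm_add_le _ _).trans ?_
    rw [norm_mul]
  nlinarith [norm_nonneg a, norm_nonneg b, norm_nonneg z, mul_nonneg (norm_nonneg a) (norm_nonneg z),
    mul_nonneg (norm_nonneg b) (norm_nonneg z)]

lemma growthLE_of_growOn {f : ℂ → ℂ} (h : GrowOn univ f) : ∃ C, GrowthLE f C := by
  obtain ⟨C, hC, h⟩ := h
  exact ⟨C, hC, fun z => h z (mem_univ z)⟩

/-! ### The Gamma function -/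

lemma norm_Gamma_le {z : ℂ} (hz : 0 < z.re) : ‖Complex.Gamma z‖ ≤ Real.Gamma z.re := by
  rw [Complex.Gamma_eq_integral hz, Real.Gamma_eq_integral hz, Complex.GammaIntegral]
  refine (norm_integral_le_integral_norm _).trans (le_of_eq ?_)
  refine setIntegral_congr_fun measurableSet_Ioi fun x hx => ?_
  have hx' : 0 < x := hx
  rw [norm_mul, Complex.norm_real, Real.norm_eq_abs, abs_of_pos (Real.exp_pos _),
    Complex.norm_cpow_eq_rpow_re_of_pos hx']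
  simp

lemma Gamma_le_exp {x : ℝ} (hx : 1 ≤ x) :
    Real.Gamma x ≤ Real.exp (8 * (1 + x) ^ (3 / 2 : ℝ)) := by
  have h1 : Real.Gamma x ≤ Real.Gamma (x + 1) := by
    rw [Real.Gamma_add_one (by linarith)]
    have := Real.Gamma_pos_of_pos (by linarith : 0 < x)
    nlinarith
  have h2 : Real.Gamma (x + 1) ≤ Real.Gamma ((⌈x + 1⌉₊ : ℝ) + 1) := by
    apply Real.Gamma_strictMonoOn_Ici.monotoneOn
    · simp; linarith
    · simp only [mem_Ici]
      have := Nat.le_ceil (x + 1)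
      linarith
    · have := Nat.le_ceil (x + 1)
      linarith
  set n := ⌈x + 1⌉₊ with hn
  have hn1 : (n : ℝ) ≤ x + 2 := by
    have := (Nat.ceil_lt_add_one (by linarith : 0 ≤ x + 1)).le
    linarith
  have hn2 : x + 1 ≤ n := Nat.le_ceil _
  have hnpos : (0 : ℝ) < n := by linarith
  have h3 : Real.Gamma ((n : ℝ) + 1) ≤ (n : ℝ) ^ n := by
    rw [Real.Gamma_nat_eq_factorial]
    exact_mod_cast Nat.factorial_le_pow n
  have h4 : (n : ℝ) ^ n = Real.exp (n * Real.log n) := by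
    rw [← Real.rpow_natCast, Real.rpow_def_of_pos hnpos]
    congr 1; ring
  have h5 : Real.log n ≤ (n : ℝ) ^ (1 / 2 : ℝ) / (1 / 2) :=
    Real.log_le_rpow_div hnpos.le (by norm_num)
  have h6 : (n : ℝ) * Real.log n ≤ 2 * (n : ℝ) ^ (3 / 2 : ℝ) := by
    have : (n : ℝ) ^ (3 / 2 : ℝ) = n * (n : ℝ) ^ (1 / 2 : ℝ) := by
      rw [show (3 / 2 : ℝ) = 1 + 1 / 2 by norm_num, Real.rpow_add hnpos, Real.rpow_one]
    rw [this]
    nlinarith
  have h7 : (n : ℝ) ^ (3 / 2 : ℝ) ≤ 4 * (1 + x) ^ (3 / 2 : ℝ) := by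
    calc (n : ℝ) ^ (3 / 2 : ℝ) ≤ (2 * (1 + x)) ^ (3 / 2 : ℝ) := by
          apply rpow_three_half_mono hnpos.le; linarith
      _ = 2 ^ (3 / 2 : ℝ) * (1 + x) ^ (3 / 2 : ℝ) := by
          rw [Real.mul_rpow (by norm_num) (by linarith)]
      _ ≤ 4 * (1 + x) ^ (3 / 2 : ℝ) := by
          apply mul_le_mul_of_nonneg_right _ (by positivity)
          have : (4 : ℝ) = 2 ^ (2 : ℝ) := by norm_num
          rw [this]
          exact Real.rpow_le_rpow_of_exponent_le (by norm_num) (by norm_num)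
  calc Real.Gamma x ≤ (n : ℝ) ^ n := h1.trans (h2.trans h3)
    _ = Real.exp (n * Real.log n) := h4
    _ ≤ _ := Real.exp_le_exp.2 (by linarith)

lemma growOn_Gamma : GrowOn {z | 1 ≤ z.re} Complex.Gamma := by
  refine ⟨8, by norm_num, fun z hz => ?_⟩
  have hz' : 1 ≤ z.re := hz
  refine (norm_Gamma_le (by linarith)).trans ((Gamma_le_exp hz').trans (Real.exp_le_exp.2 ?_))
  apply mul_le_mul_of_nonneg_left _ (by norm_num)
  apply rpow_three_half_mono (by linarith)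
  linarith [re_le_norm z]

lemma growOn_Gammaℝ : GrowOn {z | 2 ≤ z.re} Gammaℝ := by
  have h1 : GrowOn {z : ℂ | 2 ≤ z.re} (fun z => Complex.Gamma ((1 / 2) * z + 0)) := by
    apply growOn_Gamma.comp_affine
    intro z hz
    simp only [mem_ofPred] at hz ⊢
    have : ((1 / 2 : ℂ) * z + 0).re = z.re / 2 := by
      simp
      ring
    rw [this]; linarith
  have h2 : GrowOn {z : ℂ | 2 ≤ z.re} (fun z => (Real.pi : ℂ) ^ (-z / 2)) := by
    apply growOn_of_bounded 1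
    intro z hz
    have hz' : 2 ≤ z.re := hz
    rw [Complex.norm_cpow_eq_rpow_re_of_pos Real.pi_pos]
    apply Real.rpow_le_one_of_one_le_of_nonpos
    · linarith [Real.pi_gt_three]
    · simp; linarith
  refine (h2.mul h1).congr fun z _ => ?_
  rw [Gammaℝ_def]
  congr 2
  ring

/-! ### Mellin transforms are bounded on vertical strips -/

lemma mellin_strip_bound {f : ℝ → ℂ} {a b : ℝ} (ha : MellinConvergent f a)
    (hb : MellinConvergent f b) :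
    ∃ B : ℝ, ∀ s : ℂ, a ≤ s.re → s.re ≤ b → ‖mellin f s‖ ≤ B := by
  have hna : IntegrableOn (fun t : ℝ => t ^ (a - 1) * ‖f t‖) (Ioi 0) := by
    have ha' : IntegrableOn (fun t : ℝ => ‖(t : ℂ) ^ ((a : ℂ) - 1) • f t‖) (Ioi 0) := ha.norm
    refine ha'.congr_fun (fun t ht => ?_) measurableSet_Ioi
    simp only [norm_smul]
    rw [Complex.norm_cpow_eq_rpow_re_of_pos ht]
    simp
  have hnb : IntegrableOn (fun t : ℝ => t ^ (b - 1) * ‖f t‖) (Ioi 0) := by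
    have hb' : IntegrableOn (fun t : ℝ => ‖(t : ℂ) ^ ((b : ℂ) - 1) • f t‖) (Ioi 0) := hb.norm
    refine hb'.congr_fun (fun t ht => ?_) measurableSet_Ioi
    simp only [norm_smul]
    rw [Complex.norm_cpow_eq_rpow_re_of_pos ht]
    simp
  refine ⟨∫ t in Ioi (0 : ℝ), (t ^ (a - 1) * ‖f t‖ + t ^ (b - 1) * ‖f t‖), fun s hs1 hs2 => ?_⟩
  rw [mellin]
  refine norm_integral_le_of_norm_le (hna.add hnb) ?_
  filter_upwards [ae_restrict_mem measurableSet_Ioi] with t ht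
  have ht' : 0 < t := ht
  rw [norm_smul, Complex.norm_cpow_eq_rpow_re_of_pos ht']
  have h1 : t ^ (s - 1).re ≤ t ^ (a - 1) + t ^ (b - 1) := by
    have e : (s - 1).re = s.re - 1 := by simp
    rw [e]
    rcases le_total t 1 with h | h
    · have := Real.rpow_le_rpow_of_exponent_ge ht' h (by linarith : a - 1 ≤ s.re - 1)
      have h3 : 0 ≤ t ^ (b - 1) := by positivity
      linarith
    · have := Real.rpow_le_rpow_of_exponent_le h (by linarith : s.re - 1 ≤ b - 1)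
      have h3 : 0 ≤ t ^ (a - 1) := by positivity
      linarith
  calc t ^ (s - 1).re * ‖f t‖ ≤ (t ^ (a - 1) + t ^ (b - 1)) * ‖f t‖ :=
        mul_le_mul_of_nonneg_right h1 (norm_nonneg _)
    _ = _ := by ring

lemma Λ₀_strip_bound (P : WeakFEPair ℂ) (a b : ℝ) :
    ∃ B : ℝ, ∀ s : ℂ, a ≤ s.re → s.re ≤ b → ‖P.Λ₀ s‖ ≤ B := by
  have h := P.isStrongFEPair_toStrongFEPair
  have ha := (h.hasMellin (a : ℂ)).1
  have hb := (h.hasMellin (b : ℂ)).1
  exact mellin_strip_bound (f := P.f_modif) ha hb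

end Pool.Agent.Osc
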