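import Mathlib
import Pool.Agent.Osc.Count

/-!
# Partial fractions of the logarithmic derivative of an entire function of order at most 3/2
-/

open Complex Filter Topology Metric Finset

namespace Pool.Agent.Osc

/-- A holomorphic logarithm on a disk. -/
lemma exists_log_on_ball {g : ℂ → ℂ} (hg : Differentiable ℂ g) {c : ℂ} {r : ℝ} (hr : 0 < r)
    (h0 : ∀ z ∈ ball c r, g z ≠ 0) :
    ∃ h : ℂ → ℂ, (∀ z ∈ ball c r, HasDerivAt h (deriv g z / g z) z) ∧ h c = 0 ∧
      ∀ z ∈ ball c r, exp (h z) = g z / g c := by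
  have hcm : c ∈ ball c r := mem_ball_self hr
  have hd : DifferentiableOn ℂ (fun z => deriv g z / g z) (ball c r) := by
    intro z hz
    exact (((hg.analyticAt z).deriv.differentiableAt).div (hg z) (h0 z hz)).differentiableWithinAt
  obtain ⟨H, hH⟩ := hd.isExactOn_ball
  refine ⟨fun z => H z - H c, ?_, by simp, ?_⟩
  · intro z hz
    exact (hH z hz).sub_const _
  · have hder : ∀ z ∈ ball c r, HasDerivAt (fun z => g z * exp (-(H z - H c))) 0 z := by
      intro z hz
      have h1 : HasDerivAt g (deriv g z) z := (hg z).hasDerivAt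
      have h2 : HasDerivAt (fun z => exp (-(H z - H c)))
          (exp (-(H z - H c)) * (-(deriv g z / g z))) z := by
        have := ((hH z hz).sub_const (H c)).neg
        exact this.cexp
      have h3 := h1.mul h2
      convert! h3 using 1
      have := h0 z hz
      field_simp
      ring
    have hconst : ∀ z ∈ ball c r, g z * exp (-(H z - H c)) = g c * exp (-(H c - H c)) := by
      intro z hz
      have hconv : Convex ℝ (ball c r) := convex_ball c r
      refine (isOpen_ball).is_const_of_deriv_eq_zero (hconv.isPreconnected)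
        (fun w hw => (hder w hw).differentiableAt.differentiableWithinAt)
        (fun w hw => (hder w hw).deriv) hz hcm
    intro z hz
    have h4 := hconst z hz
    simp only [sub_self, neg_zero, exp_zero, mul_one] at h4
    have hgc := h0 c hcm
    rw [eq_div_iff hgc, ← h4]
    rw [mul_comm, mul_assoc, ← exp_add]
    simp

/-- On the disk of radius `r`, the logarithmic derivative of a nonvanishing function is nearly
constant near the centre. -/
lemma logderiv_variation {g : ℂ → ℂ} (hg : Differentiable ℂ g) {c : ℂ} {r L : ℝ} (hr : 0 < r)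
    (hL : 0 < L)
    (h0 : ∀ z ∈ ball c r, g z ≠ 0)
    (hb : ∀ z ∈ ball c r, Real.log (‖g z‖ / ‖g c‖) ≤ L) (z : ℂ) (hz : dist z c < r / 4) :
    ‖deriv g z / g z - deriv g c / g c‖ ≤ 68 * L / r ^ 2 * dist z c := by
  obtain ⟨h, hh, hc, hexp⟩ := exists_log_on_ball hg hr h0
  have hre : ∀ w ∈ ball c r, (h w).re ≤ L := by
    intro w hw
    have h1 := hb w hw
    rw [← norm_div, ← hexp w hw, Complex.norm_exp, Real.log_exp] at h1
    exact h1
  -- Borel-Caratheodory
  have hbc : ∀ w ∈ ball c r, ‖h w‖ ≤ 2 * L * dist w c / (r - dist w c) := by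
    intro w hw
    have h1 : DifferentiableOn ℂ (fun v => h (v + c)) (ball 0 r) := by
      intro v hv
      have hv' : v + c ∈ ball c r := by
        rw [mem_ball, dist_eq_norm, add_sub_cancel_right]
        simpa using hv
      have := (hh (v + c) hv').comp_add_const v c
      exact this.differentiableAt.differentiableWithinAt
    have h2 := Complex.borelCaratheodory_zero (f := fun v => h (v + c)) (M := L) (R := r)
      (z := w - c) hL h1 (by
        intro v hv
        have hv' : v + c ∈ ball c r := by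
          rw [mem_ball, dist_eq_norm, add_sub_cancel_right]
          simpa using hv
        exact hre _ hv') hr (by rw [mem_ball, dist_zero_right, ← dist_eq_norm]; exact hw)
        (by simpa using hc)
    simpa [dist_eq_norm] using h2
  -- bound for the derivative
  have hder : ∀ w, dist w c < r / 4 → ‖deriv h w‖ ≤ 8 * L / r := by
    intro w hw
    have h3 : ∀ v ∈ closedBall w (r / 4), v ∈ ball c r := by
      intro v hv
      rw [mem_closedBall] at hv
      rw [mem_ball]
      have := dist_triangle v w c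
      linarith
    have h1 : DiffContOnCl ℂ h (ball w (r / 4)) := by
      apply DifferentiableOn.diffContOnCl
      rw [closure_ball w (by positivity : r / 4 ≠ 0)]
      intro v hv
      exact (hh v (h3 v hv)).differentiableAt.differentiableWithinAt
    have h2 := Complex.norm_deriv_le_of_forall_mem_sphere_norm_le (c := w) (R := r / 4)
      (C := 2 * L) (by positivity) h1 (by
        intro v hv
        have hv1 : v ∈ closedBall w (r / 4) := sphere_subset_closedBall hv
        have hv2 := hbc v (h3 v hv1)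
        refine hv2.trans ?_
        rw [mem_sphere] at hv
        have h4 := dist_triangle v w c
        have h5 : dist v c ≤ r / 2 := by linarith
        rw [div_le_iff₀ (by linarith)]
        nlinarith [dist_nonneg (x := v) (y := c)])
    refine h2.trans (le_of_eq ?_)
    field_simp
    ring
  have hdd : DifferentiableOn ℂ (deriv h) (ball c (r / 4)) := by
    intro w hw
    have hw' : w ∈ ball c r := by
      rw [mem_ball] at hw ⊢; linarith
    have : DifferentiableOn ℂ h (ball c r) := fun v hv =>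
      (hh v hv).differentiableAt.differentiableWithinAt
    exact ((this.analyticOnNhd isOpen_ball w hw').deriv).differentiableAt.differentiableWithinAt
  have hmaps : Set.MapsTo (deriv h) (ball c (r / 4)) (ball (deriv h c) (17 * L / r)) := by
    intro w hw
    rw [mem_ball, dist_eq_norm]
    have h1 := hder w hw
    have h2 := hder c (by simpa using by positivity)
    calc ‖deriv h w - deriv h c‖ ≤ ‖deriv h w‖ + ‖deriv h c‖ := norm_sub_le _ _
      _ ≤ 8 * L / r + 8 * L / r := add_le_add h1 h2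
      _ < 17 * L / r := by
        have : 0 < L / r := by positivity
        have e1 : 8 * L / r = 8 * (L / r) := by ring
        have e2 : 17 * L / r = 17 * (L / r) := by ring
        rw [e1, e2]; linarith
  have hS := Complex.dist_le_div_mul_dist_of_mapsTo_ball hdd
    (hmaps.mono_right ball_subset_closedBall) (z := z) (by simpa using hz)
  have e1 : deriv h z = deriv g z / g z := (hh z (by rw [mem_ball]; linarith)).deriv
  have e2 : deriv h c = deriv g c / g c := (hh c (mem_ball_self hr)).deriv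
  rw [e1, e2, dist_eq_norm] at hS
  refine hS.trans (le_of_eq ?_)
  field_simp
  ring


lemma logDeriv_factor {f g : ℂ → ℂ} (hg : Differentiable ℂ g)
    (Z : Finset ℂ) (m : ℂ → ℕ) (hfg : ∀ z, f z = (∏ a ∈ Z, (z - a) ^ (m a)) * g z)
    (z : ℂ) (hz : f z ≠ 0) (hzZ : ∀ a ∈ Z, z ≠ a) :
    logDeriv f z = ∑ a ∈ Z, (m a : ℂ) * (1 / (z - a)) + deriv g z / g z := by
  have h1 : f = fun z => (∏ a ∈ Z, (z - a) ^ (m a)) * g z := by
    funext z; exact hfg z
  have hgz : g z ≠ 0 := by
    intro h; apply hz; rw [hfg z, h, mul_zero]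
  have hP : ∏ a ∈ Z, (z - a) ^ (m a) ≠ 0 := by
    rw [Finset.prod_ne_zero_iff]
    intro a ha
    exact pow_ne_zero _ (sub_ne_zero.2 (hzZ a ha))
  have hPd : DifferentiableAt ℂ (fun z : ℂ => ∏ a ∈ Z, (z - a) ^ (m a)) z := by fun_prop
  rw [h1, logDeriv_mul (f := fun z : ℂ => ∏ a ∈ Z, (z - a) ^ (m a)) z hP hgz hPd (hg z)]
  congr 1
  rw [logDeriv_prod (s := Z) (f := fun a (z : ℂ) => (z - a) ^ (m a)) (x := z)
    (fun a ha => pow_ne_zero _ (sub_ne_zero.2 (hzZ a ha))) (fun a _ => by fun_prop)]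
  refine Finset.sum_congr rfl fun a ha => ?_
  have hza : z - a ≠ 0 := sub_ne_zero.2 (hzZ a ha)
  have h2 : logDeriv (fun z : ℂ => (z - a) ^ (m a)) z = (m a : ℂ) * logDeriv (fun z => z - a) z := by
    rw [logDeriv_fun_pow (f := fun z : ℂ => z - a) (by fun_prop)]
  rw [h2]
  congr 1
  rw [logDeriv_apply]
  simp

/-- convergence of the partial sums over balls -/
lemma tendsto_logDeriv {f : ℂ → ℂ} (hf : Differentiable ℂ f) {C : ℝ}
    (hC : GrowthLE f C) {z c : ℂ} (hz : f z ≠ 0) (hc : f c ≠ 0) :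
    Tendsto (fun n : ℕ => ∑ ρ ∈ zset f c n, (analyticOrderNatAt f ρ : ℂ) *
      (1 / (z - ρ) - 1 / (c - ρ))) atTop (𝓝 (logDeriv f z - logDeriv f c)) := by
  obtain ⟨hC0, hC1⟩ := hC
  rw [tendsto_iff_norm_sub_tendsto_zero]
  set B : ℕ → ℝ := fun n => 68 * (C * (1 + ‖c‖ + 4 * n) ^ (3 / 2 : ℝ) +
    |Real.log ‖f c‖| + 1) / (n : ℝ) ^ 2 * dist z c with hB
  have hBlim : Tendsto B atTop (𝓝 0) := by
    have h1 : Tendsto (fun n : ℕ => (C * (1 + ‖c‖ + 4 * n) ^ (3 / 2 : ℝ) +
        |Real.log ‖f c‖| + 1) / (n : ℝ) ^ 2) atTop (𝓝 0) := by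
      have hinv : Tendsto (fun n : ℕ => ((n : ℝ))⁻¹) atTop (𝓝 0) :=
        tendsto_inv_atTop_zero.comp tendsto_natCast_atTop_atTop
      have hsq : Tendsto (fun n : ℕ => ((n : ℝ) ^ (1 / 2 : ℝ))⁻¹) atTop (𝓝 0) := by
        apply tendsto_inv_atTop_zero.comp
        exact (tendsto_rpow_atTop (by norm_num)).comp tendsto_natCast_atTop_atTop
      have h2 : Tendsto (fun n : ℕ => C * ((1 + ‖c‖) * ((n : ℝ))⁻¹ + 4) ^ (3 / 2 : ℝ) *
          ((n : ℝ) ^ (1 / 2 : ℝ))⁻¹ + (|Real.log ‖f c‖| + 1) * (((n : ℝ))⁻¹ * ((n : ℝ))⁻¹))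
          atTop (𝓝 (C * ((1 + ‖c‖) * 0 + 4) ^ (3 / 2 : ℝ) * 0 +
            (|Real.log ‖f c‖| + 1) * (0 * 0))) := by
        apply Tendsto.add
        · apply Tendsto.mul _ hsq
          apply Tendsto.const_mul
          apply Tendsto.rpow_const
          · exact (hinv.const_mul _).add_const _
          · right; norm_num
        · exact (hinv.mul hinv).const_mul _
      simp only [mul_zero, add_zero] at h2
      refine h2.congr' ?_
      filter_upwards [eventually_gt_atTop 0] with n hn
      have hn' : (0 : ℝ) < n := by exact_mod_cast hn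
      have e1 : (1 + ‖c‖ + 4 * (n : ℝ)) ^ (3 / 2 : ℝ) =
          ((1 + ‖c‖) * ((n : ℝ))⁻¹ + 4) ^ (3 / 2 : ℝ) * (n : ℝ) ^ (3 / 2 : ℝ) := by
        rw [← Real.mul_rpow (by positivity) (by positivity)]
        congr 1
        field_simp
      have e2 : (n : ℝ) ^ (3 / 2 : ℝ) / (n : ℝ) ^ 2 = ((n : ℝ) ^ (1 / 2 : ℝ))⁻¹ := by
        rw [← Real.rpow_natCast, ← Real.rpow_sub hn', ← Real.rpow_neg hn'.le]
        norm_num
      have e3 : (C * (1 + ‖c‖ + 4 * (n : ℝ)) ^ (3 / 2 : ℝ) + |Real.log ‖f c‖| + 1) / (n : ℝ) ^ 2 =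
          C * ((1 + ‖c‖) * ((n : ℝ))⁻¹ + 4) ^ (3 / 2 : ℝ) * ((n : ℝ) ^ (3 / 2 : ℝ) / (n : ℝ) ^ 2) +
          (|Real.log ‖f c‖| + 1) * (((n : ℝ))⁻¹ * ((n : ℝ))⁻¹) := by
        rw [e1]
        field_simp
        ring
      rw [e3, e2]
    have h2 := (h1.const_mul 68).mul_const (dist z c)
    simp only [mul_zero, zero_mul] at h2
    refine h2.congr fun n => ?_
    rw [hB]
    ring
  refine squeeze_zero' (Eventually.of_forall fun n => norm_nonneg _) ?_ hBlim
  have hev : ∀ᶠ n : ℕ in atTop, 4 * dist z c < n := by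
    filter_upwards [eventually_gt_atTop ⌈4 * dist z c⌉₊] with n hn
    exact lt_of_le_of_lt (Nat.le_ceil _) (by exact_mod_cast hn)
  filter_upwards [hev, eventually_gt_atTop 0] with n hn hn0
  have hn' : (0 : ℝ) < n := by exact_mod_cast hn0
  set Z := zset f c n with hZ
  have hmemZ : ∀ a, a ∈ Z ↔ f a = 0 ∧ dist a c ≤ n := mem_zset hf hc n
  obtain ⟨g₀, hg₀, hg₀Z, hfg⟩ := exists_factor_finset hf hc Z
  set k : ℂ := ∏ a ∈ Z, (c - a) ^ (analyticOrderNatAt f a) with hk
  have hk0 : k ≠ 0 := by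
    rw [hk, Finset.prod_ne_zero_iff]
    intro a ha
    refine pow_ne_zero _ (sub_ne_zero.2 ?_)
    rintro rfl
    exact hc ((hmemZ _).1 ha).1
  have hzZ : ∀ a ∈ Z, z ≠ a := by
    rintro a ha rfl
    exact hz ((hmemZ _).1 ha).1
  have hcZ : ∀ a ∈ Z, c ≠ a := by
    rintro a ha rfl
    exact hc ((hmemZ _).1 ha).1
  set g : ℂ → ℂ := fun w => k * g₀ w with hg
  have hgd : Differentiable ℂ g := hg₀.const_mul k
  have hgc : g c = f c := by rw [hfg c]
  have hg0 : ∀ v ∈ ball c (n : ℝ), g v ≠ 0 := by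
    intro v hv
    refine mul_ne_zero hk0 ?_
    by_cases hfv : f v = 0
    · exact hg₀Z v ((hmemZ v).2 ⟨hfv, (mem_ball.1 hv).le⟩)
    · intro h; apply hfv; rw [hfg v, h, mul_zero]
  have hbound : ∀ v ∈ closedBall c (4 * n : ℝ),
      ‖g v‖ ≤ Real.exp (C * (1 + ‖c‖ + 4 * n) ^ (3 / 2 : ℝ)) := by
    intro v hv
    refine Complex.norm_le_of_forall_mem_frontier_norm_le (U := ball c (4 * n : ℝ)) isBounded_ball
      hgd.diffContOnCl ?_ (by rw [closure_ball c (by positivity)]; exact hv)
    intro w hw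
    rw [frontier_ball c (by positivity), mem_sphere] at hw
    have h1 : ‖f w‖ = ‖∏ a ∈ Z, ((w - a) / (c - a)) ^ (analyticOrderNatAt f a)‖ * ‖g w‖ := by
      rw [← norm_mul]
      congr 1
      rw [hfg w, hg]
      have : ∏ a ∈ Z, ((w - a) / (c - a)) ^ (analyticOrderNatAt f a) =
          (∏ a ∈ Z, (w - a) ^ (analyticOrderNatAt f a)) / k := by
        rw [hk, ← Finset.prod_div_distrib]
        exact Finset.prod_congr rfl fun a _ => div_pow _ _ _
      rw [this]
      field_simp
    have h2 : 1 ≤ ‖∏ a ∈ Z, ((w - a) / (c - a)) ^ (analyticOrderNatAt f a)‖ := by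
      rw [norm_prod]
      refine Finset.prod_induction _ (fun x : ℝ => 1 ≤ x)
        (fun a b ha hb => one_le_mul_of_one_le_of_one_le ha hb) le_rfl ?_
      intro a ha
      rw [norm_pow, norm_div]
      apply one_le_pow₀
      rw [one_le_div (norm_pos_iff.2 (sub_ne_zero.2 (hcZ a ha)))]
      have h3 := ((hmemZ a).1 ha).2
      rw [dist_eq_norm, norm_sub_rev] at h3
      rw [dist_eq_norm] at hw
      have h4 : ‖w - c‖ ≤ ‖w - a‖ + ‖c - a‖ := by
        calc ‖w - c‖ = ‖(w - a) - (c - a)‖ := by ring_nf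
          _ ≤ _ := norm_sub_le _ _
      linarith
    calc ‖g w‖ = 1 * ‖g w‖ := by ring
      _ ≤ ‖∏ a ∈ Z, ((w - a) / (c - a)) ^ (analyticOrderNatAt f a)‖ * ‖g w‖ :=
        mul_le_mul_of_nonneg_right h2 (norm_nonneg _)
      _ = ‖f w‖ := h1.symm
      _ ≤ Real.exp (C * (1 + ‖w‖) ^ (3 / 2 : ℝ)) := hC1 w
      _ ≤ _ := by
        apply Real.exp_le_exp.2
        refine mul_le_mul_of_nonneg_left ?_ hC0
        apply rpow_three_half_mono (by positivity)
        have : ‖w‖ ≤ ‖c‖ + dist w c := by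
          rw [dist_eq_norm]
          calc ‖w‖ = ‖c + (w - c)‖ := by ring_nf
            _ ≤ ‖c‖ + ‖w - c‖ := norm_add_le _ _
        rw [hw] at this
        linarith
  have hlog : ∀ v ∈ ball c (n : ℝ), Real.log (‖g v‖ / ‖g c‖) ≤
      C * (1 + ‖c‖ + 4 * n) ^ (3 / 2 : ℝ) + |Real.log ‖f c‖| + 1 := by
    intro v hv
    have hgv := hg0 v hv
    rw [hgc, Real.log_div (norm_ne_zero_iff.2 hgv) (norm_ne_zero_iff.2 hc)]
    have h1 : Real.log ‖g v‖ ≤ C * (1 + ‖c‖ + 4 * n) ^ (3 / 2 : ℝ) := by
      rw [Real.log_le_iff_le_exp (norm_pos_iff.2 hgv)]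
      apply hbound
      rw [mem_closedBall]
      rw [mem_ball] at hv
      linarith
    linarith [neg_le_abs (Real.log ‖f c‖)]
  have hvar := logderiv_variation hgd (c := c) (r := n)
    (L := C * (1 + ‖c‖ + 4 * n) ^ (3 / 2 : ℝ) + |Real.log ‖f c‖| + 1) hn' (by positivity) hg0 hlog
    z (by linarith)
  have hlogg : ∀ w, g₀ w ≠ 0 → deriv g w / g w = deriv g₀ w / g₀ w := by
    intro w hw
    rw [hg]
    simp only
    rw [deriv_const_mul _ (hg₀ w)]
    field_simp
  have hg₀z : g₀ z ≠ 0 := by intro h; apply hz; rw [hfg z, h, mul_zero]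
  have hg₀c : g₀ c ≠ 0 := by intro h; apply hc; rw [hfg c, h, mul_zero]
  have e1 := logDeriv_factor hg₀ Z (fun a => analyticOrderNatAt f a) hfg z hz hzZ
  have e2 := logDeriv_factor hg₀ Z (fun a => analyticOrderNatAt f a) hfg c hc hcZ
  have e3 : (∑ ρ ∈ Z, (analyticOrderNatAt f ρ : ℂ) * (1 / (z - ρ) - 1 / (c - ρ))) -
      (logDeriv f z - logDeriv f c) = -(deriv g z / g z - deriv g c / g c) := by
    rw [e1, e2, hlogg z hg₀z, hlogg c hg₀c]
    simp only [mul_sub, Finset.sum_sub_distrib]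
    ring
  rw [e3, norm_neg]
  exact hvar

/-- **Partial fractions** for entire functions of order at most `3/2`. -/
theorem hasSum_logDeriv {f : ℂ → ℂ} (hf : Differentiable ℂ f) {C : ℝ}
    (hC : GrowthLE f C) {z c : ℂ} (hz : f z ≠ 0) (hc : f c ≠ 0) :
    HasSum (fun ρ : ℂ => (analyticOrderNatAt f ρ : ℂ) * (1 / (z - ρ) - 1 / (c - ρ)))
      (logDeriv f z - logDeriv f c) := by
  classical
  set F : ℂ → ℂ := fun ρ => (analyticOrderNatAt f ρ : ℂ) * (1 / (z - ρ) - 1 / (c - ρ)) with hF
  have hsum0 := summable_zmult hf hc hC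
  have hzero : ∀ ρ, f ρ ≠ 0 → analyticOrderNatAt f ρ = 0 := by
    intro ρ hρ
    by_contra h
    exact hρ ((zmult_pos_iff hf hc ρ).1 h)
  have hFs : Summable F := by
    refine Summable.of_norm_bounded_eventually (g := fun ρ : ℂ => (4 * dist z c) *
      ((analyticOrderNatAt f ρ : ℝ) / (1 + dist ρ c) ^ 2)) (hsum0.mul_left _) ?_
    have hfin := zeros_finite hf hc (2 * dist z c + 1)
    rw [Filter.eventually_cofinite]
    refine hfin.subset ?_
    intro ρ hρ
    rw [Set.mem_ofPred_eq] at hρ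
    by_contra hcon
    apply hρ
    rw [Set.mem_ofPred_eq, not_and_or, not_le] at hcon
    by_cases hfρ : f ρ = 0
    · have hd : 2 * dist z c + 1 < dist ρ c := by
        rcases hcon with h | h
        · exact absurd hfρ h
        · exact h
      have hzρ : z - ρ ≠ 0 := sub_ne_zero.2 (by rintro rfl; exact hz hfρ)
      have hcρ : c - ρ ≠ 0 := sub_ne_zero.2 (by rintro rfl; exact hc hfρ)
      have e1 : 1 / (z - ρ) - 1 / (c - ρ) = (c - z) / ((z - ρ) * (c - ρ)) := by
        field_simp
        ring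
      have hcρ' : ‖c - ρ‖ = dist ρ c := by rw [dist_eq_norm, norm_sub_rev]
      have hcz' : ‖c - z‖ = dist z c := by rw [dist_eq_norm, norm_sub_rev]
      have h1 : (1 + dist ρ c) / 2 ≤ ‖c - ρ‖ := by
        rw [hcρ']
        linarith [dist_nonneg (x := z) (y := c)]
      have h2 : (1 + dist ρ c) / 2 ≤ ‖z - ρ‖ := by
        have := dist_triangle ρ z c
        rw [dist_comm ρ z, dist_eq_norm z ρ] at this
        linarith
      rw [hF]
      simp only
      rw [norm_mul, e1, norm_div, norm_mul, hcz', Complex.norm_natCast]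
      have h3 : (0:ℝ) < (1 + dist ρ c) / 2 := by positivity
      have h4 : dist z c / (‖z - ρ‖ * ‖c - ρ‖) ≤ dist z c / ((1 + dist ρ c) / 2 * ((1 + dist ρ c) / 2)) := by
        apply div_le_div_of_nonneg_left dist_nonneg (by positivity)
        exact mul_le_mul h2 h1 h3.le (h3.le.trans h2)
      calc (analyticOrderNatAt f ρ : ℝ) * (dist z c / (‖z - ρ‖ * ‖c - ρ‖))
          ≤ (analyticOrderNatAt f ρ : ℝ) *
            (dist z c / ((1 + dist ρ c) / 2 * ((1 + dist ρ c) / 2))) :=
            mul_le_mul_of_nonneg_left h4 (by positivity)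
        _ = _ := by field_simp; norm_num
    · rw [hF]
      simp [hzero ρ hfρ]
  have hlim := tendsto_logDeriv hf hC hz hc
  have hpart : Tendsto (fun n : ℕ => ∑ ρ ∈ zset f c n, F ρ) atTop (𝓝 (∑' ρ, F ρ)) := by
    have h1 : ∀ n : ℕ, ∑ ρ ∈ zset f c n, F ρ = ∑' ρ, (if dist ρ c ≤ n then F ρ else 0) := by
      intro n
      rw [tsum_eq_sum (s := zset f c n)]
      · refine Finset.sum_congr rfl fun ρ hρ => ?_
        rw [if_pos ((mem_zset hf hc n ρ).1 hρ).2]
      · intro ρ hρ
        by_cases hd : dist ρ c ≤ n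
        · rw [if_pos hd]
          have hfρ : f ρ ≠ 0 := by
            intro h
            exact hρ ((mem_zset hf hc n ρ).2 ⟨h, hd⟩)
          rw [hF]
          simp [hzero ρ hfρ]
        · rw [if_neg hd]
    simp_rw [h1]
    refine tendsto_tsum_of_dominated_convergence hFs.norm ?_ ?_
    · intro ρ
      apply tendsto_const_nhds.congr'
      filter_upwards [eventually_ge_atTop ⌈dist ρ c⌉₊] with n hn
      rw [if_pos]
      exact (Nat.le_ceil _).trans (by exact_mod_cast hn)
    · filter_upwards with n ρ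
      split_ifs
      · exact le_rfl
      · simp
  have := tendsto_nhds_unique hlim hpart
  rw [this]
  exact hFs.hasSum

end Pool.Agent.Osc
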