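import Mathlib
import Pool.Agent.Osc.Growth
import Pool.Agent.Osc.PartialFrac

/-!
# The entire completed L-function of a primitive Dirichlet character
-/

open Complex Filter Topology MeasureTheory Set DirichletCharacter HurwitzZeta

namespace Pool.Agent.Osc

variable {N : ℕ} [NeZero N]

/-- The entire function attached to a primitive character: the completed `L`-function,
multiplied by `s (s - 1)` when the modulus is `1`. -/
noncomputable def xi (χ : DirichletCharacter ℂ N) (s : ℂ) : ℂ :=
  if N = 1 then s * (s - 1) * completedRiemannZeta₀ s + 1 else completedLFunction χ s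

lemma ne_one_of_primitive {χ : DirichletCharacter ℂ N} (hχ : χ.IsPrimitive) (hN : N ≠ 1) :
    χ ≠ 1 := by
  rintro rfl
  apply hN
  rw [DirichletCharacter.IsPrimitive, conductor_one] at hχ
  exact hχ.symm

omit [NeZero N] in
lemma factorsThrough_inv {χ : DirichletCharacter ℂ N} {d : ℕ} (h : FactorsThrough χ d) :
    FactorsThrough χ⁻¹ d := by
  obtain ⟨hd, χ₀, h0⟩ := h
  exact ⟨hd, χ₀⁻¹, by rw [map_inv, ← h0]⟩

omit [NeZero N] in
lemma conductor_inv (χ : DirichletCharacter ℂ N) :
    DirichletCharacter.conductor χ⁻¹ = DirichletCharacter.conductor χ := by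
  have : conductorSet χ⁻¹ = conductorSet χ := by
    ext d
    rw [mem_conductorSet_iff, mem_conductorSet_iff]
    constructor
    · intro h
      simpa using factorsThrough_inv h
    · exact factorsThrough_inv
  rw [DirichletCharacter.conductor, this, ← DirichletCharacter.conductor]

omit [NeZero N] in
lemma primitive_inv {χ : DirichletCharacter ℂ N} (hχ : χ.IsPrimitive) : χ⁻¹.IsPrimitive := by
  rw [DirichletCharacter.isPrimitive_def] at hχ ⊢
  rw [conductor_inv, hχ]

lemma xi_of_one (h : N = 1) (χ : DirichletCharacter ℂ N) (s : ℂ) :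
    xi χ s = s * (s - 1) * completedRiemannZeta₀ s + 1 := by
  rw [xi, if_pos h]

lemma xi_of_ne_one (h : N ≠ 1) (χ : DirichletCharacter ℂ N) (s : ℂ) :
    xi χ s = completedLFunction χ s := by
  rw [xi, if_neg h]

lemma xi_of_one' (h : N = 1) (χ : DirichletCharacter ℂ N) {s : ℂ} (h0 : s ≠ 0) (h1 : s ≠ 1) :
    xi χ s = s * (s - 1) * completedLFunction χ s := by
  subst h
  rw [xi_of_one rfl, completedLFunction_modOne_eq, completedRiemannZeta_eq]
  have h2 : 1 - s ≠ 0 := sub_ne_zero.2 (Ne.symm h1)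
  field_simp
  ring

lemma differentiable_xi {χ : DirichletCharacter ℂ N} (hχ : χ.IsPrimitive) :
    Differentiable ℂ (xi χ) := by
  by_cases hN : N = 1
  · have : xi χ = fun s => s * (s - 1) * completedRiemannZeta₀ s + 1 := by
      funext s; exact xi_of_one hN χ s
    rw [this]
    have := differentiable_completedZeta₀
    fun_prop
  · have : xi χ = completedLFunction χ := by
      funext s; exact xi_of_ne_one hN χ s
    rw [this]
    exact differentiable_completedLFunction (ne_one_of_primitive hχ hN)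

/-- functional equation -/
lemma xi_one_sub {χ : DirichletCharacter ℂ N} (hχ : χ.IsPrimitive) (s : ℂ) :
    xi χ (1 - s) = (N : ℂ) ^ (s - 1 / 2) * rootNumber χ * xi χ⁻¹ s := by
  by_cases hN : N = 1
  · subst hN
    rw [xi_of_one rfl, xi_of_one rfl, completedRiemannZeta₀_one_sub, rootNumber_modOne]
    simp
    ring
  · rw [xi_of_ne_one hN, xi_of_ne_one hN, hχ.completedLFunction_one_sub]

/-- away from the poles -/
lemma completed_eq_mul (χ : DirichletCharacter ℂ N) {s : ℂ} (hs : 0 < s.re) :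
    completedLFunction χ s = LFunction χ s * gammaFactor χ s := by
  have h0 : s ≠ 0 := by rintro rfl; simp at hs
  rw [LFunction_eq_completed_div_gammaFactor χ s (Or.inl h0)]
  have hg : gammaFactor χ s ≠ 0 := by
    rcases χ.even_or_odd with h | h
    · rw [h.gammaFactor_def]; exact Gammaℝ_ne_zero_of_re_pos hs
    · rw [h.gammaFactor_def]; exact Gammaℝ_ne_zero_of_re_pos (by simp; linarith)
  field_simp

omit [NeZero N] in
lemma gammaFactor_ne_zero (χ : DirichletCharacter ℂ N) {s : ℂ} (hs : 0 < s.re) :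
    gammaFactor χ s ≠ 0 := by
  rcases χ.even_or_odd with h | h
  · rw [h.gammaFactor_def]; exact Gammaℝ_ne_zero_of_re_pos hs
  · rw [h.gammaFactor_def]; exact Gammaℝ_ne_zero_of_re_pos (by simp; linarith)

lemma xi_ne_zero_of_one_le_re {χ : DirichletCharacter ℂ N} (hχ : χ.IsPrimitive) {s : ℂ}
    (hs : 1 ≤ s.re) : xi χ s ≠ 0 := by
  by_cases hN : N = 1
  · by_cases h1 : s = 1
    · rw [xi_of_one hN, h1]; simp
    · have h0 : s ≠ 0 := by rintro rfl; simp at hs; linarith
      rw [xi_of_one' hN χ h0 h1, completed_eq_mul χ (by linarith)]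
      exact mul_ne_zero (mul_ne_zero h0 (sub_ne_zero.2 h1))
        (mul_ne_zero (LFunction_ne_zero_of_one_le_re χ (Or.inr h1) hs)
          (gammaFactor_ne_zero χ (by linarith)))
  · rw [xi_of_ne_one hN, completed_eq_mul χ (by linarith)]
    exact mul_ne_zero (LFunction_ne_zero_of_one_le_re χ
      (Or.inl (ne_one_of_primitive hχ hN)) hs) (gammaFactor_ne_zero χ (by linarith))

lemma rootNumber_ne_zero {χ : DirichletCharacter ℂ N} (hχ : χ.IsPrimitive) :
    rootNumber χ ≠ 0 := by
  intro h
  have h1 := xi_one_sub hχ (-1)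
  rw [h, mul_zero, zero_mul] at h1
  exact xi_ne_zero_of_one_le_re hχ (s := 1 - -1) (by norm_num) h1

lemma xi_zero_strip {χ : DirichletCharacter ℂ N} (hχ : χ.IsPrimitive) {ρ : ℂ}
    (h : xi χ ρ = 0) : 0 < ρ.re ∧ ρ.re < 1 := by
  constructor
  · by_contra h0
    push Not at h0
    have h1 := xi_one_sub hχ (1 - ρ)
    rw [sub_sub_cancel, h] at h1
    have hN0 : (N : ℂ) ≠ 0 := by exact_mod_cast (NeZero.ne N)
    have h2 : (N : ℂ) ^ (1 - ρ - 1 / 2) ≠ 0 := by
      rw [Complex.cpow_def_of_ne_zero hN0]; exact exp_ne_zero _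
    have h3 := mul_ne_zero (mul_ne_zero h2 (rootNumber_ne_zero hχ))
      (xi_ne_zero_of_one_le_re (primitive_inv hχ) (s := 1 - ρ) (by simp; exact h0))
    exact h3 h1.symm
  · by_contra h0
    push Not at h0
    exact xi_ne_zero_of_one_le_re hχ h0 h

lemma LFunction_zero_of_xi_zero {χ : DirichletCharacter ℂ N} (hχ : χ.IsPrimitive) {ρ : ℂ}
    (h : xi χ ρ = 0) : LFunction χ ρ = 0 := by
  obtain ⟨h0, h1⟩ := xi_zero_strip hχ h
  have hg := gammaFactor_ne_zero χ h0
  by_cases hN : N = 1
  · have hr0 : ρ ≠ 0 := by rintro rfl; simp at h0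
    have hr1 : ρ ≠ 1 := by rintro rfl; simp at h1
    rw [xi_of_one' hN χ hr0 hr1, completed_eq_mul χ h0] at h
    have := mul_ne_zero hr0 (sub_ne_zero.2 hr1)
    simpa [this, hg] using h
  · rw [xi_of_ne_one hN, completed_eq_mul χ h0] at h
    simpa [hg] using h

/-- the multiplicities at reflected points -/
lemma order_xi_one_sub {χ : DirichletCharacter ℂ N} (hχ : χ.IsPrimitive) (ρ : ℂ) :
    analyticOrderNatAt (xi χ) (1 - ρ) = analyticOrderNatAt (xi χ⁻¹) ρ := by
  have hN0 : (N : ℂ) ≠ 0 := by exact_mod_cast (NeZero.ne N)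
  have hc : Differentiable ℂ (fun s : ℂ => (N : ℂ) ^ (s - 1 / 2) * rootNumber χ) := by
    have : Differentiable ℂ (fun s : ℂ => (N : ℂ) ^ (s - 1 / 2)) := by
      intro s
      exact DifferentiableAt.const_cpow (by fun_prop) (Or.inl hN0)
    exact this.mul_const _
  have hcne : ∀ s : ℂ, (N : ℂ) ^ (s - 1 / 2) * rootNumber χ ≠ 0 := by
    intro s
    refine mul_ne_zero ?_ (rootNumber_ne_zero hχ)
    rw [Complex.cpow_def_of_ne_zero hN0]; exact exp_ne_zero _
  have h1 : (fun s => xi χ (1 - s)) = (fun s : ℂ => (N : ℂ) ^ (s - 1 / 2) * rootNumber χ) *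
      xi χ⁻¹ := by
    funext s
    exact xi_one_sub hχ s
  have h2 : analyticOrderAt (fun s => xi χ (1 - s)) ρ = analyticOrderAt (xi χ⁻¹) ρ := by
    rw [h1, analyticOrderAt_mul (hc.analyticAt ρ)
      ((differentiable_xi (primitive_inv hχ)).analyticAt ρ),
      (hc.analyticAt ρ).analyticOrderAt_eq_zero.2 (hcne ρ), zero_add]
  have h3 : analyticOrderAt (fun s => xi χ (1 - s)) ρ = analyticOrderAt (xi χ) (1 - ρ) := by
    have hg : AnalyticAt ℂ (fun s : ℂ => 1 - s) ρ := by fun_prop
    have hd : deriv (fun s : ℂ => 1 - s) ρ ≠ 0 := by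
      have : HasDerivAt (fun s : ℂ => 1 - s) (-1) ρ := by
        simpa using (hasDerivAt_id ρ).const_sub 1
      rw [this.deriv]; norm_num
    exact analyticOrderAt_comp_of_deriv_ne_zero (f := xi χ) hg hd
  rw [analyticOrderNatAt, ← h3, h2, analyticOrderNatAt]

end Pool.Agent.Osc
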