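import Mathlib
import Pool.Agent.Osc.LFun

/-!
# Growth and logarithmic derivative of the completed L-function
-/

open Complex Filter Topology MeasureTheory Set DirichletCharacter HurwitzZeta

namespace Pool.Agent.Osc

variable {N : ℕ} [NeZero N]

lemma even₀_strip (a : UnitAddCircle) :
    GrowOn {s : ℂ | -1 ≤ s.re ∧ s.re ≤ 2} (completedHurwitzZetaEven₀ a) := by
  obtain ⟨B, hB⟩ := Λ₀_strip_bound (hurwitzEvenFEPair a) (-1) 1
  apply growOn_of_bounded (B / 2)
  rintro s ⟨h1, h2⟩
  have e : completedHurwitzZetaEven₀ a s = ((hurwitzEvenFEPair a).Λ₀ (s / 2)) / 2 := rfl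
  rw [e, norm_div]
  have h3 : (s / 2).re = s.re / 2 := by simp
  have := hB (s / 2) (by rw [h3]; linarith) (by rw [h3]; linarith)
  simp only [Complex.norm_ofNat]
  linarith

lemma odd_strip (a : UnitAddCircle) :
    GrowOn {s : ℂ | -1 ≤ s.re ∧ s.re ≤ 2} (completedHurwitzZetaOdd a) := by
  obtain ⟨B, hB⟩ := Λ₀_strip_bound (hurwitzOddFEPair a) (-1) 2
  apply growOn_of_bounded (B / 2)
  rintro s ⟨h1, h2⟩
  have hst := isStrong_hurwitzOddFEPair a
  have e : completedHurwitzZetaOdd a s = ((hurwitzOddFEPair a).Λ ((s + 1) / 2)) / 2 := rfl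
  have e2 : (hurwitzOddFEPair a).Λ ((s + 1) / 2) = (hurwitzOddFEPair a).Λ₀ ((s + 1) / 2) := by
    rw [WeakFEPair.Λ, hst.hf₀, hst.hg₀]
    simp
  rw [e, e2, norm_div]
  have h3 : ((s + 1) / 2).re = (s.re + 1) / 2 := by simp
  have := hB ((s + 1) / 2) (by rw [h3]; linarith) (by rw [h3]; linarith)
  simp only [Complex.norm_ofNat]
  linarith

lemma GrowOn.sum {S : Set ℂ} {ι : Type*} (t : Finset ι) (f : ι → ℂ → ℂ)
    (h : ∀ i ∈ t, GrowOn S (f i)) : GrowOn S (fun z => ∑ i ∈ t, f i z) := by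
  classical
  induction t using Finset.induction_on with
  | empty => simpa using growOn_const S 0
  | insert a t ha ih =>
    have h1 := h a (Finset.mem_insert_self a t)
    have h2 := ih (fun i hi => h i (Finset.mem_insert_of_mem hi))
    refine (h1.add h2).congr fun z _ => ?_
    rw [Finset.sum_insert ha]

lemma completed₀_strip (Φ : ZMod N → ℂ) :
    GrowOn {s : ℂ | -1 ≤ s.re ∧ s.re ≤ 2} (ZMod.completedLFunction₀ Φ) := by
  have h1 : GrowOn {s : ℂ | -1 ≤ s.re ∧ s.re ≤ 2} (fun s => (N : ℂ) ^ ((-1) * s + 0)) :=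
    growOn_cpow _ N (-1) 0
  have h2 : GrowOn {s : ℂ | -1 ≤ s.re ∧ s.re ≤ 2}
      (fun s => ∑ j : ZMod N, Φ j * completedHurwitzZetaEven₀ (ZMod.toAddCircle j) s) :=
    GrowOn.sum _ _ fun j _ => (growOn_const _ _).mul (even₀_strip _)
  have h3 : GrowOn {s : ℂ | -1 ≤ s.re ∧ s.re ≤ 2}
      (fun s => ∑ j : ZMod N, Φ j * completedHurwitzZetaOdd (ZMod.toAddCircle j) s) :=
    GrowOn.sum _ _ fun j _ => (growOn_const _ _).mul (odd_strip _)
  refine ((h1.mul h2).add (h1.mul h3)).congr fun z _ => ?_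
  rw [ZMod.completedLFunction₀]
  simp

lemma xi_strip {χ : DirichletCharacter ℂ N} (hχ : χ.IsPrimitive) :
    GrowOn {s : ℂ | -1 ≤ s.re ∧ s.re ≤ 2} (xi χ) := by
  by_cases hN : N = 1
  · have h1 : GrowOn {s : ℂ | -1 ≤ s.re ∧ s.re ≤ 2} completedRiemannZeta₀ := even₀_strip 0
    have h2 := (((growOn_id {s : ℂ | -1 ≤ s.re ∧ s.re ≤ 2}).mul
      ((growOn_id {s : ℂ | -1 ≤ s.re ∧ s.re ≤ 2}).add (growOn_const _ (-1)))).mul h1).add
      (growOn_const _ 1)
    refine h2.congr fun z _ => ?_
    rw [xi_of_one hN]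
    ring
  · refine (completed₀_strip (χ : ZMod N → ℂ)).congr fun z _ => ?_
    rw [xi_of_ne_one hN, DirichletCharacter.completedLFunction, ZMod.completedLFunction_eq,
      χ.map_zero' hN, χ.sum_eq_zero_of_ne_one (ne_one_of_primitive hχ hN)]
    simp

lemma LFunction_right (χ : DirichletCharacter ℂ N) :
    GrowOn {s : ℂ | 2 ≤ s.re} (LFunction χ) := by
  apply growOn_of_bounded (∑' n : ℕ, ‖LSeries.term (1 : ℕ → ℂ) 2 n‖)
  intro s hs
  have hs' : 2 ≤ s.re := hs
  rw [LFunction_eq_LSeries χ (by linarith : 1 < s.re), LSeries]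
  have hsum : Summable (fun n : ℕ => ‖LSeries.term (1 : ℕ → ℂ) 2 n‖) := by
    have : LSeriesSummable (1 : ℕ → ℂ) 2 := LSeriesSummable_one_iff.2 (by simp)
    exact this.norm
  have hle : ∀ n, ‖LSeries.term (fun n : ℕ => χ n) s n‖ ≤ ‖LSeries.term (1 : ℕ → ℂ) 2 n‖ := by
    intro n
    have h1 : ‖LSeries.term (fun n : ℕ => χ n) s n‖ ≤ ‖LSeries.term (1 : ℕ → ℂ) s n‖ := by
      apply LSeries.norm_term_le
      simpa using χ.norm_le_one n
    exact h1.trans (LSeries.norm_term_le_of_re_le_re _ (by simpa using hs') n)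
  have hsum2 : Summable (fun n : ℕ => ‖LSeries.term (fun n : ℕ => χ n) s n‖) :=
    Summable.of_nonneg_of_le (fun _ => norm_nonneg _) hle hsum
  exact (norm_tsum_le_tsum_norm hsum2).trans (hsum2.tsum_le_tsum hle hsum)

omit [NeZero N] in
lemma gammaFactor_right (χ : DirichletCharacter ℂ N) :
    GrowOn {s : ℂ | 2 ≤ s.re} (gammaFactor χ) := by
  rcases χ.even_or_odd with h | h
  · exact growOn_Gammaℝ.congr fun z _ => (h.gammaFactor_def z).symm
  · have h1 : GrowOn {s : ℂ | 2 ≤ s.re} (fun z => Gammaℝ (1 * z + 1)) := by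
      apply growOn_Gammaℝ.comp_affine
      intro z hz
      have : 2 ≤ z.re := hz
      simp only [mem_ofPred, one_mul, add_re, one_re]
      linarith
    refine h1.congr fun z _ => ?_
    rw [h.gammaFactor_def, one_mul]

lemma xi_right {χ : DirichletCharacter ℂ N} :
    GrowOn {s : ℂ | 2 ≤ s.re} (xi χ) := by
  have h1 : GrowOn {s : ℂ | 2 ≤ s.re} (completedLFunction χ) := by
    refine ((LFunction_right χ).mul (gammaFactor_right χ)).congr fun z hz => ?_
    have : 2 ≤ z.re := hz
    rw [completed_eq_mul χ (by linarith)]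
  by_cases hN : N = 1
  · have h2 := ((growOn_id {s : ℂ | 2 ≤ s.re}).mul
      ((growOn_id {s : ℂ | 2 ≤ s.re}).add (growOn_const _ (-1)))).mul h1
    refine h2.congr fun z hz => ?_
    have hz' : 2 ≤ z.re := hz
    rw [xi_of_one' hN χ (by rintro rfl; norm_num at hz')
      (by rintro rfl; norm_num at hz')]
    ring
  · exact h1.congr fun z _ => (xi_of_ne_one hN χ z).symm

lemma xi_left {χ : DirichletCharacter ℂ N} (hχ : χ.IsPrimitive) :
    GrowOn {s : ℂ | s.re ≤ -1} (xi χ) := by
  have h1 : GrowOn {s : ℂ | s.re ≤ -1} (fun s => xi χ⁻¹ ((-1) * s + 1)) := by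
    apply (xi_right (χ := χ⁻¹)).comp_affine
    intro z hz
    have : z.re ≤ -1 := hz
    simp only [mem_ofPred, neg_mul, one_mul, add_re, neg_re, one_re]
    linarith
  have h2 : GrowOn {s : ℂ | s.re ≤ -1} (fun s => (N : ℂ) ^ ((-1) * s + (1 / 2))) :=
    growOn_cpow _ N (-1) (1 / 2)
  refine ((h2.mul (growOn_const _ (rootNumber χ))).mul h1).congr fun z _ => ?_
  have h3 := xi_one_sub hχ (1 - z)
  rw [sub_sub_cancel] at h3
  rw [h3]
  congr 2
  · congr 2
    ring
  · ring

lemma xi_growth {χ : DirichletCharacter ℂ N} (hχ : χ.IsPrimitive) : ∃ C, GrowthLE (xi χ) C := by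
  apply growthLE_of_growOn
  refine (((xi_left hχ).union (xi_strip hχ)).union xi_right).mono ?_
  intro z _
  rcases le_total z.re (-1) with h | h
  · exact Or.inl (Or.inl h)
  · rcases le_total z.re 2 with h2 | h2
    · exact Or.inl (Or.inr ⟨h, h2⟩)
    · exact Or.inr h2

open Classical in
/-- parity: `0` for even characters, `1` for odd ones -/
noncomputable def par (χ : DirichletCharacter ℂ N) : ℝ := if χ.Even then 0 else 1

omit [NeZero N] in
lemma gammaFactor_eq (χ : DirichletCharacter ℂ N) :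
    gammaFactor χ = fun s => Gammaℝ (s + par χ) := by
  classical
  funext s
  rcases χ.even_or_odd with h | h
  · rw [h.gammaFactor_def, par, if_pos h]; simp
  · rw [h.gammaFactor_def, par, if_neg h.not_even]; simp

omit [NeZero N] in
lemma par_nonneg (χ : DirichletCharacter ℂ N) : 0 ≤ par χ := by
  classical
  rw [par]; split_ifs <;> norm_num

/-- `-L'/L` in terms of the completed function -/
lemma LSeries_vonMangoldt_twist (χ : DirichletCharacter ℂ N) {s : ℂ}
    (hs : 1 < s.re) :
    LSeries (fun n => χ n * (ArithmeticFunction.vonMangoldt n : ℂ)) s =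
      -logDeriv (xi χ) s + (if N = 1 then 1 / s + 1 / (s - 1) else 0) +
        logDeriv (fun z => Gammaℝ (z + par χ)) s := by
  have hs0 : s ≠ 0 := by rintro rfl; simp at hs; linarith
  have hs1 : s ≠ 1 := by rintro rfl; simp at hs
  have hL0 : LFunction χ s ≠ 0 := LFunction_ne_zero_of_one_le_re χ (Or.inr hs1) hs.le
  have hg0 := gammaFactor_ne_zero χ (s := s) (by linarith)
  have hLd : DifferentiableAt ℂ (LFunction χ) s := differentiableAt_LFunction χ s (Or.inl hs1)
  have hgd : DifferentiableAt ℂ (gammaFactor χ) s := by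
    rw [gammaFactor_eq]
    have h1 : DifferentiableAt ℂ (fun z : ℂ => Gamma ((z + par χ) / 2)) s := by
      have h1 : DifferentiableAt ℂ Gamma ((s + par χ) / 2) := by
        apply Complex.differentiableAt_Gamma
        intro m h
        have h2 := congrArg Complex.re h
        simp at h2
        have : (0 : ℝ) ≤ m := by positivity
        have := par_nonneg χ
        linarith
      exact h1.comp (g := Gamma) (f := fun z : ℂ => (z + par χ) / 2) s (by fun_prop)
    have hpi : (Real.pi : ℂ) ≠ 0 := ofReal_ne_zero.2 Real.pi_ne_zero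
    have e1 : (fun z : ℂ => Gammaℝ (z + par χ)) =
        fun z : ℂ => (Real.pi : ℂ) ^ (-(z + par χ) / 2) * Gamma ((z + par χ) / 2) := by
      funext z
      rw [Gammaℝ_def]
    rw [e1]
    exact (DifferentiableAt.const_cpow (by fun_prop) (Or.inl hpi)).mul h1
  have hLS : LSeries (fun n => χ n * (ArithmeticFunction.vonMangoldt n : ℂ)) s =
      -logDeriv (LFunction χ) s := by
    have h1 := LSeries_twist_vonMangoldt_eq χ hs
    have h2 : LSeries (fun n => χ n * (ArithmeticFunction.vonMangoldt n : ℂ)) s =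
        -deriv (LSeries (fun n : ℕ => χ n)) s / LSeries (fun n : ℕ => χ n) s := h1
    rw [h2, logDeriv_apply, deriv_LFunction_eq_deriv_LSeries χ hs, LFunction_eq_LSeries χ hs]
    ring
  have hcompl : ∀ᶠ z in 𝓝 s, completedLFunction χ z = LFunction χ z * gammaFactor χ z := by
    have : {z : ℂ | 1 < z.re} ∈ 𝓝 s := (isOpen_lt continuous_const continuous_re).mem_nhds hs
    filter_upwards [this] with z hz
    exact completed_eq_mul χ (by linarith [show 1 < z.re from hz])
  rw [hLS, ← gammaFactor_eq]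
  have key : logDeriv (fun z => LFunction χ z * gammaFactor χ z) s =
      logDeriv (LFunction χ) s + logDeriv (gammaFactor χ) s :=
    logDeriv_mul s hL0 hg0 hLd hgd
  by_cases hN : N = 1
  · rw [if_pos hN]
    have hev : xi χ =ᶠ[𝓝 s] fun z => (z * (z - 1)) * (LFunction χ z * gammaFactor χ z) := by
      filter_upwards [hcompl, isOpen_ne.mem_nhds hs0, isOpen_ne.mem_nhds hs1] with z hz h0 h1
      rw [xi_of_one' hN χ h0 h1, hz]
    have e1 : logDeriv (xi χ) s =
        logDeriv (fun z => (z * (z - 1)) * (LFunction χ z * gammaFactor χ z)) s := by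
      rw [logDeriv_apply, logDeriv_apply, hev.deriv_eq, hev.eq_of_nhds]
    have hs1' : s - 1 ≠ 0 := sub_ne_zero.2 hs1
    have e2 : logDeriv (fun z => (z * (z - 1)) * (LFunction χ z * gammaFactor χ z)) s =
        logDeriv (fun z : ℂ => z * (z - 1)) s +
          logDeriv (fun z => LFunction χ z * gammaFactor χ z) s :=
      logDeriv_mul (f := fun z : ℂ => z * (z - 1)) s (mul_ne_zero hs0 hs1') (mul_ne_zero hL0 hg0)
        (by fun_prop) (hLd.mul hgd)
    have e3 : logDeriv (fun z : ℂ => z * (z - 1)) s = 1 / s + 1 / (s - 1) := by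
      rw [logDeriv_mul (f := fun z : ℂ => z) (g := fun z : ℂ => z - 1) s hs0 hs1' (by fun_prop)
        (by fun_prop)]
      simp [logDeriv_apply]
    rw [e1, e2, e3, key]
    ring
  · rw [if_neg hN]
    have hev : xi χ =ᶠ[𝓝 s] fun z => LFunction χ z * gammaFactor χ z := by
      filter_upwards [hcompl] with z hz
      rw [xi_of_ne_one hN, hz]
    have e1 : logDeriv (xi χ) s = logDeriv (fun z => LFunction χ z * gammaFactor χ z) s := by
      rw [logDeriv_apply, logDeriv_apply, hev.deriv_eq, hev.eq_of_nhds]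
    rw [e1, key]
    ring

end Pool.Agent.Osc
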