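import Mathlib
import Pool.Agent.Osc.Basic

/-!
# Bounds for the building blocks of the explicit formula
-/

open Complex Filter Topology MeasureTheory Set

namespace Pool.Agent.Osc

lemma two_sub_ne {ρ : ℂ} (h : ρ.re ≤ 1) : (2 : ℂ) - ρ ≠ 0 := by
  intro h0
  have := congrArg Complex.re h0
  simp at this
  linarith

lemma W_eq {ρ : ℂ} (hρ : ρ ≠ 0) (h2 : ρ.re ≤ 1) (u : ℝ) :
    W ρ u = 1 / ρ * E (ρ - 1 / 2) u - 2 / (ρ * (2 - ρ)) * E0 u := by
  have h3 := two_sub_ne h2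
  have e1 : ∀ t : ℝ, wt t * (E ρ t - 1 / (2 - ρ)) =
      1 / ρ * exp ((ρ - 1 / 2) * t) - 2 / (ρ * (2 - ρ)) * wt t := by
    intro t
    have e2 : exp ((ρ - 1 / 2) * t) = wt t * exp (ρ * t) := by
      rw [wt, Complex.ofReal_exp, ← exp_add]
      congr 1
      push_cast
      ring
    rw [E_eq hρ, e2]
    field_simp
    ring
  rw [W, E, E0]
  simp_rw [e1]
  rw [intervalIntegral.integral_sub (Continuous.intervalIntegrable (by fun_prop) _ _)
    ((continuous_wt.const_mul _).intervalIntegrable _ _),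
    intervalIntegral.integral_const_mul, intervalIntegral.integral_const_mul]

lemma norm_E_le {β : ℂ} {c : ℝ} (hc : 0 < c) (hβ : β.re ≤ c) {u : ℝ} (hu : 0 ≤ u) :
    ‖E β u‖ ≤ Real.exp (c * u) / c := by
  have h1 : ‖E β u‖ ≤ ∫ t in (0 : ℝ)..u, Real.exp (c * t) := by
    refine norm_integral_le_of_bound hu (Continuous.intervalIntegrable (by fun_prop) _ _) ?_
    intro t ht
    rw [Complex.norm_exp]
    apply Real.exp_le_exp.2
    simp only [mul_re, ofReal_re, ofReal_im, mul_zero, sub_zero]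
    exact mul_le_mul_of_nonneg_right hβ ht.1.le
  refine h1.trans ?_
  rw [integral_exp_mul_eq hc.ne' u]
  gcongr
  linarith [Real.exp_pos (c * u)]
where
  integral_exp_mul_eq {c : ℝ} (hc : c ≠ 0) (u : ℝ) :
      ∫ t in (0 : ℝ)..u, Real.exp (c * t) = (Real.exp (c * u) - 1) / c := by
    rw [intervalIntegral.integral_comp_mul_left (f := fun t => Real.exp t) hc]
    simp
    field_simp

lemma integral_exp_mul_eq {c : ℝ} (hc : c ≠ 0) (u : ℝ) :
    ∫ t in (0 : ℝ)..u, Real.exp (c * t) = (Real.exp (c * u) - 1) / c := by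
  rw [intervalIntegral.integral_comp_mul_left (f := fun t => Real.exp t) hc]
  simp
  field_simp

lemma norm_E_le_neg {β : ℂ} {c : ℝ} (hc : 0 < c) (hβ : β.re ≤ -c) {u : ℝ} (hu : 0 ≤ u) :
    ‖E β u‖ ≤ 1 / c := by
  have h1 : ‖E β u‖ ≤ ∫ t in (0 : ℝ)..u, Real.exp (-c * t) := by
    refine norm_integral_le_of_bound hu (Continuous.intervalIntegrable (by fun_prop) _ _) ?_
    intro t ht
    rw [Complex.norm_exp]
    apply Real.exp_le_exp.2
    simp only [mul_re, ofReal_re, ofReal_im, mul_zero, sub_zero]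
    exact mul_le_mul_of_nonneg_right hβ ht.1.le
  refine h1.trans ?_
  rw [integral_exp_mul_eq (by linarith : -c ≠ 0) u]
  have h2 := Real.exp_pos (-c * u)
  have e : (Real.exp (-c * u) - 1) / -c = (1 - Real.exp (-c * u)) / c := by
    rw [div_neg, ← neg_div]
    congr 1
    ring
  rw [e]
  gcongr
  linarith

lemma mul_E (β : ℂ) (u : ℝ) : β * E β u = exp (β * u) - 1 := by
  by_cases h : β = 0
  · simp [h]
  · rw [E_eq h]
    field_simp

/-- the key bound, in the strip -/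
lemma norm_mul_E_le {ρ : ℂ} (h2 : ρ.re ≤ 1) {u : ℝ} (hu : 0 ≤ u) :
    ‖ρ * E (ρ - 1 / 2) u‖ ≤ 3 * Real.exp (1 / 2 * u) := by
  have hre : (ρ - 1 / 2).re ≤ 1 / 2 := by
    simp only [sub_re, one_div]
    norm_num
    linarith
  have e1 : ρ * E (ρ - 1 / 2) u = (exp ((ρ - 1 / 2) * u) - 1) + 1 / 2 * E (ρ - 1 / 2) u := by
    rw [← mul_E]; ring
  have h3 := norm_E_le (c := 1 / 2) (by norm_num) hre hu
  have h4 : ‖exp ((ρ - 1 / 2) * u)‖ ≤ Real.exp (1 / 2 * u) := by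
    rw [Complex.norm_exp]
    apply Real.exp_le_exp.2
    simp only [mul_re, ofReal_re, ofReal_im, mul_zero, sub_zero]
    exact mul_le_mul_of_nonneg_right hre hu
  have h5 : 1 ≤ Real.exp (1 / 2 * u) := Real.one_le_exp (by linarith)
  rw [e1]
  refine (norm_add_le _ _).trans ?_
  have h6 : ‖exp ((ρ - 1 / 2) * u) - 1‖ ≤ Real.exp (1 / 2 * u) + 1 := by
    refine (norm_sub_le _ _).trans ?_
    simp only [norm_one]
    linarith
  have h7 : ‖(1 / 2 : ℂ) * E (ρ - 1 / 2) u‖ ≤ 1 / 2 * (Real.exp (1 / 2 * u) / (1 / 2)) := by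
    rw [norm_mul]
    have : ‖(1 / 2 : ℂ)‖ = 1 / 2 := by simp
    rw [this]
    exact mul_le_mul_of_nonneg_left h3 (by norm_num)
  linarith

lemma norm_zE_le {ρ : ℂ} (h2 : ρ.re ≤ 1) {u : ℝ} (hu : 0 ≤ u) :
    ‖1 / ρ * E (ρ - 1 / 2) u‖ ≤ 3 / ‖ρ‖ ^ 2 * Real.exp (1 / 2 * u) := by
  by_cases hρ : ρ = 0
  · simp [hρ]
  have hn : 0 < ‖ρ‖ := norm_pos_iff.2 hρ
  have e : 1 / ρ * E (ρ - 1 / 2) u = (ρ * E (ρ - 1 / 2) u) / ρ ^ 2 := by
    field_simp
  rw [e, norm_div, norm_pow, div_mul_eq_mul_div]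
  gcongr
  exact norm_mul_E_le h2 hu

/-- the key bound, on the critical line -/
lemma norm_zE_le_half {ρ : ℂ} (h2 : ρ.re = 1 / 2) (u : ℝ) :
    ‖1 / ρ * E (ρ - 1 / 2) u‖ ≤ (|u| + 3) / ‖ρ‖ ^ 2 := by
  have hρ : ρ ≠ 0 := by rintro rfl; norm_num at h2
  have hn : 0 < ‖ρ‖ := norm_pos_iff.2 hρ
  have hre : (ρ - 1 / 2).re = 0 := by
    simp only [sub_re, h2, one_div]
    norm_num
  have hexp : ∀ t : ℝ, ‖exp ((ρ - 1 / 2) * t)‖ = 1 := by
    intro t
    rw [Complex.norm_exp]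
    simp only [mul_re, ofReal_re, ofReal_im, mul_zero, sub_zero, hre, zero_mul, Real.exp_zero]
  have h3 : ‖E (ρ - 1 / 2) u‖ ≤ |u| := by
    have := intervalIntegral.norm_integral_le_of_norm_le_const (a := 0) (b := u) (C := 1)
      (f := fun t : ℝ => exp ((ρ - 1 / 2) * t)) (fun t _ => (hexp t).le)
    simpa [E] using this
  have e : 1 / ρ * E (ρ - 1 / 2) u = (ρ * E (ρ - 1 / 2) u) / ρ ^ 2 := by
    field_simp
  have e1 : ρ * E (ρ - 1 / 2) u = (exp ((ρ - 1 / 2) * u) - 1) + 1 / 2 * E (ρ - 1 / 2) u := by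
    rw [← mul_E]; ring
  rw [e, norm_div, norm_pow]
  gcongr
  rw [e1]
  refine (norm_add_le _ _).trans ?_
  have h6 : ‖exp ((ρ - 1 / 2) * u) - 1‖ ≤ 2 := by
    refine (norm_sub_le _ _).trans ?_
    rw [hexp]
    simp only [norm_one]
    norm_num
  have h7 : ‖(1 / 2 : ℂ) * E (ρ - 1 / 2) u‖ ≤ |u| := by
    rw [norm_mul]
    have : ‖(1 / 2 : ℂ)‖ = 1 / 2 := by simp
    rw [this]
    linarith [norm_nonneg (E (ρ - 1 / 2) u)]
  linarith

lemma norm_le_two_sub {ρ : ℂ} (h2 : ρ.re ≤ 1) : ‖ρ‖ ≤ ‖2 - ρ‖ := by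
  rw [Complex.norm_def, Complex.norm_def]
  apply Real.sqrt_le_sqrt
  rw [normSq_apply, normSq_apply]
  simp only [sub_re, sub_im, re_ofNat, im_ofNat]
  nlinarith

lemma norm_coef_le {ρ : ℂ} (h2 : ρ.re ≤ 1) : ‖2 / (ρ * (2 - ρ))‖ ≤ 2 / ‖ρ‖ ^ 2 := by
  by_cases hρ : ρ = 0
  · simp [hρ]
  have hn : 0 < ‖ρ‖ := norm_pos_iff.2 hρ
  rw [norm_div, norm_mul]
  simp only [Complex.norm_ofNat]
  have := norm_le_two_sub h2
  rw [sq]
  gcongr

lemma norm_W_le {ρ : ℂ} (hρ : ρ ≠ 0) (h2 : ρ.re ≤ 1) {u : ℝ} (hu : 0 ≤ u) :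
    ‖W ρ u‖ ≤ 7 / ‖ρ‖ ^ 2 * Real.exp (3 / 4 * u) := by
  rw [W_eq hρ h2]
  refine (norm_sub_le _ _).trans ?_
  have h3 := norm_zE_le h2 hu
  have h4 : ‖2 / (ρ * (2 - ρ)) * E0 u‖ ≤ 2 / ‖ρ‖ ^ 2 * 2 := by
    rw [norm_mul]
    exact mul_le_mul (norm_coef_le h2) (norm_E0_le hu) (norm_nonneg _) (by positivity)
  have h5 : Real.exp (1 / 2 * u) ≤ Real.exp (3 / 4 * u) := Real.exp_le_exp.2 (by linarith)
  have h6 : 1 ≤ Real.exp (3 / 4 * u) := Real.one_le_exp (by linarith)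
  have h7 : 0 ≤ 1 / ‖ρ‖ ^ 2 := by positivity
  calc ‖1 / ρ * E (ρ - 1 / 2) u‖ + ‖2 / (ρ * (2 - ρ)) * E0 u‖
      ≤ 3 / ‖ρ‖ ^ 2 * Real.exp (1 / 2 * u) + 2 / ‖ρ‖ ^ 2 * 2 := add_le_add h3 h4
    _ = 1 / ‖ρ‖ ^ 2 * (3 * Real.exp (1 / 2 * u) + 4) := by ring
    _ ≤ 1 / ‖ρ‖ ^ 2 * (7 * Real.exp (3 / 4 * u)) := by
        apply mul_le_mul_of_nonneg_left _ h7
        linarith
    _ = _ := by ring

lemma norm_W_le_gen {b : ℂ} (h2 : b.re ≤ 1) {u : ℝ} (hu : 0 ≤ u) :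
    ‖W b u‖ ≤ 4 * Real.exp (3 / 4 * u) := by
  have h1 : ‖W b u‖ ≤ ∫ t in (0 : ℝ)..u, 2 * Real.exp (1 / 2 * t) := by
    refine norm_integral_le_of_bound hu (Continuous.intervalIntegrable (by fun_prop) _ _) ?_
    intro t ht
    rw [norm_mul, norm_wt]
    have h3 := norm_E_le (c := 1) (by norm_num) h2 ht.1.le
    have h4 : ‖(1 : ℂ) / (2 - b)‖ ≤ 1 := by
      rw [norm_div, norm_one]
      apply div_le_one_of_le₀ _ (norm_nonneg _)
      refine le_trans ?_ (Complex.re_le_norm _)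
      simp only [sub_re, re_ofNat]
      linarith
    have h5 : ‖E b t - 1 / (2 - b)‖ ≤ Real.exp t + 1 := by
      refine (norm_sub_le _ _).trans ?_
      rw [one_mul, div_one] at h3
      linarith
    have h6 : Real.exp t = Real.exp (1 / 2 * t) * Real.exp (1 / 2 * t) := by
      rw [← Real.exp_add]; congr 1; ring
    have h7 : Real.exp (-(1 / 2 * t)) * Real.exp (1 / 2 * t) = 1 := by
      rw [← Real.exp_add]; simp
    have h8 : 1 ≤ Real.exp (1 / 2 * t) := Real.one_le_exp (by linarith [ht.1])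
    have h9 := Real.exp_pos (-(1 / 2 * t))
    calc Real.exp (-(1 / 2 * t)) * ‖E b t - 1 / (2 - b)‖
        ≤ Real.exp (-(1 / 2 * t)) * (Real.exp t + 1) := mul_le_mul_of_nonneg_left h5 h9.le
      _ ≤ Real.exp (-(1 / 2 * t)) * (2 * (Real.exp (1 / 2 * t) * Real.exp (1 / 2 * t))) := by
          apply mul_le_mul_of_nonneg_left _ h9.le
          rw [h6]
          nlinarith
      _ = 2 * (Real.exp (-(1 / 2 * t)) * Real.exp (1 / 2 * t)) * Real.exp (1 / 2 * t) := by ring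
      _ = _ := by rw [h7]; ring
  refine h1.trans ?_
  rw [intervalIntegral.integral_const_mul, integral_exp_mul_eq (by norm_num) u]
  have h5 : Real.exp (1 / 2 * u) ≤ Real.exp (3 / 4 * u) := Real.exp_le_exp.2 (by linarith)
  linarith

/-- blocks attached to the trivial zeros -/
lemma norm_W_neg_le {b : ℝ} (hb : 1 ≤ b) {u : ℝ} (hu : 0 ≤ u) :
    ‖W (-(b : ℂ)) u‖ ≤ 5 / b ^ 2 := by
  have hb0 : (0 : ℝ) < b := by linarith
  have hne : (-(b : ℂ)) ≠ 0 := neg_ne_zero.2 (ofReal_ne_zero.2 hb0.ne')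
  have hre : (-(b : ℂ)).re ≤ 1 := by simp; linarith
  rw [W_eq hne hre]
  refine (norm_sub_le _ _).trans ?_
  have hnorm : ‖(-(b : ℂ))‖ = b := by
    rw [norm_neg, Complex.norm_real, Real.norm_eq_abs, abs_of_pos hb0]
  have h4 : ‖2 / (-(b : ℂ) * (2 - -(b : ℂ))) * E0 u‖ ≤ 2 / b ^ 2 * 2 := by
    rw [norm_mul]
    have := norm_coef_le hre
    rw [hnorm] at this
    exact mul_le_mul this (norm_E0_le hu) (norm_nonneg _) (by positivity)
  have h5 : ‖1 / (-(b : ℂ)) * E (-(b : ℂ) - 1 / 2) u‖ ≤ 1 / b * (1 / b) := by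
    rw [norm_mul, norm_div, norm_one, hnorm]
    apply mul_le_mul_of_nonneg_left _ (by positivity)
    apply norm_E_le_neg hb0 _ hu
    simp only [sub_re, neg_re, ofReal_re, one_div]
    norm_num
  calc _ ≤ 1 / b * (1 / b) + 2 / b ^ 2 * 2 := add_le_add h5 h4
    _ = _ := by field_simp; norm_num

end Pool.Agent.Osc
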