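import Mathlib
import Pool.Agent.Osc.Wb
import Pool.Agent.Osc.Fam
import Pool.Agent.Osc.LFun2
import Pool.Agent.Osc.Digam

/-!
# The integrated explicit formula
-/

open Complex Filter Topology MeasureTheory Set DirichletCharacter HurwitzZeta

namespace Pool.Agent.Osc

/-- the integrated weighted sum attached to coefficients `a` -/
noncomputable def J (a : ℕ → ℂ) (u : ℝ) : ℂ := ∑' n : ℕ, a n * phi n u

lemma summable_vM : Summable (fun n : ℕ => ArithmeticFunction.vonMangoldt n *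
    (2 * (n : ℝ) ^ (-(5 / 4) : ℝ))) := by
  have h1 : LSeriesSummable (fun n => (ArithmeticFunction.vonMangoldt n : ℂ)) ((5 / 4 : ℝ) : ℂ) :=
    ArithmeticFunction.LSeriesSummable_vonMangoldt (by norm_num)
  have h2 := h1.norm
  have h3 := h2.mul_left 2
  refine h3.congr fun n => ?_
  rw [LSeries.norm_term_eq]
  by_cases hn : n = 0
  · simp [hn]
  · rw [if_neg hn, Complex.norm_real, Real.norm_eq_abs,
      abs_of_nonneg ArithmeticFunction.vonMangoldt_nonneg, Complex.ofReal_re, Real.rpow_neg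
      (Nat.cast_nonneg n)]
    ring

section J
variable {a : ℕ → ℂ} (ha : ∀ n, ‖a n‖ ≤ ArithmeticFunction.vonMangoldt n)
include ha

lemma J_bound (n : ℕ) (u : ℝ) (hu : 0 ≤ u) : ‖a n * phi n u‖ ≤
    (ArithmeticFunction.vonMangoldt n * (2 * (n : ℝ) ^ (-(5 / 4) : ℝ))) *
      Real.exp (3 / 4 * u) := by
  by_cases hn : n = 0
  · subst hn
    have h0 : a 0 = 0 := by simpa using ha 0
    simp [h0]
  · rw [norm_mul, mul_assoc]
    exact mul_le_mul (ha n) (norm_phi_le (Nat.one_le_iff_ne_zero.2 hn) hu) (norm_nonneg _)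
      ArithmeticFunction.vonMangoldt_nonneg

lemma J_hasLap {w : ℝ} (hw : 3 / 4 < w) :
    HasLap (J a) w (LSeries a ((w + 1 / 2 : ℝ) : ℂ) / ((w + 1 / 2 : ℝ) : ℂ) / w) := by
  have hL : ∀ n, HasLap (fun u => a n * phi n u) w
      (LSeries.term a ((w + 1 / 2 : ℝ) : ℂ) n * (1 / ((w + 1 / 2 : ℝ) : ℂ) / w)) := by
    intro n
    by_cases hn : n = 0
    · have h0 : a n = 0 := by
        have := ha n
        rw [hn] at this ⊢
        simpa using this
      have h1 := ((hasLap_one (w := w) (by linarith)).const_mul 0)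
      rw [hn] at h0 ⊢
      simp only [h0, zero_mul, LSeries.term_zero]
      simpa using h1
    · have h1 := (hasLap_phi (Nat.one_le_iff_ne_zero.2 hn) (w := w) (by linarith)).const_mul (a n)
      rw [LSeries.term_of_ne_zero hn]
      convert! h1 using 1
      ring
  have h2 := fam_hasLap (Set.univ) Set.countable_univ (fun i hi => absurd (Set.mem_univ i) hi)
    (fun n => continuous_const.mul (continuous_phi n)) (J_bound ha) summable_vM hw hL
  have h3 : ∑' n, LSeries.term a ((w + 1 / 2 : ℝ) : ℂ) n * (1 / ((w + 1 / 2 : ℝ) : ℂ) / w) =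
      LSeries a ((w + 1 / 2 : ℝ) : ℂ) / ((w + 1 / 2 : ℝ) : ℂ) / w := by
    rw [tsum_mul_right, LSeries]
    ring
  rw [h3] at h2
  exact h2

lemma J_continuousOn : ContinuousOn (J a) (Ici 0) :=
  fam_continuousOn (fun n => continuous_const.mul (continuous_phi n)) (J_bound ha) summable_vM

lemma J_norm {u : ℝ} (hu : 0 ≤ u) : ‖J a u‖ ≤ (∑' n : ℕ, ArithmeticFunction.vonMangoldt n *
    (2 * (n : ℝ) ^ (-(5 / 4) : ℝ))) * Real.exp (3 / 4 * u) :=
  fam_norm (J_bound ha) summable_vM hu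

end J

variable {N : ℕ} [NeZero N]

lemma xi_two_ne {χ : DirichletCharacter ℂ N} (hχ : χ.IsPrimitive) : xi χ 2 ≠ 0 :=
  xi_ne_zero_of_one_le_re hχ (by simp)

lemma summable_mz {χ : DirichletCharacter ℂ N} (hχ : χ.IsPrimitive) :
    Summable (fun ρ : ℂ => (analyticOrderNatAt (xi χ) ρ : ℝ) / ‖ρ‖ ^ 2) := by
  obtain ⟨C, hC⟩ := xi_growth hχ
  have h1 := summable_zmult (differentiable_xi hχ) (xi_two_ne hχ) hC
  have h2 := h1.mul_left 16
  refine Summable.of_norm_bounded_eventually h2 ?_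
  have hfin := zeros_finite (differentiable_xi hχ) (xi_two_ne hχ) 3
  rw [Filter.eventually_cofinite]
  refine hfin.subset ?_
  intro ρ hρ
  simp only [mem_ofPred, not_le] at hρ ⊢
  have h0 : xi χ ρ = 0 := by
    by_contra h
    have h3 : analyticOrderNatAt (xi χ) ρ = 0 := by
      by_contra h4
      exact h ((zmult_pos_iff (differentiable_xi hχ) (xi_two_ne hχ) ρ).1 h4)
    rw [h3] at hρ
    simp at hρ
  refine ⟨h0, ?_⟩
  by_contra h3
  push Not at h3
  have hd : dist ρ 2 = ‖ρ - 2‖ := dist_eq_norm _ _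
  have hn1 : 1 ≤ ‖ρ‖ := by
    have : ‖ρ - 2‖ ≤ ‖ρ‖ + 2 := by
      refine (norm_sub_le _ _).trans ?_
      simp
    rw [hd] at h3
    linarith
  have hn2 : 1 + dist ρ 2 ≤ 4 * ‖ρ‖ := by
    have : ‖ρ - 2‖ ≤ ‖ρ‖ + 2 := by
      refine (norm_sub_le _ _).trans ?_
      simp
    rw [hd]
    linarith
  have hd0 : 0 ≤ dist ρ 2 := dist_nonneg
  have hm : (0 : ℝ) ≤ (analyticOrderNatAt (xi χ) ρ : ℝ) := by positivity
  rw [Real.norm_eq_abs, abs_of_nonneg (by positivity)] at hρ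
  have h5 : (1 + dist ρ 2) ^ 2 ≤ 16 * ‖ρ‖ ^ 2 := by
    calc (1 + dist ρ 2) ^ 2 ≤ (4 * ‖ρ‖) ^ 2 := by gcongr
      _ = _ := by ring
  have h6 : (analyticOrderNatAt (xi χ) ρ : ℝ) / ‖ρ‖ ^ 2 ≤
      16 * ((analyticOrderNatAt (xi χ) ρ : ℝ) / (1 + dist ρ 2) ^ 2) := by
    rw [div_le_iff₀ (by positivity)]
    rw [mul_assoc, div_mul_eq_mul_div, ← mul_div_assoc, le_div_iff₀ (by positivity)]
    calc (analyticOrderNatAt (xi χ) ρ : ℝ) * (1 + dist ρ 2) ^ 2
        ≤ (analyticOrderNatAt (xi χ) ρ : ℝ) * (16 * ‖ρ‖ ^ 2) := by gcongr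
      _ = _ := by ring
  linarith

lemma mz_eq_zero {χ : DirichletCharacter ℂ N} (hχ : χ.IsPrimitive) {ρ : ℂ}
    (h : ¬ (0 < ρ.re ∧ ρ.re < 1)) : analyticOrderNatAt (xi χ) ρ = 0 := by
  by_contra h1
  exact h (xi_zero_strip hχ ((zmult_pos_iff (differentiable_xi hχ) (xi_two_ne hχ) ρ).1 h1))

lemma zero_bound {χ : DirichletCharacter ℂ N} (hχ : χ.IsPrimitive) (ρ : ℂ) (u : ℝ)
    (hu : 0 ≤ u) : ‖(analyticOrderNatAt (xi χ) ρ : ℂ) * W ρ u‖ ≤
      ((analyticOrderNatAt (xi χ) ρ : ℝ) / ‖ρ‖ ^ 2 * 7) * Real.exp (3 / 4 * u) := by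
  by_cases h : 0 < ρ.re ∧ ρ.re < 1
  · have hρ : ρ ≠ 0 := by rintro rfl; simp at h
    rw [norm_mul, Complex.norm_natCast]
    calc (analyticOrderNatAt (xi χ) ρ : ℝ) * ‖W ρ u‖
        ≤ (analyticOrderNatAt (xi χ) ρ : ℝ) * (7 / ‖ρ‖ ^ 2 * Real.exp (3 / 4 * u)) := by
          apply mul_le_mul_of_nonneg_left (norm_W_le hρ h.2.le hu) (by positivity)
      _ = _ := by ring
  · rw [mz_eq_zero hχ h]
    simp

lemma zero_hasLap {χ : DirichletCharacter ℂ N} (hχ : χ.IsPrimitive) {w : ℝ} (hw : 3 / 4 < w) :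
    HasLap (fun u => ∑' ρ : ℂ, (analyticOrderNatAt (xi χ) ρ : ℂ) * W ρ u) w
      ((logDeriv (xi χ) ((w + 1 / 2 : ℝ) : ℂ) - logDeriv (xi χ) 2) /
        ((w + 1 / 2 : ℝ) : ℂ) / w) := by
  obtain ⟨C, hC⟩ := xi_growth hχ
  have hL : ∀ ρ : ℂ, HasLap (fun u => (analyticOrderNatAt (xi χ) ρ : ℂ) * W ρ u) w
      ((analyticOrderNatAt (xi χ) ρ : ℂ) *
        (1 / (((w + 1 / 2 : ℝ) : ℂ) - ρ) - 1 / (2 - ρ)) * (1 / ((w + 1 / 2 : ℝ) : ℂ) / w)) := by
    intro ρ
    by_cases h : 0 < ρ.re ∧ ρ.re < 1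
    · have h1 := (hasLap_W (b := ρ) (w := w) (by linarith) (by linarith)).const_mul
        (analyticOrderNatAt (xi χ) ρ : ℂ)
      convert! h1 using 1
      ring
    · have h1 := ((hasLap_one (w := w) (by linarith)).const_mul 0)
      rw [mz_eq_zero hχ h]
      simpa using h1
  have hs : 1 ≤ (((w + 1 / 2 : ℝ) : ℂ)).re := by simp; linarith
  have hsum := hasSum_logDeriv (differentiable_xi hχ) hC (xi_ne_zero_of_one_le_re hχ hs)
    (xi_two_ne hχ)
  have hcount : (Function.support (fun ρ : ℂ => (analyticOrderNatAt (xi χ) ρ : ℝ) /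
      ‖ρ‖ ^ 2)).Countable := (summable_mz hχ).countable_support
  have h2 := fam_hasLap _ hcount (F := fun ρ u => (analyticOrderNatAt (xi χ) ρ : ℂ) * W ρ u)
    (by
      intro ρ hρ u
      simp only [Function.mem_support, not_not, div_eq_zero_iff] at hρ
      rcases hρ with h | h
      · have : analyticOrderNatAt (xi χ) ρ = 0 := by exact_mod_cast h
        simp [this]
      · have h3 : ρ = 0 := by simpa using h
        rw [mz_eq_zero hχ (by rw [h3]; simp)]
        simp)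
    (fun ρ => continuous_const.mul (continuous_W ρ)) (zero_bound hχ)
    ((summable_mz hχ).mul_right 7) hw hL
  have h3 : ∑' ρ : ℂ, (analyticOrderNatAt (xi χ) ρ : ℂ) *
        (1 / (((w + 1 / 2 : ℝ) : ℂ) - ρ) - 1 / (2 - ρ)) * (1 / ((w + 1 / 2 : ℝ) : ℂ) / w) =
      (logDeriv (xi χ) ((w + 1 / 2 : ℝ) : ℂ) - logDeriv (xi χ) 2) /
        ((w + 1 / 2 : ℝ) : ℂ) / w := by
    rw [tsum_mul_right, hsum.tsum_eq]
    ring
  rw [h3] at h2
  exact h2

lemma summable_triv : Summable (fun k : ℕ => 5 / (1 + (k : ℝ)) ^ 2) := by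
  have h1 : Summable (fun k : ℕ => 1 / (k : ℝ) ^ 2) := Real.summable_one_div_nat_pow.2 (by norm_num)
  have h2 := ((summable_nat_add_iff 1).2 h1).mul_left 5
  refine h2.congr fun k => ?_
  push_cast
  ring

lemma triv_bound {κ : ℝ} (hκ : κ = 0 ∨ κ = 1) (k : ℕ) (u : ℝ) (hu : 0 ≤ u) :
    ‖W (-((κ + 2 * k : ℝ) : ℂ)) u‖ ≤ 5 / (1 + (k : ℝ)) ^ 2 * Real.exp (3 / 4 * u) := by
  have hexp : 1 ≤ Real.exp (3 / 4 * u) := Real.one_le_exp (by linarith)
  have hκ0 : 0 ≤ κ := by rcases hκ with h | h <;> rw [h]; norm_num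
  by_cases hk : k = 0
  · subst hk
    have h1 : (-((κ + 2 * (0 : ℕ) : ℝ) : ℂ)).re ≤ 1 := by
      simp only [neg_re, ofReal_re, Nat.cast_zero]
      linarith
    refine (norm_W_le_gen h1 hu).trans ?_
    simp only [Nat.cast_zero]
    linarith
  · have hk1 : (1 : ℝ) ≤ k := by exact_mod_cast Nat.one_le_iff_ne_zero.2 hk
    have hb : 1 + (k : ℝ) ≤ κ + 2 * k := by linarith
    refine (norm_W_neg_le (b := κ + 2 * k) (by linarith) hu).trans ?_
    have h2 : 5 / (κ + 2 * (k : ℝ)) ^ 2 ≤ 5 / (1 + (k : ℝ)) ^ 2 := by gcongr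
    refine h2.trans ?_
    have h3 : 0 ≤ 5 / (1 + (k : ℝ)) ^ 2 := by positivity
    nlinarith

lemma triv_hasLap {κ : ℝ} (hκ : κ = 0 ∨ κ = 1) {w : ℝ} (hw : 3 / 4 < w) :
    HasLap (fun u => ∑' k : ℕ, W (-((κ + 2 * k : ℝ) : ℂ)) u) w
      (-((logDeriv (fun z => Gammaℝ (z + κ)) ((w + 1 / 2 : ℝ) : ℂ) -
        logDeriv (fun z => Gammaℝ (z + κ)) 2)) / ((w + 1 / 2 : ℝ) : ℂ) / w) := by
  have hκ0 : 0 ≤ κ := by rcases hκ with h | h <;> rw [h]; norm_num
  have hL : ∀ k : ℕ, HasLap (W (-((κ + 2 * k : ℝ) : ℂ))) w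
      ((1 / ((2 : ℂ) + (κ + 2 * k : ℝ)) - 1 / (((w + 1 / 2 : ℝ) : ℂ) + (κ + 2 * k : ℝ))) *
        (-1 / ((w + 1 / 2 : ℝ) : ℂ) / w)) := by
    intro k
    have hk : (0 : ℝ) ≤ k := by positivity
    have h1 := hasLap_W (b := -((κ + 2 * k : ℝ) : ℂ)) (w := w) (by linarith) (by
      simp only [neg_re, ofReal_re]; linarith)
    convert! h1 using 1
    rw [sub_neg_eq_add, sub_neg_eq_add]
    ring
  have h2 := fam_hasLap (Set.univ) Set.countable_univ (fun i hi => absurd (Set.mem_univ i) hi)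
    (fun k => continuous_W _) (triv_bound hκ) summable_triv hw hL
  have hsum := hasSum_gammaFactor (s := w + 1 / 2) (by linarith) κ hκ0
  rw [tsum_mul_right, hsum.tsum_eq] at h2
  convert! h2 using 1
  ring

/-- the pole contribution -/
noncomputable def dlt (N : ℕ) : ℂ := if N = 1 then 1 else 0

omit [NeZero N] in
lemma par_eq (χ : DirichletCharacter ℂ N) : par χ = 0 ∨ par χ = 1 := by
  classical
  rw [par]
  split_ifs
  · exact Or.inl rfl
  · exact Or.inr rfl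

/-- The integrated explicit formula, raw form. -/
theorem ief_raw {χ : DirichletCharacter ℂ N} (hχ : χ.IsPrimitive) {u : ℝ} (hu : 0 ≤ u) :
    J (fun n => χ n * (ArithmeticFunction.vonMangoldt n : ℂ)) u =
      LSeries (fun n => χ n * (ArithmeticFunction.vonMangoldt n : ℂ)) 2 * E0 u -
      (∑' ρ : ℂ, (analyticOrderNatAt (xi χ) ρ : ℂ) * W ρ u) + dlt N * (W 0 u + W 1 u) -
      ∑' k : ℕ, W (-((par χ + 2 * k : ℝ) : ℂ)) u := by
  set a : ℕ → ℂ := fun n => χ n * (ArithmeticFunction.vonMangoldt n : ℂ) with ha_def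
  have ha : ∀ n, ‖a n‖ ≤ ArithmeticFunction.vonMangoldt n := by
    intro n
    rw [ha_def]
    simp only
    rw [norm_mul, Complex.norm_real, Real.norm_eq_abs,
      abs_of_nonneg ArithmeticFunction.vonMangoldt_nonneg]
    exact mul_le_of_le_one_left ArithmeticFunction.vonMangoldt_nonneg (χ.norm_le_one n)
  set K := LSeries a 2 with hK
  set D : ℝ → ℂ := fun u => J a u - K * E0 u +
    (∑' ρ : ℂ, (analyticOrderNatAt (xi χ) ρ : ℂ) * W ρ u) - dlt N * (W 0 u + W 1 u) +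
    ∑' k : ℕ, W (-((par χ + 2 * k : ℝ) : ℂ)) u with hD
  have hp := par_eq χ
  -- continuity
  have hcont : ContinuousOn D (Ici 0) := by
    have c1 := J_continuousOn ha
    have c2 : ContinuousOn (fun u => ∑' ρ : ℂ, (analyticOrderNatAt (xi χ) ρ : ℂ) * W ρ u)
        (Ici 0) := fam_continuousOn (fun ρ => continuous_const.mul (continuous_W ρ))
      (zero_bound hχ) ((summable_mz hχ).mul_right 7)
    have c3 : ContinuousOn (fun u => ∑' k : ℕ, W (-((par χ + 2 * k : ℝ) : ℂ)) u) (Ici 0) :=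
      fam_continuousOn (fun k => continuous_W _) (triv_bound hp) summable_triv
    have c4 : ContinuousOn (fun u => K * E0 u) (Ici 0) :=
      (continuous_const.mul continuous_E0).continuousOn
    have c5 : ContinuousOn (fun u => dlt N * (W 0 u + W 1 u)) (Ici 0) :=
      (continuous_const.mul ((continuous_W 0).add (continuous_W 1))).continuousOn
    exact (((c1.sub c4).add c2).sub c5).add c3
  -- bound
  obtain ⟨B, hB⟩ : ∃ B, ∀ u, 0 ≤ u → ‖D u‖ ≤ B * Real.exp (3 / 4 * u) := by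
    refine ⟨(∑' n : ℕ, ArithmeticFunction.vonMangoldt n * (2 * (n : ℝ) ^ (-(5 / 4) : ℝ))) +
      ‖K‖ * 2 + (∑' ρ : ℂ, (analyticOrderNatAt (xi χ) ρ : ℝ) / ‖ρ‖ ^ 2 * 7) +
      ‖dlt N‖ * 8 + ∑' k : ℕ, 5 / (1 + (k : ℝ)) ^ 2, ?_⟩
    intro u hu
    have b1 := J_norm ha hu
    have b2 := fam_norm (zero_bound hχ) ((summable_mz hχ).mul_right 7) hu
    have b3 := fam_norm (triv_bound hp) summable_triv hu
    have hexp : 1 ≤ Real.exp (3 / 4 * u) := Real.one_le_exp (by linarith)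
    have b4 : ‖K * E0 u‖ ≤ ‖K‖ * 2 * Real.exp (3 / 4 * u) := by
      rw [norm_mul]
      have := norm_E0_le hu
      calc ‖K‖ * ‖E0 u‖ ≤ ‖K‖ * 2 := by gcongr
        _ ≤ ‖K‖ * 2 * Real.exp (3 / 4 * u) := le_mul_of_one_le_right (by positivity) hexp
    have b5 : ‖dlt N * (W 0 u + W 1 u)‖ ≤ ‖dlt N‖ * 8 * Real.exp (3 / 4 * u) := by
      rw [norm_mul]
      have h1 := norm_W_le_gen (b := 0) (by simp) hu
      have h2 := norm_W_le_gen (b := 1) (by simp) hu
      calc ‖dlt N‖ * ‖W 0 u + W 1 u‖ ≤ ‖dlt N‖ * (8 * Real.exp (3 / 4 * u)) := by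
            gcongr
            refine (norm_add_le _ _).trans ?_
            linarith
        _ = _ := by ring
    rw [hD]
    simp only
    refine (norm_add_le _ _).trans ?_
    have h1 := norm_sub_le (J a u - K * E0 u +
      (∑' ρ : ℂ, (analyticOrderNatAt (xi χ) ρ : ℂ) * W ρ u)) (dlt N * (W 0 u + W 1 u))
    have h2 := norm_add_le (J a u - K * E0 u)
      (∑' ρ : ℂ, (analyticOrderNatAt (xi χ) ρ : ℂ) * W ρ u)
    have h3 := norm_sub_le (J a u) (K * E0 u)
    simp only [add_mul]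
    linarith
  -- Laplace transforms
  have hlap : ∀ n : ℕ, HasLap D (1 + n) 0 := by
    intro n
    have hn : (0 : ℝ) ≤ n := by positivity
    have hw : (3 : ℝ) / 4 < 1 + n := by linarith
    have hw0 : (0 : ℝ) < 1 + n := by linarith
    set w : ℝ := 1 + n with hwdef
    have l1 := J_hasLap ha hw
    have l2 := (hasLap_E0 hw0).const_mul K
    have l3 := zero_hasLap hχ hw
    have l4 := ((hasLap_W (b := 0) hw0 (by simp; linarith)).add
      (hasLap_W (b := 1) hw0 (by simp; linarith))).const_mul (dlt N)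
    have l5 := triv_hasLap hp hw
    have l6 := (((l1.sub l2).add l3).sub l4).add l5
    convert! l6 using 1
    have hs1 : (1 : ℝ) < w + 1 / 2 := by linarith
    have t1 := LSeries_vonMangoldt_twist χ (s := ((w + 1 / 2 : ℝ) : ℂ)) (by
      rw [ofReal_re]; exact hs1)
    have t2 := LSeries_vonMangoldt_twist χ (s := 2) (by simp)
    rw [hK]
    rw [ha_def]
    rw [t1, t2]
    have hs0 : ((w + 1 / 2 : ℝ) : ℂ) ≠ 0 := ofReal_ne_zero.2 (by linarith)
    have hwc : (w : ℂ) ≠ 0 := ofReal_ne_zero.2 (by linarith)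
    generalize ((w + 1 / 2 : ℝ) : ℂ) = s at *
    rw [dlt]
    by_cases hN : N = 1
    · simp only [hN, if_true]
      rw [sub_zero]
      have e1 : (2 : ℂ) - 1 = 1 := by norm_num
      rw [e1]
      ring
    · simp only [hN, if_false]
      ring
  have hfin := lerch_complex hcont hB (by norm_num : (3 / 4 : ℝ) < 1) hlap u hu
  have : D u = 0 := hfin
  rw [hD] at this
  simp only at this
  linear_combination this

end Pool.Agent.Osc
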