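import Mathlib
import Pool.Agent.Osc.IEF

/-!
# The explicit formula, with Lipschitz remainder
-/

open Complex Filter Topology MeasureTheory Set DirichletCharacter HurwitzZeta

namespace Pool.Agent.Osc

/-- Lipschitz on a half line -/
def LipFrom (T : ℝ) (f : ℝ → ℂ) : Prop :=
  ∃ L : ℝ, 0 ≤ L ∧ ∀ u v, T ≤ u → T ≤ v → ‖f v - f u‖ ≤ L * |v - u|

lemma LipFrom.add {T : ℝ} {f g : ℝ → ℂ} (hf : LipFrom T f) (hg : LipFrom T g) :
    LipFrom T (fun u => f u + g u) := by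
  obtain ⟨L, hL, h1⟩ := hf
  obtain ⟨M, hM, h2⟩ := hg
  refine ⟨L + M, by positivity, fun u v hu hv => ?_⟩
  have e : f v + g v - (f u + g u) = (f v - f u) + (g v - g u) := by ring
  rw [e, add_mul]
  exact (norm_add_le _ _).trans (add_le_add (h1 u v hu hv) (h2 u v hu hv))

lemma LipFrom.const_mul {T : ℝ} {f : ℝ → ℂ} (c : ℂ) (hf : LipFrom T f) :
    LipFrom T (fun u => c * f u) := by
  obtain ⟨L, hL, h1⟩ := hf
  refine ⟨‖c‖ * L, by positivity, fun u v hu hv => ?_⟩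
  rw [← mul_sub, norm_mul, mul_assoc]
  exact mul_le_mul_of_nonneg_left (h1 u v hu hv) (norm_nonneg _)

lemma LipFrom.neg {T : ℝ} {f : ℝ → ℂ} (hf : LipFrom T f) : LipFrom T (fun u => - f u) := by
  simpa using hf.const_mul (-1)

lemma LipFrom.sub {T : ℝ} {f g : ℝ → ℂ} (hf : LipFrom T f) (hg : LipFrom T g) :
    LipFrom T (fun u => f u - g u) := by
  simpa [sub_eq_add_neg] using hf.add hg.neg

lemma LipFrom.sum {T : ℝ} {ι : Type*} (t : Finset ι) (f : ι → ℝ → ℂ)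
    (h : ∀ i ∈ t, LipFrom T (f i)) : LipFrom T (fun u => ∑ i ∈ t, f i u) := by
  classical
  induction t using Finset.induction_on with
  | empty => exact ⟨0, le_rfl, fun u v _ _ => by simp⟩
  | insert a t ha ih =>
    have h1 := h a (Finset.mem_insert_self a t)
    have h2 := ih (fun i hi => h i (Finset.mem_insert_of_mem hi))
    simp only [Finset.sum_insert ha]
    exact h1.add h2

lemma LipFrom.mono {S T : ℝ} {f : ℝ → ℂ} (hf : LipFrom S f) (h : S ≤ T) : LipFrom T f := by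
  obtain ⟨L, hL, h1⟩ := hf
  exact ⟨L, hL, fun u v hu hv => h1 u v (h.trans hu) (h.trans hv)⟩

lemma LipFrom.congr {T : ℝ} {f g : ℝ → ℂ} (hf : LipFrom T f) (h : ∀ u, T ≤ u → f u = g u) :
    LipFrom T g := by
  obtain ⟨L, hL, h1⟩ := hf
  refine ⟨L, hL, fun u v hu hv => ?_⟩
  rw [← h u hu, ← h v hv]
  exact h1 u v hu hv

lemma lipFrom_integral {T L : ℝ} {F : ℝ → ℂ} (hF : Continuous F) (hL : 0 ≤ L)
    (h : ∀ t, T ≤ t → ‖F t‖ ≤ L) : LipFrom T (fun u => ∫ t in (0 : ℝ)..u, F t) := by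
  refine ⟨L, hL, fun u v hu hv => ?_⟩
  have e : (∫ t in (0 : ℝ)..v, F t) - (∫ t in (0 : ℝ)..u, F t) = ∫ t in u..v, F t :=
    intervalIntegral.integral_interval_sub_left (hF.intervalIntegrable _ _)
      (hF.intervalIntegrable _ _)
  rw [e]
  apply intervalIntegral.norm_integral_le_of_norm_le_const
  intro t ht
  apply h
  have : min u v < t := ht.1
  exact le_trans (le_min hu hv) this.le

lemma lip_E0 : LipFrom 0 E0 :=
  lipFrom_integral continuous_wt zero_le_one fun _ ht => norm_wt_le_one ht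

lemma lip_W0 : LipFrom 0 (W 0) := by
  have h := continuous_wt
  have h2 := continuous_E 0
  refine lipFrom_integral (L := 2) (F := fun t => wt t * (E 0 t - 1 / (2 - 0)))
    (by fun_prop) (by norm_num) ?_
  intro t ht
  rw [norm_mul, norm_wt, E_zero]
  have h3 : ‖(t : ℂ) - 1 / (2 - 0)‖ ≤ t + 1 / 2 := by
    refine (norm_sub_le _ _).trans ?_
    rw [Complex.norm_real, Real.norm_eq_abs, abs_of_nonneg ht]
    simp
  have h4 : 1 + 1 / 2 * t ≤ Real.exp (1 / 2 * t) := by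
    have := Real.add_one_le_exp (1 / 2 * t)
    linarith
  have h7 : Real.exp (-(1 / 2 * t)) * Real.exp (1 / 2 * t) = 1 := by
    rw [← Real.exp_add]; simp
  have h9 := Real.exp_pos (-(1 / 2 * t))
  calc Real.exp (-(1 / 2 * t)) * ‖(t : ℂ) - 1 / (2 - 0)‖
      ≤ Real.exp (-(1 / 2 * t)) * (2 * Real.exp (1 / 2 * t)) := by
        apply mul_le_mul_of_nonneg_left _ h9.le
        linarith
    _ = 2 * (Real.exp (-(1 / 2 * t)) * Real.exp (1 / 2 * t)) := by ring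
    _ = 2 := by rw [h7]; ring

variable {N : ℕ} [NeZero N]

/-- the sum over the zeros -/
noncomputable def Zs (χ : DirichletCharacter ℂ N) (u : ℝ) : ℂ :=
  ∑' ρ : ℂ, (analyticOrderNatAt (xi χ) ρ : ℂ) * (1 / ρ * E (ρ - 1 / 2) u)

/-- the sum over the trivial zeros -/
noncomputable def Ps (κ : ℝ) (u : ℝ) : ℂ :=
  ∑' k : ℕ, 1 / ((κ + 2 * k : ℝ) : ℂ) * E (-((κ + 2 * k : ℝ) : ℂ) - 1 / 2) u

lemma summable_Zs {χ : DirichletCharacter ℂ N} (hχ : χ.IsPrimitive) {u : ℝ} (hu : 0 ≤ u) :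
    Summable (fun ρ : ℂ => (analyticOrderNatAt (xi χ) ρ : ℂ) * (1 / ρ * E (ρ - 1 / 2) u)) := by
  refine Summable.of_norm_bounded
    ((summable_mz hχ).mul_right (3 * Real.exp (1 / 2 * u))) fun ρ => ?_
  by_cases h : 0 < ρ.re ∧ ρ.re < 1
  · rw [norm_mul, Complex.norm_natCast]
    calc (analyticOrderNatAt (xi χ) ρ : ℝ) * ‖1 / ρ * E (ρ - 1 / 2) u‖
        ≤ (analyticOrderNatAt (xi χ) ρ : ℝ) * (3 / ‖ρ‖ ^ 2 * Real.exp (1 / 2 * u)) := by
          apply mul_le_mul_of_nonneg_left (norm_zE_le h.2.le hu) (by positivity)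
      _ = _ := by ring
  · rw [mz_eq_zero hχ h]
    simp

lemma summable_coef {χ : DirichletCharacter ℂ N} (hχ : χ.IsPrimitive) :
    Summable (fun ρ : ℂ => (analyticOrderNatAt (xi χ) ρ : ℂ) * (2 / (ρ * (2 - ρ)))) := by
  refine Summable.of_norm_bounded ((summable_mz hχ).mul_right 2) fun ρ => ?_
  by_cases h : 0 < ρ.re ∧ ρ.re < 1
  · rw [norm_mul, Complex.norm_natCast]
    calc (analyticOrderNatAt (xi χ) ρ : ℝ) * ‖2 / (ρ * (2 - ρ))‖
        ≤ (analyticOrderNatAt (xi χ) ρ : ℝ) * (2 / ‖ρ‖ ^ 2) := by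
          apply mul_le_mul_of_nonneg_left (norm_coef_le h.2.le) (by positivity)
      _ = _ := by ring
  · rw [mz_eq_zero hχ h]
    simp

lemma zero_sum_split {χ : DirichletCharacter ℂ N} (hχ : χ.IsPrimitive) {u : ℝ} (hu : 0 ≤ u) :
    ∑' ρ : ℂ, (analyticOrderNatAt (xi χ) ρ : ℂ) * W ρ u =
      Zs χ u - (∑' ρ : ℂ, (analyticOrderNatAt (xi χ) ρ : ℂ) * (2 / (ρ * (2 - ρ)))) * E0 u := by
  rw [Zs, ← tsum_mul_right, ← (summable_Zs hχ hu).tsum_sub ((summable_coef hχ).mul_right _)]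
  refine tsum_congr fun ρ => ?_
  by_cases h : 0 < ρ.re ∧ ρ.re < 1
  · have hρ : ρ ≠ 0 := by rintro rfl; simp at h
    rw [W_eq hρ h.2.le]
    ring
  · rw [mz_eq_zero hχ h]
    simp

lemma norm_triv_term_le {κ : ℝ} (hκ : κ = 0 ∨ κ = 1) (k : ℕ) {u : ℝ} (hu : 0 ≤ u) :
    ‖1 / ((κ + 2 * k : ℝ) : ℂ) * E (-((κ + 2 * k : ℝ) : ℂ) - 1 / 2) u‖ ≤
      5 / (1 + (k : ℝ)) ^ 2 := by
  have hκ0 : 0 ≤ κ := by rcases hκ with h | h <;> rw [h]; norm_num
  have hk0 : (0 : ℝ) ≤ k := by positivity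
  by_cases hb : κ + 2 * (k : ℝ) = 0
  · rw [hb]
    simp
    positivity
  · have hb1 : 1 ≤ κ + 2 * (k : ℝ) ∧ (1 + (k : ℝ)) / 2 ≤ κ + 2 * (k : ℝ) := by
      by_cases hk : k = 0
      · subst hk
        simp only [Nat.cast_zero, mul_zero, add_zero] at hb ⊢
        rcases hκ with h | h
        · exact absurd h hb
        · rw [h]; norm_num
      · have hk1 : (1 : ℝ) ≤ k := by exact_mod_cast Nat.one_le_iff_ne_zero.2 hk
        constructor <;> linarith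
    have hb0 : 0 < κ + 2 * (k : ℝ) := by linarith [hb1.1]
    rw [norm_mul, norm_div, norm_one, Complex.norm_real, Real.norm_eq_abs, abs_of_pos hb0]
    have h5 : ‖E (-((κ + 2 * k : ℝ) : ℂ) - 1 / 2) u‖ ≤ 1 / (κ + 2 * (k : ℝ)) := by
      apply norm_E_le_neg hb0 _ hu
      have e : ((1 : ℂ) / 2).re = 1 / 2 := by norm_num
      rw [sub_re, neg_re, ofReal_re, e]
      linarith
    calc 1 / (κ + 2 * (k : ℝ)) * ‖E (-((κ + 2 * k : ℝ) : ℂ) - 1 / 2) u‖
        ≤ 1 / (κ + 2 * (k : ℝ)) * (1 / (κ + 2 * (k : ℝ))) :=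
          mul_le_mul_of_nonneg_left h5 (by positivity)
      _ = 1 / (κ + 2 * (k : ℝ)) ^ 2 := by field_simp
      _ ≤ 1 / ((1 + (k : ℝ)) / 2) ^ 2 := by
          apply one_div_le_one_div_of_le (by positivity)
          exact pow_le_pow_left₀ (by positivity) hb1.2 2
      _ = 4 / (1 + (k : ℝ)) ^ 2 := by field_simp; norm_num
      _ ≤ _ := by gcongr; norm_num

lemma summable_Ps {κ : ℝ} (hκ : κ = 0 ∨ κ = 1) {u : ℝ} (hu : 0 ≤ u) :
    Summable (fun k : ℕ =>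
      1 / ((κ + 2 * k : ℝ) : ℂ) * E (-((κ + 2 * k : ℝ) : ℂ) - 1 / 2) u) :=
  Summable.of_norm_bounded summable_triv fun k => norm_triv_term_le hκ k hu

lemma summable_triv_coef {κ : ℝ} (hκ : κ = 0 ∨ κ = 1) :
    Summable (fun k : ℕ => 2 / (((κ + 2 * k : ℝ) : ℂ) * (2 + ((κ + 2 * k : ℝ) : ℂ)))) := by
  have hκ0 : 0 ≤ κ := by rcases hκ with h | h <;> rw [h]; norm_num
  refine Summable.of_norm_bounded (summable_triv.mul_left 2) fun k => ?_
  have hk0 : (0 : ℝ) ≤ k := by positivity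
  have e : (2 : ℂ) / (((κ + 2 * k : ℝ) : ℂ) * (2 + ((κ + 2 * k : ℝ) : ℂ))) =
      ((2 / ((κ + 2 * k) * (2 + (κ + 2 * k))) : ℝ) : ℂ) := by
    push_cast
    ring
  rw [e, Complex.norm_real, Real.norm_eq_abs, abs_of_nonneg (by positivity)]
  by_cases hb : κ + 2 * (k : ℝ) = 0
  · rw [hb]
    simp
    positivity
  · have hb1 : (1 + (k : ℝ)) / 2 ≤ κ + 2 * (k : ℝ) := by
      by_cases hk : k = 0
      · subst hk
        simp only [Nat.cast_zero, mul_zero, add_zero] at hb ⊢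
        rcases hκ with h | h
        · exact absurd h hb
        · rw [h]; norm_num
      · have hk1 : (1 : ℝ) ≤ k := by exact_mod_cast Nat.one_le_iff_ne_zero.2 hk
        linarith
    calc 2 / ((κ + 2 * (k : ℝ)) * (2 + (κ + 2 * k)))
        ≤ 2 / (((1 + (k : ℝ)) / 2) * ((1 + (k : ℝ)) / 2)) := by
          gcongr
          linarith
      _ = 8 / (1 + (k : ℝ)) ^ 2 := by field_simp; norm_num
      _ ≤ 2 * (5 / (1 + (k : ℝ)) ^ 2) := by
          rw [← mul_div_assoc]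
          gcongr
          norm_num

lemma W_neg_eq {b : ℝ} (hb : 0 ≤ b) (u : ℝ) :
    W (-(b : ℂ)) u = -(1 / (b : ℂ) * E (-(b : ℂ) - 1 / 2) u) +
      2 / ((b : ℂ) * (2 + b)) * E0 u + (if b = 0 then W 0 u else 0) := by
  by_cases h : b = 0
  · simp [h]
  · have hb0 : 0 < b := lt_of_le_of_ne hb (Ne.symm h)
    have hne : (-(b : ℂ)) ≠ 0 := neg_ne_zero.2 (ofReal_ne_zero.2 hb0.ne')
    have hre : (-(b : ℂ)).re ≤ 1 := by simp; linarith
    rw [W_eq hne hre, if_neg h, sub_neg_eq_add]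
    have hb' : (b : ℂ) ≠ 0 := ofReal_ne_zero.2 hb0.ne'
    have hb2 : (2 : ℂ) + b ≠ 0 := by
      intro h0
      have := congrArg Complex.re h0
      simp at this
      linarith
    field_simp
    ring

lemma triv_sum_split {κ : ℝ} (hκ : κ = 0 ∨ κ = 1) {u : ℝ} (hu : 0 ≤ u) :
    ∑' k : ℕ, W (-((κ + 2 * k : ℝ) : ℂ)) u = -Ps κ u +
      (∑' k : ℕ, 2 / (((κ + 2 * k : ℝ) : ℂ) * (2 + ((κ + 2 * k : ℝ) : ℂ)))) * E0 u +
      (if κ = 0 then 1 else 0) * W 0 u := by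
  have hκ0 : 0 ≤ κ := by rcases hκ with h | h <;> rw [h]; norm_num
  have h1 := (summable_Ps hκ hu).hasSum
  have h2 := (summable_triv_coef hκ).hasSum.mul_right (E0 u)
  have h3 : HasSum (fun k : ℕ => if κ + 2 * (k : ℝ) = 0 then W 0 u else 0)
      ((if κ = 0 then 1 else 0) * W 0 u) := by
    have h4 := hasSum_single (f := fun k : ℕ => if κ + 2 * (k : ℝ) = 0 then W 0 u else 0) 0 (by
      intro k hk
      have hk1 : (1 : ℝ) ≤ k := by exact_mod_cast Nat.one_le_iff_ne_zero.2 hk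
      rw [if_neg]
      intro h
      linarith)
    convert! h4 using 1
    simp only [Nat.cast_zero, mul_zero, add_zero]
    split_ifs <;> simp
  have h5 := (h1.neg.add h2).add h3
  have h6 : (fun k : ℕ => W (-((κ + 2 * k : ℝ) : ℂ)) u) = fun k : ℕ =>
      -(1 / ((κ + 2 * k : ℝ) : ℂ) * E (-((κ + 2 * k : ℝ) : ℂ) - 1 / 2) u) +
      2 / (((κ + 2 * k : ℝ) : ℂ) * (2 + ((κ + 2 * k : ℝ) : ℂ))) * E0 u +
      (if κ + 2 * (k : ℝ) = 0 then W 0 u else 0) := by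
    funext k
    have hk0 : (0 : ℝ) ≤ k := by positivity
    exact W_neg_eq (by linarith) u
  rw [h6, h5.tsum_eq, Ps]

lemma W_one (u : ℝ) : W 1 u = E (1 / 2) u - 2 * E0 u := by
  rw [W_eq one_ne_zero (by simp)]
  norm_num

/-- The integrated explicit formula for a primitive character. -/
theorem ief {χ : DirichletCharacter ℂ N} (hχ : χ.IsPrimitive) :
    ∃ r : ℝ → ℂ, LipFrom 0 r ∧ r 0 = 0 ∧ ∀ u, 0 ≤ u →
      J (fun n => χ n * (ArithmeticFunction.vonMangoldt n : ℂ)) u =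
        -Zs χ u + Ps (par χ) u + dlt N * E (1 / 2) u + r u := by
  have hp := par_eq χ
  set C0 : ℂ := LSeries (fun n => χ n * (ArithmeticFunction.vonMangoldt n : ℂ)) 2 with hC0
  set C1 : ℂ := ∑' ρ : ℂ, (analyticOrderNatAt (xi χ) ρ : ℂ) * (2 / (ρ * (2 - ρ))) with hC1
  set C2 : ℂ := ∑' k : ℕ, 2 / (((par χ + 2 * k : ℝ) : ℂ) * (2 + ((par χ + 2 * k : ℝ) : ℂ)))
    with hC2
  refine ⟨fun u => (C0 + C1 - 2 * dlt N - C2) * E0 u +
    (dlt N - (if par χ = 0 then 1 else 0)) * W 0 u, (lip_E0.const_mul _).add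
    (lip_W0.const_mul _), by simp [E0, W], fun u hu => ?_⟩
  rw [ief_raw hχ hu, zero_sum_split hχ hu, triv_sum_split hp hu, W_one]
  ring

end Pool.Agent.Osc
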