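import Mathlib
import Pool.Agent.Osc.Ief2

/-!
# Recurrence and reflection for sums over zeros on the critical line
-/

open Complex Filter Topology MeasureTheory Set

namespace Pool.Agent.Osc

lemma norm_exp_I (x : ℝ) : ‖exp (I * x)‖ = 1 := by
  rw [Complex.norm_exp]; simp

/-- simultaneous almost periods -/
lemma exists_almost_period {ι : Type*} (S : Finset ι) (γ : ι → ℝ) {ε : ℝ} (hε : 0 < ε) (T : ℝ) :
    ∃ t : ℝ, T ≤ t ∧ ∀ i ∈ S, ‖exp (I * (γ i * t : ℝ)) - 1‖ ≤ ε := by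
  classical
  set T' : ℝ := max T 1 with hT'
  have hT1 : T ≤ T' := le_max_left _ _
  have hT0 : 0 < T' := lt_of_lt_of_le one_pos (le_max_right _ _)
  set x : ℕ → (S → ℂ) := fun k i => exp (I * (γ i * (k * T') : ℝ)) with hx
  have hb : ∀ k, x k ∈ Metric.closedBall (0 : S → ℂ) 1 := by
    intro k
    rw [mem_closedBall_zero_iff, pi_norm_le_iff_of_nonneg zero_le_one]
    intro i
    exact (norm_exp_I _).le
  obtain ⟨a, -, φ, hφ, hlim⟩ := (isCompact_closedBall (0 : S → ℂ) 1).tendsto_subseq hb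
  have hc := hlim.cauchySeq
  rw [Metric.cauchySeq_iff] at hc
  obtain ⟨n, hn⟩ := hc ε hε
  have h1 := hn (n + 1) (by simp) n le_rfl
  have h2 : φ n < φ (n + 1) := hφ (Nat.lt_succ_self n)
  refine ⟨((φ (n + 1) : ℝ) - φ n) * T', ?_, ?_⟩
  · have h3 : (1 : ℝ) ≤ (φ (n + 1) : ℝ) - φ n := by
      have : (φ n : ℝ) + 1 ≤ φ (n + 1) := by exact_mod_cast h2
      linarith
    nlinarith
  · intro i hi
    have h4 : dist (x (φ (n + 1)) ⟨i, hi⟩) (x (φ n) ⟨i, hi⟩) ≤ ε :=
      (dist_le_pi_dist (x (φ (n + 1))) (x (φ n)) ⟨i, hi⟩).trans h1.le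
    rw [dist_eq_norm] at h4
    have h5 : x (φ (n + 1)) ⟨i, hi⟩ - x (φ n) ⟨i, hi⟩ = x (φ n) ⟨i, hi⟩ *
        (exp (I * (γ i * (((φ (n + 1) : ℝ) - φ n) * T') : ℝ)) - 1) := by
      rw [mul_sub, mul_one, hx]
      simp only
      rw [← exp_add]
      congr 2
      push_cast
      ring
    rw [h5, norm_mul] at h4
    have h6 : ‖x (φ n) ⟨i, hi⟩‖ = 1 := norm_exp_I _
    rw [h6, one_mul] at h4
    exact h4

/-- bounds for absolutely convergent almost periodic sums propagate to the whole line -/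
lemma recurrence {ι : Type*} {c : ι → ℂ} (hc : Summable (fun i => ‖c i‖)) (γ : ι → ℝ)
    {u₀ C : ℝ} (h : ∀ u, u₀ ≤ u → (∑' i, c i * exp (I * (γ i * u : ℝ))).re ≤ C) (u : ℝ) :
    (∑' i, c i * exp (I * (γ i * u : ℝ))).re ≤ C := by
  classical
  apply le_of_forall_pos_le_add
  intro ε hε
  set B := ∑' i, ‖c i‖ with hB
  have hB0 : 0 ≤ B := tsum_nonneg fun i => norm_nonneg _
  -- finite set
  obtain ⟨S, hS⟩ : ∃ S : Finset ι, B - ∑ i ∈ S, ‖c i‖ < ε / 4 := by
    have h1 := hc.hasSum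
    have h2 : ∀ᶠ S in (atTop : Filter (Finset ι)), B - ε / 4 < ∑ i ∈ S, ‖c i‖ :=
      h1.eventually (lt_mem_nhds (by linarith))
    obtain ⟨S, hS⟩ := h2.exists
    exact ⟨S, by linarith⟩
  obtain ⟨t, ht1, ht2⟩ := exists_almost_period S γ (ε := ε / (2 * (B + 1))) (by positivity)
    (u₀ - u)
  have h3 := h (u + t) (by linarith)
  have hsum : ∀ v : ℝ, Summable (fun i => c i * exp (I * (γ i * v : ℝ))) := by
    intro v
    refine Summable.of_norm_bounded hc fun i => ?_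
    rw [norm_mul, norm_exp_I, mul_one]
  have h4 : ‖(∑' i, c i * exp (I * (γ i * (u + t) : ℝ))) - ∑' i, c i * exp (I * (γ i * u : ℝ))‖
      ≤ ε := by
    rw [← (hsum (u + t)).tsum_sub (hsum u)]
    have hind : Summable (fun i => if i ∈ S then ‖c i‖ else 0) :=
      summable_of_ne_finset_zero (s := S) (fun i hi => by simp [hi])
    have hbd : Summable (fun i => ‖c i‖ * (ε / (2 * (B + 1))) +
        2 * (‖c i‖ - if i ∈ S then ‖c i‖ else 0)) :=
      (hc.mul_right _).add ((hc.sub hind).mul_left 2)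
    have hval : ∑' i, (‖c i‖ * (ε / (2 * (B + 1))) +
        2 * (‖c i‖ - if i ∈ S then ‖c i‖ else 0)) =
        B * (ε / (2 * (B + 1))) + 2 * (B - ∑ i ∈ S, ‖c i‖) := by
      rw [(hc.mul_right _).tsum_add ((hc.sub hind).mul_left 2), tsum_mul_right, tsum_mul_left,
        hc.tsum_sub hind]
      congr 3
      rw [tsum_eq_sum (s := S) (fun i hi => by simp [hi])]
      exact Finset.sum_congr rfl fun i hi => by simp [hi]
    have h5 : ∀ i, ‖c i * exp (I * (γ i * (u + t) : ℝ)) - c i * exp (I * (γ i * u : ℝ))‖ ≤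
        ‖c i‖ * (ε / (2 * (B + 1))) + 2 * (‖c i‖ - if i ∈ S then ‖c i‖ else 0) := by
      intro i
      have e1 : c i * exp (I * (γ i * (u + t) : ℝ)) - c i * exp (I * (γ i * u : ℝ)) =
          c i * exp (I * (γ i * u : ℝ)) * (exp (I * (γ i * t : ℝ)) - 1) := by
        rw [mul_sub, mul_one, mul_assoc, ← exp_add]
        congr 3
        push_cast
        ring
      rw [e1, norm_mul, norm_mul, norm_exp_I, mul_one]
      by_cases hi : i ∈ S
      · rw [if_pos hi, sub_self, mul_zero, add_zero]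
        exact mul_le_mul_of_nonneg_left (ht2 i hi) (norm_nonneg _)
      · rw [if_neg hi, sub_zero]
        have h6 : ‖exp (I * (γ i * t : ℝ)) - 1‖ ≤ 2 := by
          refine (norm_sub_le _ _).trans ?_
          rw [norm_exp_I, norm_one]
          norm_num
        have h7 : 0 ≤ ‖c i‖ * (ε / (2 * (B + 1))) := by positivity
        nlinarith [norm_nonneg (c i)]
    have h8 := tsum_of_norm_bounded hbd.hasSum h5
    rw [hval] at h8
    refine h8.trans ?_
    have h9 : B * (ε / (2 * (B + 1))) ≤ ε / 2 := by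
      rw [mul_div_assoc', div_le_div_iff₀ (by positivity) (by norm_num)]
      nlinarith
    linarith
  have h5 := (Complex.abs_re_le_norm _).trans h4
  rw [Complex.sub_re] at h5
  have h6 := (abs_le.1 h5).1
  linarith

/-- the sum over zeros attached to a weight -/
noncomputable def AM (M : ℂ → ℂ) (u : ℝ) : ℂ := -∑' ρ : ℂ, M ρ * (1 / ρ * E (ρ - 1 / 2) u)

section
variable {M : ℂ → ℂ} (hM : Summable (fun ρ : ℂ => ‖M ρ‖ / ‖ρ‖ ^ 2))
  (hre : ∀ ρ, M ρ ≠ 0 → ρ.re = 1 / 2)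
include hM hre

omit hM in
lemma norm_AM_term_le (u : ℝ) (ρ : ℂ) :
    ‖M ρ * (1 / ρ * E (ρ - 1 / 2) u)‖ ≤ ‖M ρ‖ / ‖ρ‖ ^ 2 * (|u| + 3) := by
  by_cases h : M ρ = 0
  · simp [h]
  · rw [norm_mul]
    calc ‖M ρ‖ * ‖1 / ρ * E (ρ - 1 / 2) u‖ ≤ ‖M ρ‖ * ((|u| + 3) / ‖ρ‖ ^ 2) :=
          mul_le_mul_of_nonneg_left (norm_zE_le_half (hre ρ h) u) (norm_nonneg _)
      _ = _ := by ring

lemma summable_AM (u : ℝ) : Summable (fun ρ : ℂ => M ρ * (1 / ρ * E (ρ - 1 / 2) u)) :=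
  Summable.of_norm_bounded (hM.mul_right (|u| + 3)) (norm_AM_term_le hre u)

lemma norm_AM_le (u : ℝ) : ‖AM M u‖ ≤ (∑' ρ : ℂ, ‖M ρ‖ / ‖ρ‖ ^ 2) * (|u| + 3) := by
  rw [AM, norm_neg, ← tsum_mul_right]
  exact tsum_of_norm_bounded (hM.mul_right (|u| + 3)).hasSum (norm_AM_term_le hre u)

omit hM hre in
lemma E_add (β : ℂ) (u h : ℝ) : E β (u + h) - E β u = exp (β * u) * E β h := by
  by_cases hβ : β = 0
  · subst hβ
    rw [E_zero, E_zero, E_zero]
    push_cast
    simp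
  · rw [E_eq hβ, E_eq hβ, E_eq hβ]
    have : exp (β * ((u + h : ℝ) : ℂ)) = exp (β * u) * exp (β * h) := by
      rw [← exp_add]; congr 1; push_cast; ring
    rw [this]
    field_simp
    ring

omit hM hre in
lemma E_neg (β : ℂ) (u : ℝ) : E β (-u) = -E (-β) u := by
  by_cases hβ : β = 0
  · subst hβ
    rw [neg_zero, E_zero, E_zero]
    push_cast
    ring
  · rw [E_eq hβ, E_eq (neg_ne_zero.2 hβ)]
    have : β * ((-u : ℝ) : ℂ) = -β * u := by push_cast; ring
    rw [this]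
    field_simp

lemma AM_increment (u h : ℝ) : AM M (u + h) - AM M u =
    ∑' ρ : ℂ, (-(M ρ * (1 / ρ * E (ρ - 1 / 2) h))) * exp (I * (ρ.im * u : ℝ)) := by
  have e0 : AM M (u + h) - AM M u = -((∑' ρ : ℂ, M ρ * (1 / ρ * E (ρ - 1 / 2) (u + h))) -
      ∑' ρ : ℂ, M ρ * (1 / ρ * E (ρ - 1 / 2) u)) := by
    rw [AM, AM]; ring
  rw [e0, ← (summable_AM hM hre (u + h)).tsum_sub (summable_AM hM hre u), ← tsum_neg]
  refine tsum_congr fun ρ => ?_
  by_cases h0 : M ρ = 0
  · simp [h0]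
  · have h1 := hre ρ h0
    have h2 : ρ - 1 / 2 = I * (ρ.im : ℂ) := by
      apply Complex.ext
      · simp [h1]
      · simp
    have h3 : exp (I * (ρ.im * u : ℝ)) = exp ((ρ - 1 / 2) * u) := by
      rw [h2]; congr 1; push_cast; ring
    rw [h3, ← mul_sub, ← mul_sub, E_add]
    ring

/-- one-sided bounds on increments propagate to the whole line -/
lemma AM_rec {u₀ C : ℝ}
    (h : ∀ u, u₀ ≤ u → ∀ h, 0 ≤ h → (AM M (u + h) - AM M u).re ≤ C * h) :
    ∀ u h, 0 ≤ h → (AM M (u + h) - AM M u).re ≤ C * h := by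
  intro u y hy
  rw [AM_increment hM hre]
  refine recurrence (c := fun ρ => -(M ρ * (1 / ρ * E (ρ - 1 / 2) y))) ?_ (fun ρ => ρ.im)
    (u₀ := u₀) (C := C * y) ?_ u
  · exact (summable_AM hM hre y).norm.congr fun ρ => by rw [norm_neg]
  · intro v hv
    rw [← AM_increment hM hre]
    exact h v hv y hy

omit hre in
lemma summable_refl : Summable (fun ρ : ℂ => ‖M (1 - ρ)‖ / ‖1 - ρ‖ ^ 2) := by
  have h := (Equiv.subLeft (1 : ℂ)).summable_iff.2 hM
  exact h

omit hM in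
lemma re_refl : ∀ ρ, M (1 - ρ) ≠ 0 → ρ.re = 1 / 2 := by
  intro ρ h
  have := hre _ h
  simp only [sub_re, one_re] at this
  linarith

omit hM in
lemma norm_refl (ρ : ℂ) (h : M (1 - ρ) ≠ 0) : ‖1 - ρ‖ = ‖ρ‖ := by
  have h1 := re_refl hre ρ h
  rw [Complex.norm_def, Complex.norm_def, normSq_apply, normSq_apply]
  simp only [sub_re, sub_im, one_re, one_im, h1]
  congr 1
  ring

lemma summable_refl' : Summable (fun ρ : ℂ => ‖M (1 - ρ)‖ / ‖ρ‖ ^ 2) := by
  refine (summable_refl hM).congr fun ρ => ?_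
  by_cases h : M (1 - ρ) = 0
  · simp [h]
  · rw [norm_refl hre ρ h]

/-- reflection -/
lemma AM_reflect : ∃ L : ℝ, 0 ≤ L ∧ ∀ u v,
    ‖(AM (fun ρ => M (1 - ρ)) v - AM M (-v)) - (AM (fun ρ => M (1 - ρ)) u - AM M (-u))‖
      ≤ L * |v - u| := by
  have hs := summable_refl' hM hre
  have hr := re_refl hre
  refine ⟨∑' ρ : ℂ, ‖M (1 - ρ)‖ / ‖ρ‖ ^ 2, tsum_nonneg fun ρ => by positivity, ?_⟩
  have e1 : ∀ v, AM (fun ρ => M (1 - ρ)) v - AM M (-v) =
      -∑' ρ : ℂ, M (1 - ρ) * ((1 / ρ + 1 / (1 - ρ)) * E (ρ - 1 / 2) v) := by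
    intro v
    have e2 : AM M (-v) = ∑' ρ : ℂ, M (1 - ρ) * (1 / (1 - ρ) * E (ρ - 1 / 2) v) := by
      rw [AM, ← (Equiv.subLeft (1 : ℂ)).tsum_eq, ← tsum_neg]
      refine tsum_congr fun ρ => ?_
      simp only [Equiv.subLeft_apply]
      rw [E_neg]
      have : -(1 - ρ - 1 / 2) = ρ - 1 / 2 := by ring
      rw [this]
      ring
    have s1 := summable_AM hs hr v
    have s2 : Summable (fun ρ : ℂ => M (1 - ρ) * (1 / (1 - ρ) * E (ρ - 1 / 2) v)) := by
      have := (Equiv.subLeft (1 : ℂ)).summable_iff.2 (summable_AM hM hre (-v)).neg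
      refine this.congr fun ρ => ?_
      simp only [Function.comp, Equiv.subLeft_apply]
      rw [E_neg]
      have : -(1 - ρ - 1 / 2) = ρ - 1 / 2 := by ring
      rw [this]
      ring
    rw [e2, AM, ← neg_add', ← s1.tsum_add s2]
    congr 1
    refine tsum_congr fun ρ => ?_
    ring
  have hterm : ∀ v u : ℝ, ∀ ρ : ℂ, ‖M (1 - ρ) * ((1 / ρ + 1 / (1 - ρ)) * E (ρ - 1 / 2) v) -
      M (1 - ρ) * ((1 / ρ + 1 / (1 - ρ)) * E (ρ - 1 / 2) u)‖ ≤
      ‖M (1 - ρ)‖ / ‖ρ‖ ^ 2 * |v - u| := by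
    intro v u ρ
    by_cases h : M (1 - ρ) = 0
    · simp [h]
    · have h1 := hr ρ h
      have hρ : ρ ≠ 0 := by rintro rfl; norm_num at h1
      have hρ1 : 1 - ρ ≠ 0 := by
        intro h0
        have := congrArg Complex.re h0
        simp only [sub_re, one_re, zero_re] at this
        linarith
      have e3 : 1 / ρ + 1 / (1 - ρ) = 1 / (ρ * (1 - ρ)) := by field_simp; ring
      rw [← mul_sub, ← mul_sub, norm_mul, norm_mul, e3, norm_div, norm_one, norm_mul,
        norm_refl hre ρ h]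
      have h4 : ‖E (ρ - 1 / 2) v - E (ρ - 1 / 2) u‖ ≤ |v - u| := by
        have hexp : ∀ t : ℝ, ‖exp ((ρ - 1 / 2) * t)‖ = 1 := by
          intro t
          rw [Complex.norm_exp]
          have hre0 : (ρ - 1 / 2).re = 0 := by
            simp only [sub_re, h1, one_div]
            norm_num
          simp only [mul_re, ofReal_re, ofReal_im, mul_zero, sub_zero, hre0, zero_mul,
            Real.exp_zero]
        have e4 : E (ρ - 1 / 2) v - E (ρ - 1 / 2) u = ∫ t in u..v, exp ((ρ - 1 / 2) * t) :=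
          intervalIntegral.integral_interval_sub_left
            (Continuous.intervalIntegrable (by fun_prop) _ _)
            (Continuous.intervalIntegrable (by fun_prop) _ _)
        rw [e4]
        have := intervalIntegral.norm_integral_le_of_norm_le_const (a := u) (b := v) (C := 1)
          (f := fun t : ℝ => exp ((ρ - 1 / 2) * t)) (fun t _ => (hexp t).le)
        simpa using this
      calc ‖M (1 - ρ)‖ * (1 / (‖ρ‖ * ‖ρ‖) * ‖E (ρ - 1 / 2) v - E (ρ - 1 / 2) u‖)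
          ≤ ‖M (1 - ρ)‖ * (1 / (‖ρ‖ * ‖ρ‖) * |v - u|) := by gcongr
        _ = _ := by ring
  have hsumm : ∀ v : ℝ, Summable (fun ρ : ℂ =>
      M (1 - ρ) * ((1 / ρ + 1 / (1 - ρ)) * E (ρ - 1 / 2) v)) := by
    intro v
    have h0 := hterm v 0
    refine Summable.of_norm_bounded (hs.mul_right |v - 0|) fun ρ => ?_
    have := h0 ρ
    simpa [E] using this
  intro u v
  rw [e1, e1, neg_sub_neg, ← (hsumm u).tsum_sub (hsumm v), ← tsum_mul_right, abs_sub_comm]
  exact tsum_of_norm_bounded (hs.mul_right |u - v|).hasSum (hterm u v)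

/-- increments bounded above turn into increments bounded below for the reflected weight -/
lemma AM_refl_bound {C : ℝ} (h : ∀ u h, 0 ≤ h → (AM M (u + h) - AM M u).re ≤ C * h) :
    ∃ C' : ℝ, ∀ u h, 0 ≤ h → -(C' * h) ≤
      (AM (fun ρ => M (1 - ρ)) (u + h) - AM (fun ρ => M (1 - ρ)) u).re := by
  obtain ⟨L, hL, h1⟩ := AM_reflect hM hre
  refine ⟨C + L, fun u y hy => ?_⟩
  have h2 := h (-u - y) y hy
  have h3 := h1 u (u + y)
  have h4 := (Complex.abs_re_le_norm _).trans h3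
  rw [add_sub_cancel_left, abs_of_nonneg hy] at h4
  have e1 : -u - y + y = -u := by ring
  have e2 : -(u + y) = -u - y := by ring
  rw [e1] at h2
  rw [e2] at h4
  simp only [Complex.sub_re] at h2 h4 ⊢
  have h5 := (abs_le.1 h4).1
  linarith

end

end Pool.Agent.Osc
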