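import Mathlib
import Pool.Agent.Osc.Recur

/-!
# The contribution of the trivial zeros
-/

open Complex Filter Topology MeasureTheory Set

namespace Pool.Agent.Osc

lemma lip_tsum {T : ℝ} {f : ℕ → ℝ → ℂ} {L : ℕ → ℝ} (hL : Summable L)
    (h : ∀ k u v, T ≤ u → T ≤ v → ‖f k v - f k u‖ ≤ L k * |v - u|)
    (hs : ∀ u, T ≤ u → Summable (fun k => f k u)) : LipFrom T (fun u => ∑' k, f k u) := by
  have hL0 : ∀ k, 0 ≤ L k := by
    intro k
    have h1 := (norm_nonneg _).trans (h k T (T + 1) le_rfl (by linarith))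
    simpa using h1
  refine ⟨∑' k, L k, tsum_nonneg hL0, fun u v hu hv => ?_⟩
  rw [← (hs v hv).tsum_sub (hs u hu), ← tsum_mul_right]
  exact tsum_of_norm_bounded (hL.mul_right _).hasSum fun k => h k u v hu hv

lemma lip_integral_const {T L : ℝ} {F : ℝ → ℂ} (hF : Continuous F)
    (h : ∀ t, T ≤ t → ‖F t‖ ≤ L) (u v : ℝ) (hu : T ≤ u) (hv : T ≤ v) :
    ‖(∫ t in (0 : ℝ)..v, F t) - (∫ t in (0 : ℝ)..u, F t)‖ ≤ L * |v - u| := by
  have e : (∫ t in (0 : ℝ)..v, F t) - (∫ t in (0 : ℝ)..u, F t) = ∫ t in u..v, F t :=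
    intervalIntegral.integral_interval_sub_left (hF.intervalIntegrable _ _)
      (hF.intervalIntegrable _ _)
  rw [e]
  apply intervalIntegral.norm_integral_le_of_norm_le_const
  intro t ht
  apply h
  have : min u v < t := ht.1
  exact le_trans (le_min hu hv) this.le

lemma mul_exp_neg_le {b t : ℝ} (hb : 0 < b) : t * Real.exp (-(b * t)) ≤ 1 / b := by
  have h1 : b * t + 1 ≤ Real.exp (b * t) := Real.add_one_le_exp _
  have h2 : Real.exp (-(b * t)) * Real.exp (b * t) = 1 := by rw [← Real.exp_add]; simp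
  have h3 := Real.exp_pos (-(b * t))
  rw [le_div_iff₀ hb]
  have h4 : b * t ≤ Real.exp (b * t) := by linarith
  calc t * Real.exp (-(b * t)) * b = Real.exp (-(b * t)) * (b * t) := by ring
    _ ≤ Real.exp (-(b * t)) * Real.exp (b * t) := mul_le_mul_of_nonneg_left h4 h3.le
    _ = 1 := h2

lemma exp_neg_le_inv {b : ℝ} (hb : 0 < b) : Real.exp (-b) ≤ 1 / b := by
  have := mul_exp_neg_le (t := 1) hb
  simpa using this

lemma triv_term_eq (b : ℝ) (u : ℝ) : 1 / (b : ℂ) * E (-(b : ℂ) - 1 / 2) u =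
    ∫ t in (0 : ℝ)..u, ((1 / b * Real.exp (-(b * t)) * Real.exp (-(1 / 2 * t)) : ℝ) : ℂ) := by
  rw [E, ← intervalIntegral.integral_const_mul]
  congr 1
  funext t
  rw [mul_assoc (1 / b), ← Real.exp_add]
  push_cast
  congr 2
  ring

lemma index_cases {κ : ℝ} (hκ : κ = 0 ∨ κ = 1) (k : ℕ) : κ + 2 * (k : ℝ) = 0 ∨
    (1 ≤ κ + 2 * (k : ℝ) ∧ (1 + (k : ℝ)) / 2 ≤ κ + 2 * (k : ℝ)) := by
  have hκ0 : 0 ≤ κ := by rcases hκ with h | h <;> rw [h]; norm_num
  by_cases hk : k = 0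
  · subst hk
    simp only [Nat.cast_zero, mul_zero, add_zero]
    rcases hκ with h | h
    · exact Or.inl h
    · right; rw [h]; norm_num
  · have hk1 : (1 : ℝ) ≤ k := by exact_mod_cast Nat.one_le_iff_ne_zero.2 hk
    right
    constructor <;> linarith

lemma sq_inv_le {b : ℝ} {k : ℕ} (hb : (1 + (k : ℝ)) / 2 ≤ b) :
    1 / b ^ 2 ≤ 5 / (1 + (k : ℝ)) ^ 2 := by
  have hk0 : (0 : ℝ) ≤ k := by positivity
  calc 1 / b ^ 2 ≤ 1 / ((1 + (k : ℝ)) / 2) ^ 2 := by
        apply one_div_le_one_div_of_le (by positivity)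
        exact pow_le_pow_left₀ (by positivity) hb 2
    _ = 4 / (1 + (k : ℝ)) ^ 2 := by field_simp; norm_num
    _ ≤ _ := by gcongr; norm_num

lemma lip_Ps {κ : ℝ} (hκ : κ = 0 ∨ κ = 1) : LipFrom 1 (Ps κ) := by
  refine lip_tsum summable_triv ?_ (fun u hu => summable_Ps hκ (by linarith))
  intro k u v hu hv
  rw [triv_term_eq, triv_term_eq]
  refine lip_integral_const (by fun_prop) (T := 1) ?_ u v hu hv
  intro t ht
  rw [Complex.norm_real, Real.norm_eq_abs]
  rcases index_cases hκ k with h | ⟨h, h'⟩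
  · rw [h]
    simp
    positivity
  · have hb0 : 0 < κ + 2 * (k : ℝ) := by linarith
    rw [abs_of_nonneg (by positivity)]
    have h1 : Real.exp (-((κ + 2 * (k : ℝ)) * t)) ≤ 1 / (κ + 2 * (k : ℝ)) := by
      refine le_trans ?_ (exp_neg_le_inv hb0)
      apply Real.exp_le_exp.2
      nlinarith
    have h2 : Real.exp (-(1 / 2 * t)) ≤ 1 := Real.exp_le_one_iff.2 (by linarith)
    calc 1 / (κ + 2 * (k : ℝ)) * Real.exp (-((κ + 2 * (k : ℝ)) * t)) * Real.exp (-(1 / 2 * t))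
        ≤ 1 / (κ + 2 * (k : ℝ)) * (1 / (κ + 2 * (k : ℝ))) * 1 := by gcongr
      _ = 1 / (κ + 2 * (k : ℝ)) ^ 2 := by field_simp
      _ ≤ _ := sq_inv_le h'

lemma summable_Ps_shift {u : ℝ} (hu : 0 ≤ u) : Summable (fun k : ℕ =>
    1 / (((2 * k + 2 : ℝ)) : ℂ) * E (-((2 * k + 2 : ℝ) : ℂ) - 1 / 2) u) := by
  have h := (summable_nat_add_iff 1).2 (summable_Ps (κ := 0) (Or.inl rfl) hu)
  refine h.congr fun k => ?_
  have : (0 : ℝ) + 2 * ((k + 1 : ℕ) : ℝ) = 2 * k + 2 := by push_cast; ring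
  rw [this]

lemma Ps_zero_shift {u : ℝ} (hu : 0 ≤ u) : Ps 0 u = ∑' k : ℕ,
    1 / (((2 * k + 2 : ℝ)) : ℂ) * E (-((2 * k + 2 : ℝ) : ℂ) - 1 / 2) u := by
  rw [Ps, (summable_Ps (κ := 0) (Or.inl rfl) hu).tsum_eq_zero_add]
  simp only [Nat.cast_zero, mul_zero, add_zero, ofReal_zero, div_zero, zero_mul, zero_add]
  refine tsum_congr fun k => ?_
  have : 2 * ((k + 1 : ℕ) : ℝ) = 2 * k + 2 := by push_cast; ring
  rw [this]

lemma lip_Ps_diff : LipFrom 0 (fun u => Ps 1 u - Ps 0 u) := by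
  have key : LipFrom 0 (fun u => ∑' k : ℕ,
      (1 / ((1 + 2 * k : ℝ) : ℂ) * E (-((1 + 2 * k : ℝ) : ℂ) - 1 / 2) u -
       1 / (((2 * k + 2 : ℝ)) : ℂ) * E (-((2 * k + 2 : ℝ) : ℂ) - 1 / 2) u)) := by
    refine lip_tsum (summable_triv.mul_left 2) ?_ (fun u hu =>
      (summable_Ps (Or.inr rfl) hu).sub (summable_Ps_shift hu))
    intro k u v hu hv
    have hk0 : (0 : ℝ) ≤ k := by positivity
    have e : ∀ x, 1 / ((1 + 2 * k : ℝ) : ℂ) * E (-((1 + 2 * k : ℝ) : ℂ) - 1 / 2) x -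
       1 / (((2 * k + 2 : ℝ)) : ℂ) * E (-((2 * k + 2 : ℝ) : ℂ) - 1 / 2) x =
       ∫ t in (0 : ℝ)..x, ((1 / (1 + 2 * k) * Real.exp (-((1 + 2 * k) * t)) *
        Real.exp (-(1 / 2 * t)) - 1 / (2 * k + 2) * Real.exp (-((2 * k + 2) * t)) *
        Real.exp (-(1 / 2 * t)) : ℝ) : ℂ) := by
      intro x
      rw [triv_term_eq, triv_term_eq, ← intervalIntegral.integral_sub
        (Continuous.intervalIntegrable (by fun_prop) _ _)
        (Continuous.intervalIntegrable (by fun_prop) _ _)]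
      congr 1
      funext t
      push_cast
      ring
    rw [e, e]
    refine lip_integral_const (by fun_prop) (T := 0) ?_ u v hu hv
    intro t ht
    rw [Complex.norm_real, Real.norm_eq_abs]
    set b : ℝ := 1 + 2 * k with hb
    have hb1 : 1 ≤ b := by linarith
    have hb0 : 0 < b := by linarith
    have e2 : (2 * (k : ℝ) + 2) = b + 1 := by rw [hb]; ring
    rw [e2]
    have h1 : Real.exp (-((b + 1) * t)) = Real.exp (-(b * t)) * Real.exp (-t) := by
      rw [← Real.exp_add]; congr 1; ring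
    rw [h1]
    have h2 : Real.exp (-(1 / 2 * t)) ≤ 1 := Real.exp_le_one_iff.2 (by linarith)
    have h2' := Real.exp_pos (-(1 / 2 * t))
    have h3 : Real.exp (-t) ≤ 1 := Real.exp_le_one_iff.2 (by linarith)
    have h4 : 1 - t ≤ Real.exp (-t) := by
      have := Real.add_one_le_exp (-t)
      linarith
    have h5 : Real.exp (-(b * t)) ≤ 1 := Real.exp_le_one_iff.2 (by nlinarith)
    have h5' := Real.exp_pos (-(b * t))
    have h6 := mul_exp_neg_le (t := t) hb0
    have h7 : 1 / (b + 1) ≤ 1 / b := one_div_le_one_div_of_le hb0 (by linarith)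
    have h7' : 0 < 1 / (b + 1) := by positivity
    have e3 : 1 / b * Real.exp (-(b * t)) * Real.exp (-(1 / 2 * t)) -
        1 / (b + 1) * (Real.exp (-(b * t)) * Real.exp (-t)) * Real.exp (-(1 / 2 * t)) =
        ((1 / b - 1 / (b + 1)) * Real.exp (-(b * t)) +
        1 / (b + 1) * (Real.exp (-(b * t)) * (1 - Real.exp (-t)))) *
        Real.exp (-(1 / 2 * t)) := by ring
    rw [e3]
    have h8 : 0 ≤ (1 / b - 1 / (b + 1)) * Real.exp (-(b * t)) +
        1 / (b + 1) * (Real.exp (-(b * t)) * (1 - Real.exp (-t))) := by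
      have : 0 ≤ 1 / b - 1 / (b + 1) := by linarith
      have : 0 ≤ 1 - Real.exp (-t) := by linarith
      positivity
    rw [abs_of_nonneg (mul_nonneg h8 h2'.le)]
    have e4 : 1 / b - 1 / (b + 1) = 1 / (b * (b + 1)) := by field_simp; ring
    have h9 : (1 / b - 1 / (b + 1)) * Real.exp (-(b * t)) ≤ 1 / b ^ 2 := by
      rw [e4]
      calc 1 / (b * (b + 1)) * Real.exp (-(b * t)) ≤ 1 / (b * (b + 1)) * 1 := by gcongr
        _ ≤ 1 / b ^ 2 := by
          rw [mul_one]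
          apply one_div_le_one_div_of_le (by positivity)
          nlinarith
    have h10 : 1 / (b + 1) * (Real.exp (-(b * t)) * (1 - Real.exp (-t))) ≤ 1 / b ^ 2 := by
      calc 1 / (b + 1) * (Real.exp (-(b * t)) * (1 - Real.exp (-t)))
          ≤ 1 / b * (Real.exp (-(b * t)) * t) := by
            gcongr
            linarith
        _ = 1 / b * (t * Real.exp (-(b * t))) := by ring
        _ ≤ 1 / b * (1 / b) := by gcongr
        _ = 1 / b ^ 2 := by field_simp
    calc _ ≤ (1 / b ^ 2 + 1 / b ^ 2) * 1 := by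
          apply mul_le_mul (add_le_add h9 h10) h2 h2'.le (by positivity)
      _ = 2 * (1 / b ^ 2) := by ring
      _ ≤ 2 * (5 / (1 + (k : ℝ)) ^ 2) := by
          apply mul_le_mul_of_nonneg_left _ (by norm_num)
          apply sq_inv_le
          rw [hb]
          linarith
  refine key.congr fun u hu => ?_
  rw [Ps_zero_shift hu, Ps, (summable_Ps (Or.inr rfl) hu).tsum_sub (summable_Ps_shift hu)]

/-- the even trivial zeros give an unbounded slope at the origin -/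
lemma Ps_zero_lower (K : ℝ) : ∃ δ : ℝ, 0 < δ ∧ ∀ h, 0 < h → h < δ → K * h ≤ (Ps 0 h).re := by
  -- harmonic sums
  obtain ⟨n, hn⟩ : ∃ n : ℕ, K * 2 * Real.exp 1 ≤ ∑ k ∈ Finset.range n, 1 / ((k : ℝ) + 1) := by
    have := (Real.tendsto_sum_range_one_div_nat_succ_atTop).eventually_ge_atTop
      (K * 2 * Real.exp 1)
    exact this.exists
  refine ⟨1 / (2 * n + 1), by positivity, fun h hh hδ => ?_⟩
  have hs := summable_Ps_shift hh.le
  rw [Ps_zero_shift hh.le, Complex.re_tsum hs]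
  have hre : ∀ b : ℝ, (1 / (b : ℂ) * E (-(b : ℂ) - 1 / 2) h).re =
      ∫ t in (0 : ℝ)..h, 1 / b * Real.exp (-(b * t)) * Real.exp (-(1 / 2 * t)) := by
    intro b
    rw [triv_term_eq, intervalIntegral.integral_ofReal, Complex.ofReal_re]
  have hnonneg : ∀ b : ℝ, 0 < b → 0 ≤ (1 / (b : ℂ) * E (-(b : ℂ) - 1 / 2) h).re := by
    intro b hb
    rw [hre]
    exact intervalIntegral.integral_nonneg hh.le fun t _ => by positivity
  have hsre : Summable (fun k : ℕ =>
    (1 / (((2 * k + 2 : ℝ)) : ℂ) * E (-((2 * k + 2 : ℝ) : ℂ) - 1 / 2) h).re) :=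
    (Complex.hasSum_re hs.hasSum).summable
  have hle : ∑ k ∈ Finset.range n,
      (1 / (((2 * k + 2 : ℝ)) : ℂ) * E (-((2 * k + 2 : ℝ) : ℂ) - 1 / 2) h).re ≤
      ∑' k : ℕ, (1 / (((2 * k + 2 : ℝ)) : ℂ) * E (-((2 * k + 2 : ℝ) : ℂ) - 1 / 2) h).re :=
    hsre.sum_le_tsum _ fun k _ => hnonneg _ (by positivity)
  refine le_trans ?_ hle
  have hterm : ∀ k ∈ Finset.range n, h * (1 / (2 * Real.exp 1)) * (1 / ((k : ℝ) + 1)) ≤
      (1 / (((2 * k + 2 : ℝ)) : ℂ) * E (-((2 * k + 2 : ℝ) : ℂ) - 1 / 2) h).re := by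
    intro k hk
    have hkn : (k : ℝ) + 1 ≤ n := by exact_mod_cast Finset.mem_range.1 hk
    have hk0 : (0 : ℝ) ≤ k := by positivity
    rw [hre]
    have h1 : ∫ t in (0 : ℝ)..h, 1 / (2 * (k : ℝ) + 2) * Real.exp (-1) ≤
        ∫ t in (0 : ℝ)..h, 1 / (2 * (k : ℝ) + 2) * Real.exp (-((2 * k + 2) * t)) *
          Real.exp (-(1 / 2 * t)) := by
      apply intervalIntegral.integral_mono_on hh.le
        (Continuous.intervalIntegrable (by fun_prop) _ _)
        (Continuous.intervalIntegrable (by fun_prop) _ _)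
      intro t ht
      rw [mul_assoc, ← Real.exp_add]
      apply mul_le_mul_of_nonneg_left _ (by positivity)
      apply Real.exp_le_exp.2
      have ht1 : t < 1 / (2 * n + 1) := lt_of_le_of_lt ht.2 hδ
      have ht0 : 0 ≤ t := ht.1
      have h2 : (2 * (n : ℝ) + 1) * t < 1 := by
        rw [lt_div_iff₀ (by positivity)] at ht1
        linarith
      nlinarith
    refine le_trans (le_of_eq ?_) h1
    rw [intervalIntegral.integral_const, smul_eq_mul, Real.exp_neg]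
    field_simp
    ring
  refine le_trans ?_ (Finset.sum_le_sum hterm)
  rw [← Finset.mul_sum]
  have hpos : 0 < h * (1 / (2 * Real.exp 1)) := by positivity
  calc K * h = h * (1 / (2 * Real.exp 1)) * (K * 2 * Real.exp 1) := by
        field_simp
    _ ≤ _ := mul_le_mul_of_nonneg_left hn hpos.le

end Pool.Agent.Osc
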