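import Mathlib
import Pool.Agent.Osc.Triv
import Pool.Agent.Osc.Defs

/-!
# Combination over the characters of a modulus
-/

open Complex Filter Topology MeasureTheory Set DirichletCharacter

namespace Pool.Agent.Osc

section chars
variable {q : ℕ} [NeZero q]

instance condNeZero (χ : DirichletCharacter ℂ q) : NeZero χ.conductor := ⟨conductor_ne_zero χ⟩

/-- multiplicities of the nontrivial zeros -/
noncomputable def mz (χ : DirichletCharacter ℂ q) (ρ : ℂ) : ℕ :=
  analyticOrderNatAt (xi χ.primitiveCharacter) ρ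

lemma mz_re (hG : GRH q) (χ : DirichletCharacter ℂ q) {ρ : ℂ} (h : mz χ ρ ≠ 0) :
    ρ.re = 1 / 2 := by
  have hp := primitiveCharacter_isPrimitive χ
  have h0 : xi χ.primitiveCharacter ρ = 0 :=
    (zmult_pos_iff (differentiable_xi hp) (xi_two_ne hp) ρ).1 h
  have hs := xi_zero_strip hp h0
  have h1 := LFunction_zero_of_xi_zero hp h0
  apply hG χ ρ hs.1 hs.2
  have h2 := LFunction_changeLevel χ.conductor_dvd_level χ.primitiveCharacter (s := ρ)
    (Or.inr (by rintro rfl; simp at hs))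
  rw [changeLevel_primitiveCharacter, h1, zero_mul] at h2
  exact h2

lemma xi_congr_level {m n : ℕ} [NeZero m] [NeZero n] (h : m = n) (hm : m ∣ q) (hn : n ∣ q)
    (χ : DirichletCharacter ℂ m) (ψ : DirichletCharacter ℂ n)
    (h2 : changeLevel hm χ = changeLevel hn ψ) : xi χ = xi ψ := by
  subst h
  have : χ = ψ := changeLevel_injective hm h2
  rw [this]

lemma mz_inv (χ : DirichletCharacter ℂ q) (ρ : ℂ) : mz χ (1 - ρ) = mz χ⁻¹ ρ := by
  have hp := primitiveCharacter_isPrimitive χ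
  rw [mz, order_xi_one_sub hp, mz]
  congr 1
  apply xi_congr_level (q := q) (conductor_inv χ).symm χ.conductor_dvd_level
    (conductor_dvd_level χ⁻¹)
  rw [map_inv, changeLevel_primitiveCharacter, changeLevel_primitiveCharacter]

/-- twisted von Mangoldt function, primitive version -/
noncomputable def vp (χ : DirichletCharacter ℂ q) (n : ℕ) : ℂ :=
  χ.primitiveCharacter n * (ArithmeticFunction.vonMangoldt n : ℂ)

/-- weight of a zero -/
noncomputable def Mw (w : DirichletCharacter ℂ q → ℂ) (ρ : ℂ) : ℂ :=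
  ∑ χ : DirichletCharacter ℂ q, w χ * (mz χ ρ : ℂ)

lemma Mw_re (hG : GRH q) (w : DirichletCharacter ℂ q → ℂ) (ρ : ℂ) (h : Mw w ρ ≠ 0) :
    ρ.re = 1 / 2 := by
  by_contra h0
  apply h
  rw [Mw]
  refine Finset.sum_eq_zero fun χ _ => ?_
  have : mz χ ρ = 0 := by
    by_contra h1
    exact h0 (mz_re hG χ h1)
  simp [this]

lemma summable_Mw (w : DirichletCharacter ℂ q → ℂ) :
    Summable (fun ρ : ℂ => ‖Mw w ρ‖ / ‖ρ‖ ^ 2) := by
  have h1 : Summable (fun ρ : ℂ => ∑ χ : DirichletCharacter ℂ q,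
      ‖w χ‖ * ((mz χ ρ : ℝ) / ‖ρ‖ ^ 2)) :=
    summable_sum fun χ _ => (summable_mz (primitiveCharacter_isPrimitive χ)).mul_left _
  refine Summable.of_nonneg_of_le (fun ρ => by positivity) (fun ρ => ?_) h1
  have h2 : ‖Mw w ρ‖ ≤ ∑ χ : DirichletCharacter ℂ q, ‖w χ‖ * (mz χ ρ : ℝ) := by
    rw [Mw]
    refine (norm_sum_le _ _).trans (Finset.sum_le_sum fun χ _ => ?_)
    rw [norm_mul, Complex.norm_natCast]
  calc ‖Mw w ρ‖ / ‖ρ‖ ^ 2 ≤ (∑ χ : DirichletCharacter ℂ q, ‖w χ‖ * (mz χ ρ : ℝ)) / ‖ρ‖ ^ 2 := by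
        gcongr
    _ = _ := by
        rw [Finset.sum_div]
        exact Finset.sum_congr rfl fun χ _ => by ring

lemma Mw_refl (w : DirichletCharacter ℂ q → ℂ) :
    (fun ρ => Mw w (1 - ρ)) = Mw (fun χ => w χ⁻¹) := by
  funext ρ
  rw [Mw, Mw]
  rw [← Equiv.sum_comp (Equiv.inv (DirichletCharacter ℂ q))]
  refine Finset.sum_congr rfl fun χ _ => ?_
  simp only [Equiv.inv_apply]
  rw [mz_inv, inv_inv]

/-- combined explicit formula -/
theorem ief_comb (w : DirichletCharacter ℂ q → ℂ) :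
    ∃ r : ℝ → ℂ, LipFrom 0 r ∧ r 0 = 0 ∧ ∀ u, 0 ≤ u →
      ∑ χ : DirichletCharacter ℂ q, w χ * J (vp χ) u =
        AM (Mw w) u + ∑ χ : DirichletCharacter ℂ q, w χ * Ps (par χ.primitiveCharacter) u +
          w 1 * E (1 / 2) u + r u := by
  have h := fun χ : DirichletCharacter ℂ q => ief (primitiveCharacter_isPrimitive χ)
  choose r hr1 hr2 hr3 using h
  refine ⟨fun u => ∑ χ : DirichletCharacter ℂ q, w χ * r χ u, ?_, ?_, ?_⟩
  · exact LipFrom.sum _ _ fun χ _ => (hr1 χ).const_mul _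
  · simp [hr2]
  · intro u hu
    have e1 : AM (Mw w) u = ∑ χ : DirichletCharacter ℂ q, w χ * (-Zs χ.primitiveCharacter u) := by
      have hs : ∀ χ : DirichletCharacter ℂ q, HasSum (fun ρ : ℂ =>
          w χ * ((mz χ ρ : ℂ) * (1 / ρ * E (ρ - 1 / 2) u))) (w χ * Zs χ.primitiveCharacter u) :=
        fun χ => (summable_Zs (primitiveCharacter_isPrimitive χ) hu).hasSum.mul_left _
      have h2 := hasSum_sum (s := Finset.univ) fun χ _ => hs χ
      rw [AM]
      have e2 : (fun ρ => Mw w ρ * (1 / ρ * E (ρ - 1 / 2) u)) = fun ρ : ℂ =>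
          ∑ χ : DirichletCharacter ℂ q, w χ * ((mz χ ρ : ℂ) * (1 / ρ * E (ρ - 1 / 2) u)) := by
        funext ρ
        rw [Mw, Finset.sum_mul]
        exact Finset.sum_congr rfl fun χ _ => by ring
      rw [e2, h2.tsum_eq, ← Finset.sum_neg_distrib]
      exact Finset.sum_congr rfl fun χ _ => by ring
    have e3 : ∑ χ : DirichletCharacter ℂ q, w χ * (dlt χ.conductor * E (1 / 2) u) =
        w 1 * E (1 / 2) u := by
      rw [Finset.sum_eq_single (1 : DirichletCharacter ℂ q)]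
      · rw [dlt, if_pos conductor_one, one_mul]
      · intro χ _ hχ
        rw [dlt, if_neg (fun h => hχ (eq_one_iff_conductor_eq_one.2 h))]
        ring
      · intro h
        exact absurd (Finset.mem_univ _) h
    rw [e1, ← e3, ← Finset.sum_add_distrib, ← Finset.sum_add_distrib, ← Finset.sum_add_distrib]
    refine Finset.sum_congr rfl fun χ _ => ?_
    have := hr3 χ u hu
    have e4 : J (vp χ) u = J (fun n => χ.primitiveCharacter n *
      (ArithmeticFunction.vonMangoldt n : ℂ)) u := rfl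
    rw [e4, this]
    ring

/-! ### Finite Fourier analysis -/

/-- Fourier coefficients of a function on the units -/
noncomputable def chat (c : (ZMod q)ˣ → ℝ) (χ : DirichletCharacter ℂ q) : ℂ :=
  1 / (q.totient : ℂ) * ∑ a : (ZMod q)ˣ, (c a : ℂ) * χ ((a : ZMod q)⁻¹)

/-- extension of a function on the units to the natural numbers -/
noncomputable def ct (c : (ZMod q)ˣ → ℝ) (n : ℕ) : ℝ :=
  ∑ a : (ZMod q)ˣ, if (n : ZMod q) = a then c a else 0

lemma chat_sum (c : (ZMod q)ˣ → ℝ) (n : ℕ) :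
    ∑ χ : DirichletCharacter ℂ q, chat c χ * χ (n : ZMod q) = (ct c n : ℂ) := by
  have htot : (q.totient : ℂ) ≠ 0 := by
    exact_mod_cast (Nat.totient_pos.2 (NeZero.pos q)).ne'
  have e1 : ∑ χ : DirichletCharacter ℂ q, chat c χ * χ (n : ZMod q) =
      ∑ a : (ZMod q)ˣ, (c a : ℂ) * (1 / (q.totient : ℂ)) *
        ∑ χ : DirichletCharacter ℂ q, χ ((a : ZMod q)⁻¹) * χ (n : ZMod q) := by
    simp only [chat, Finset.mul_sum, Finset.sum_mul]
    rw [Finset.sum_comm]
    refine Finset.sum_congr rfl fun a _ => Finset.sum_congr rfl fun χ _ => ?_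
    ring
  rw [e1, ct]
  push_cast
  refine Finset.sum_congr rfl fun a _ => ?_
  rw [sum_char_inv_mul_char_eq ℂ a.isUnit]
  by_cases h : (a : ZMod q) = n
  · rw [if_pos h, if_pos h.symm]
    field_simp
  · rw [if_neg h, if_neg (Ne.symm h)]
    simp

lemma ct_one (c : (ZMod q)ˣ → ℝ) : ct c 1 = c 1 := by
  rw [ct, Finset.sum_eq_single 1]
  · simp
  · intro a _ ha
    rw [if_neg]
    intro h
    apply ha
    apply Units.ext
    rw [← h]
    simp
  · intro h
    exact absurd (Finset.mem_univ _) h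

lemma chat_sum_one (c : (ZMod q)ˣ → ℝ) : ∑ χ : DirichletCharacter ℂ q, chat c χ = (c 1 : ℂ) := by
  rw [← ct_one c, ← chat_sum c 1]
  refine Finset.sum_congr rfl fun χ _ => ?_
  simp

/-- mean value -/
noncomputable def cbar (c : (ZMod q)ˣ → ℝ) : ℝ := (∑ a : (ZMod q)ˣ, c a) / q.totient

lemma chat_one (c : (ZMod q)ˣ → ℝ) : chat c 1 = (cbar c : ℂ) := by
  rw [chat, cbar]
  push_cast
  rw [one_div, div_eq_inv_mul]
  congr 1
  refine Finset.sum_congr rfl fun a _ => ?_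
  rw [ZMod.inv_coe_unit, MulChar.one_apply_coe, mul_one]

lemma chat_inv (c : (ZMod q)ˣ → ℝ) :
    chat (fun a => c a⁻¹) = fun χ => chat c χ⁻¹ := by
  funext χ
  rw [chat, chat]
  congr 1
  rw [← Equiv.sum_comp (Equiv.inv (ZMod q)ˣ)]
  refine Finset.sum_congr rfl fun a _ => ?_
  simp only [Equiv.inv_apply, inv_inv]
  congr 1
  rw [ZMod.inv_coe_unit, inv_inv, ZMod.inv_coe_unit]
  have h1 : χ⁻¹ (((a⁻¹ : (ZMod q)ˣ)) : ZMod q) = (χ (((a⁻¹ : (ZMod q)ˣ)) : ZMod q))⁻¹ :=
    MulChar.inv_apply_eq_inv' χ _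
  rw [h1]
  have h2 : χ (a : ZMod q) * χ (((a⁻¹ : (ZMod q)ˣ)) : ZMod q) = 1 := by
    rw [← map_mul, ← Units.val_mul, mul_inv_cancel, Units.val_one, map_one]
  exact eq_inv_of_mul_eq_one_left h2

lemma cbar_inv (c : (ZMod q)ˣ → ℝ) : cbar (fun a => c a⁻¹) = cbar c := by
  rw [cbar, cbar]
  congr 1
  exact Equiv.sum_comp (Equiv.inv (ZMod q)ˣ) c

lemma ct_not_coprime (c : (ZMod q)ˣ → ℝ) {n : ℕ} (h : ¬ n.Coprime q) : ct c n = 0 := by
  rw [ct]
  refine Finset.sum_eq_zero fun a _ => ?_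
  rw [if_neg]
  intro h0
  apply h
  rw [← ZMod.isUnit_iff_coprime, h0]
  exact a.isUnit

lemma ct_bound (c : (ZMod q)ˣ → ℝ) (n : ℕ) : |ct c n| ≤ ∑ a : (ZMod q)ˣ, |c a| := by
  rw [ct]
  refine (Finset.abs_sum_le_sum_abs _ _).trans (Finset.sum_le_sum fun a _ => ?_)
  split_ifs
  · exact le_rfl
  · simp

omit [NeZero q] in
lemma vp_coprime (χ : DirichletCharacter ℂ q) {n : ℕ} (h : n.Coprime q) :
    vp χ n = χ n * (ArithmeticFunction.vonMangoldt n : ℂ) := by
  rw [vp]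
  congr 1
  have h1 : IsCoprime (n : ℤ) (q : ℤ) := Nat.isCoprime_iff_coprime.2 h
  have := primitiveCharacter_apply_of_isCoprime χ h1
  simpa using this

end chars

end Pool.Agent.Osc
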