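import Mathlib
import Pool.Agent.Osc.Comb

/-!
# The explicit formula for a real weight on the residue classes
-/

open Complex Filter Topology MeasureTheory Set DirichletCharacter

namespace Pool.Agent.Osc

open Classical in
lemma summable_prime_pow (p : ℕ) (hp : p.Prime) : Summable (fun n : ℕ =>
    if n ∈ Set.range (fun k : ℕ => p ^ (k + 1)) then Real.log p * (n : ℝ) ^ (-(1 / 2) : ℝ) else 0) := by
  classical
  have hinj : Function.Injective (fun k : ℕ => p ^ (k + 1)) := by
    intro a b h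
    have := Nat.pow_right_injective hp.two_le h
    omega
  have h1 : Summable ((fun n : ℕ => if n ∈ Set.range (fun k : ℕ => p ^ (k + 1)) then
      Real.log p * (n : ℝ) ^ (-(1 / 2) : ℝ) else 0) ∘ (fun k : ℕ => p ^ (k + 1))) := by
    have hp1 : (1 : ℝ) < p := by exact_mod_cast hp.one_lt
    have hp0 : (0 : ℝ) ≤ p := by linarith
    have h2 : Summable (fun k : ℕ => Real.log p * (p : ℝ) ^ (-(1 / 2) : ℝ) *
        ((p : ℝ) ^ (-(1 / 2) : ℝ)) ^ k) := by
      apply Summable.mul_left
      apply summable_geometric_of_lt_one (by positivity)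
      exact Real.rpow_lt_one_of_one_lt_of_neg hp1 (by norm_num)
    refine h2.congr fun k => ?_
    simp only [Function.comp, Set.mem_range_self, if_true]
    rw [mul_assoc, ← pow_succ', ← Real.rpow_natCast, ← Real.rpow_mul hp0]
    push_cast
    rw [← Real.rpow_natCast (p : ℝ) (k + 1), ← Real.rpow_mul hp0]
    congr 2
    push_cast
    ring
  refine (hinj.summable_iff ?_).1 h1
  intro x hx
  rw [if_neg hx]

lemma summable_bad (q : ℕ) [NeZero q] : Summable (fun n : ℕ =>
    if n.Coprime q then 0 else ArithmeticFunction.vonMangoldt n * (n : ℝ) ^ (-(1 / 2) : ℝ)) := by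
  classical
  have h1 : Summable (fun n : ℕ => ∑ p ∈ q.primeFactors,
      if n ∈ Set.range (fun k : ℕ => p ^ (k + 1)) then
        Real.log p * (n : ℝ) ^ (-(1 / 2) : ℝ) else 0) :=
    summable_sum fun p hp => summable_prime_pow p (Nat.prime_of_mem_primeFactors hp)
  refine Summable.of_nonneg_of_le ?_ ?_ h1
  · intro n
    split_ifs
    · exact le_rfl
    · exact mul_nonneg ArithmeticFunction.vonMangoldt_nonneg (by positivity)
  · intro n
    have hnn : ∀ p ∈ q.primeFactors, (0 : ℝ) ≤
        (if n ∈ Set.range (fun k : ℕ => p ^ (k + 1)) then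
        Real.log p * (n : ℝ) ^ (-(1 / 2) : ℝ) else 0) := by
      intro p hp
      have hp' := Nat.prime_of_mem_primeFactors hp
      split_ifs
      · have : 0 ≤ Real.log p := Real.log_natCast_nonneg p
        positivity
      · exact le_rfl
    split_ifs with hc
    · exact Finset.sum_nonneg hnn
    · by_cases hL : ArithmeticFunction.vonMangoldt n = 0
      · rw [hL, zero_mul]
        exact Finset.sum_nonneg hnn
      · have hpp : IsPrimePow n := ArithmeticFunction.vonMangoldt_ne_zero_iff.1 hL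
        obtain ⟨p, k, hp, hk, rfl⟩ := (isPrimePow_nat_iff n).1 hpp
        have hpq : p ∈ q.primeFactors := by
          rw [Nat.mem_primeFactors]
          refine ⟨hp, ?_, NeZero.ne q⟩
          by_contra h
          exact hc (Nat.Coprime.pow_left k ((Nat.Prime.coprime_iff_not_dvd hp).2 h))
        refine le_trans (le_of_eq ?_) (Finset.single_le_sum hnn hpq)
        have hmem : p ^ k ∈ Set.range (fun k : ℕ => p ^ (k + 1)) := ⟨k - 1, by
          simp only
          congr 1
          omega⟩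
        rw [if_pos hmem, ArithmeticFunction.vonMangoldt_apply_pow hk.ne',
          ArithmeticFunction.vonMangoldt_apply_prime hp]

lemma norm_phi_sub_le {n : ℕ} (hn : 1 ≤ n) (u v : ℝ) :
    ‖phi n v - phi n u‖ ≤ (n : ℝ) ^ (-(1 / 2) : ℝ) * |v - u| := by
  have hn' : (0 : ℝ) < n := by exact_mod_cast hn
  have e : phi n v - phi n u = ∫ t in u..v, wt t * (if Real.log n ≤ t then 1 else 0) :=
    intervalIntegral.integral_interval_sub_left (intervalIntegrable_step n _ _)
      (intervalIntegrable_step n _ _)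
  rw [e]
  apply intervalIntegral.norm_integral_le_of_norm_le_const
  intro t ht
  rw [norm_mul, norm_wt]
  by_cases h : Real.log n ≤ t
  · rw [if_pos h, norm_one, mul_one, Real.rpow_def_of_pos hn']
    apply Real.exp_le_exp.2
    linarith
  · rw [if_neg h, norm_zero, mul_zero]
    positivity

lemma J_summable {a : ℕ → ℂ} {C : ℝ} (ha : ∀ n, ‖a n‖ ≤ C * ArithmeticFunction.vonMangoldt n)
    {u : ℝ} (hu : 0 ≤ u) : Summable (fun n => a n * phi n u) := by
  refine Summable.of_norm_bounded ((summable_vM.mul_left C).mul_right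
    (Real.exp (3 / 4 * u))) fun n => ?_
  by_cases hn : n = 0
  · subst hn
    have h0 : a 0 = 0 := by simpa using ha 0
    simp [h0]
  · rw [norm_mul]
    calc ‖a n‖ * ‖phi n u‖ ≤ (C * ArithmeticFunction.vonMangoldt n) *
          (2 * (n : ℝ) ^ (-(5 / 4) : ℝ) * Real.exp (3 / 4 * u)) :=
          mul_le_mul (ha n) (norm_phi_le (Nat.one_le_iff_ne_zero.2 hn) hu) (norm_nonneg _)
            ((norm_nonneg _).trans (ha n))
      _ = _ := by ring

lemma lip_J {a : ℕ → ℂ} {C : ℝ} (ha : ∀ n, ‖a n‖ ≤ C * ArithmeticFunction.vonMangoldt n)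
    (hs : Summable (fun n : ℕ => ‖a n‖ * (n : ℝ) ^ (-(1 / 2) : ℝ))) : LipFrom 0 (J a) := by
  refine lip_tsum hs ?_ (fun u hu => J_summable ha hu)
  intro n u v hu hv
  by_cases hn : n = 0
  · subst hn
    have h0 : a 0 = 0 := by simpa using ha 0
    simp [h0]
  · rw [← mul_sub, norm_mul, mul_assoc]
    exact mul_le_mul_of_nonneg_left (norm_phi_sub_le (Nat.one_le_iff_ne_zero.2 hn) u v)
      (norm_nonneg _)

section chars
variable {q : ℕ} [NeZero q]

/-- the coefficients attached to a real weight -/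
noncomputable def av (c : (ZMod q)ˣ → ℝ) (n : ℕ) : ℂ :=
  (ct c n : ℂ) * (ArithmeticFunction.vonMangoldt n : ℂ)

lemma norm_av_le (c : (ZMod q)ˣ → ℝ) (n : ℕ) :
    ‖av c n‖ ≤ (∑ a : (ZMod q)ˣ, |c a|) * ArithmeticFunction.vonMangoldt n := by
  rw [av, norm_mul, Complex.norm_real, Complex.norm_real, Real.norm_eq_abs, Real.norm_eq_abs,
    abs_of_nonneg (ArithmeticFunction.vonMangoldt_nonneg (n := n))]
  exact mul_le_mul_of_nonneg_right (ct_bound c n) ArithmeticFunction.vonMangoldt_nonneg

omit [NeZero q] in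
lemma norm_vp_le (χ : DirichletCharacter ℂ q) (n : ℕ) :
    ‖vp χ n‖ ≤ 1 * ArithmeticFunction.vonMangoldt n := by
  rw [vp, norm_mul, Complex.norm_real, Real.norm_eq_abs,
    abs_of_nonneg (ArithmeticFunction.vonMangoldt_nonneg (n := n))]
  exact mul_le_mul_of_nonneg_right (DirichletCharacter.norm_le_one _ _)
    ArithmeticFunction.vonMangoldt_nonneg

lemma lip_J_diff (c : (ZMod q)ˣ → ℝ) : LipFrom 0 (fun u =>
    (∑ χ : DirichletCharacter ℂ q, chat c χ * J (vp χ) u) - J (av c) u) := by
  set W : ℝ := ∑ χ : DirichletCharacter ℂ q, ‖chat c χ‖ with hW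
  set a₁ : ℕ → ℂ := fun n => ∑ χ : DirichletCharacter ℂ q, chat c χ * vp χ n with ha₁
  have hb1 : ∀ n, ‖a₁ n‖ ≤ W * ArithmeticFunction.vonMangoldt n := by
    intro n
    rw [ha₁, hW, Finset.sum_mul]
    refine (norm_sum_le _ _).trans (Finset.sum_le_sum fun χ _ => ?_)
    rw [norm_mul]
    refine mul_le_mul_of_nonneg_left ?_ (norm_nonneg _)
    simpa using norm_vp_le χ n
  have hb2 := norm_av_le c
  set C : ℝ := ∑ a : (ZMod q)ˣ, |c a| with hC
  have hd0 : ∀ n : ℕ, n.Coprime q → a₁ n - av c n = 0 := by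
    intro n hn
    rw [ha₁, av, ← chat_sum c n, Finset.sum_mul, sub_eq_zero]
    refine Finset.sum_congr rfl fun χ _ => ?_
    rw [vp_coprime χ hn]
    ring
  have hd1 : ∀ n : ℕ, ‖a₁ n - av c n‖ ≤ W * (if n.Coprime q then 0 else
      ArithmeticFunction.vonMangoldt n) := by
    intro n
    by_cases hn : n.Coprime q
    · rw [hd0 n hn, if_pos hn]; simp
    · rw [if_neg hn, av, ct_not_coprime c hn]
      simpa using hb1 n
  have hW0 : 0 ≤ W := Finset.sum_nonneg fun χ _ => norm_nonneg _
  have h1 : LipFrom 0 (J (fun n => a₁ n - av c n)) := by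
    refine lip_J (C := W) ?_ ?_
    · intro n
      refine (hd1 n).trans (mul_le_mul_of_nonneg_left ?_ hW0)
      split_ifs
      · exact ArithmeticFunction.vonMangoldt_nonneg
      · exact le_rfl
    · refine Summable.of_nonneg_of_le (fun n => by positivity) ?_
        ((summable_bad q).mul_left W)
      intro n
      calc ‖a₁ n - av c n‖ * (n : ℝ) ^ (-(1 / 2) : ℝ) ≤ (W * (if n.Coprime q then 0 else
          ArithmeticFunction.vonMangoldt n)) * (n : ℝ) ^ (-(1 / 2) : ℝ) := by
            gcongr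
            exact hd1 n
        _ = _ := by
            split_ifs <;> simp
            ring
  refine h1.congr fun u hu => ?_
  have s1 : ∀ χ : DirichletCharacter ℂ q, HasSum (fun n => chat c χ * (vp χ n * phi n u))
      (chat c χ * J (vp χ) u) := fun χ => (J_summable (norm_vp_le χ) hu).hasSum.mul_left _
  have s2 := hasSum_sum (s := Finset.univ) fun χ _ => s1 χ
  have s3 := s2.sub (J_summable hb2 hu).hasSum
  rw [J]
  refine Eq.trans ?_ s3.tsum_eq
  refine tsum_congr fun n => ?_
  rw [ha₁, sub_mul, Finset.sum_mul]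
  congr 1
  refine Finset.sum_congr rfl fun χ _ => ?_
  ring

/-- the main term of the integrated function -/
noncomputable def Gc (c : (ZMod q)ˣ → ℝ) (u : ℝ) : ℂ := J (av c) u - (cbar c : ℂ) * E (1 / 2) u

lemma lip_Ps_gen {κ : ℝ} (hκ : κ = 0 ∨ κ = 1) : LipFrom 0 (fun u => Ps κ u - Ps 0 u) := by
  rcases hκ with h | h
  · rw [h]
    exact ⟨0, le_rfl, fun u v _ _ => by simp⟩
  · rw [h]
    exact lip_Ps_diff

theorem Gc_formula (c : (ZMod q)ˣ → ℝ) :
    LipFrom 0 (fun u => Gc c u - AM (Mw (chat c)) u - (c 1 : ℂ) * Ps 0 u) := by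
  obtain ⟨r, hr1, hr2, hr3⟩ := ief_comb (chat c)
  have h1 := lip_J_diff c
  have h2 : LipFrom 0 (fun u => ∑ χ : DirichletCharacter ℂ q, chat c χ *
      (Ps (par χ.primitiveCharacter) u - Ps 0 u)) :=
    LipFrom.sum _ _ fun χ _ => (lip_Ps_gen (par_eq _)).const_mul _
  refine ((hr1.add h2).sub h1).congr fun u hu => ?_
  have h3 := hr3 u hu
  have h4 : ∑ χ : DirichletCharacter ℂ q, chat c χ *
      (Ps (par χ.primitiveCharacter) u - Ps 0 u) =
      (∑ χ : DirichletCharacter ℂ q, chat c χ * Ps (par χ.primitiveCharacter) u) -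
      (c 1 : ℂ) * Ps 0 u := by
    rw [← chat_sum_one, Finset.sum_mul, ← Finset.sum_sub_distrib]
    exact Finset.sum_congr rfl fun χ _ => by ring
  rw [h4, h3, Gc, chat_one]
  ring

theorem Gc_formula_far (c : (ZMod q)ˣ → ℝ) :
    LipFrom 1 (fun u => Gc c u - AM (Mw (chat c)) u) := by
  have h1 := ((Gc_formula c).mono zero_le_one).add ((lip_Ps (Or.inl rfl)).const_mul (c 1 : ℂ))
  exact h1.congr fun u _ => by ring

end chars

end Pool.Agent.Osc
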