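import Mathlib

/-!
# From prime counting to the von Mangoldt function
-/

open Filter Topology MeasureTheory Set

namespace Pool.Agent.Osc

/-- weighted Chebyshev functions -/
noncomputable def psiR (b : ℕ → ℝ) (x : ℝ) : ℝ :=
  ∑ n ∈ Finset.Icc 0 ⌊x⌋₊, b n * ArithmeticFunction.vonMangoldt n

open Classical in
/-- weighted theta function -/
noncomputable def thR (b : ℕ → ℝ) (x : ℝ) : ℝ :=
  ∑ n ∈ Finset.Icc 0 ⌊x⌋₊, if n.Prime then b n * Real.log n else 0

open Classical in
/-- weighted prime counting -/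
noncomputable def piR (b : ℕ → ℝ) (x : ℝ) : ℝ :=
  ∑ n ∈ Finset.Icc 0 ⌊x⌋₊, if n.Prime then b n else 0

/-- normalised error term -/
noncomputable def gR (b : ℕ → ℝ) (β : ℝ) (u : ℝ) : ℝ :=
  Real.exp (-(1 / 2 * u)) * psiR b (Real.exp u) - β * Real.exp (1 / 2 * u)

section
variable {b : ℕ → ℝ} {B : ℝ} (hb : ∀ n, |b n| ≤ B)
include hb

lemma B_nonneg : 0 ≤ B := (abs_nonneg _).trans (hb 0)

lemma abs_psiR_le {x : ℝ} (hx : 0 ≤ x) : |psiR b x| ≤ B * 6 * x := by
  have hB := B_nonneg hb
  have h1 : |psiR b x| ≤ B * Chebyshev.psi x := by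
    rw [psiR, Chebyshev.psi_eq_sum_Icc, Finset.mul_sum]
    refine (Finset.abs_sum_le_sum_abs _ _).trans (Finset.sum_le_sum fun n _ => ?_)
    rw [abs_mul, abs_of_nonneg (ArithmeticFunction.vonMangoldt_nonneg (n := n))]
    exact mul_le_mul_of_nonneg_right (hb n) ArithmeticFunction.vonMangoldt_nonneg
  have h2 := Chebyshev.psi_le_const_mul_self hx
  have h3 : Real.log 4 ≤ 2 := by
    have : Real.log 4 = 2 * Real.log 2 := by
      rw [show (4 : ℝ) = 2 ^ 2 by norm_num, Real.log_pow]; norm_num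
    rw [this]
    linarith [Real.log_two_lt_d9]
  calc |psiR b x| ≤ B * Chebyshev.psi x := h1
    _ ≤ B * ((Real.log 4 + 4) * x) := by gcongr
    _ ≤ B * (6 * x) := by
        gcongr
        linarith
    _ = _ := by ring

lemma abs_psi_sub_th_le : ∃ C, 0 ≤ C ∧ ∀ x, |psiR b x - thR b x| ≤ C * Real.sqrt x := by
  classical
  have hB := B_nonneg hb
  obtain ⟨C, hC⟩ := Chebyshev.psi_sub_theta_le_mul_sqrt
  have hC0 : 0 ≤ C := by
    have h1 := hC 1
    have h2 := Chebyshev.theta_le_psi 1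
    simp only [Real.sqrt_one, mul_one] at h1
    linarith
  refine ⟨B * C, by positivity, fun x => ?_⟩
  have h1 : Chebyshev.psi x - Chebyshev.theta x = ∑ n ∈ Finset.Icc 0 ⌊x⌋₊,
      (ArithmeticFunction.vonMangoldt n - if n.Prime then Real.log n else 0) := by
    rw [Chebyshev.psi_eq_sum_Icc, Chebyshev.theta_eq_sum_Icc, Finset.sum_filter,
      ← Finset.sum_sub_distrib]
  have h2 : psiR b x - thR b x = ∑ n ∈ Finset.Icc 0 ⌊x⌋₊,
      b n * (ArithmeticFunction.vonMangoldt n - if n.Prime then Real.log n else 0) := by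
    rw [psiR, thR, ← Finset.sum_sub_distrib]
    refine Finset.sum_congr rfl fun n _ => ?_
    split_ifs <;> ring
  have h3 : ∀ n : ℕ, 0 ≤ ArithmeticFunction.vonMangoldt n - if n.Prime then Real.log n else 0 := by
    intro n
    split_ifs with h
    · rw [ArithmeticFunction.vonMangoldt_apply_prime h, sub_self]
    · rw [sub_zero]
      exact ArithmeticFunction.vonMangoldt_nonneg
  calc |psiR b x - thR b x| ≤ B * (Chebyshev.psi x - Chebyshev.theta x) := by
        rw [h1, h2, Finset.mul_sum]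
        refine (Finset.abs_sum_le_sum_abs _ _).trans (Finset.sum_le_sum fun n _ => ?_)
        rw [abs_mul, abs_of_nonneg (h3 n)]
        exact mul_le_mul_of_nonneg_right (hb n) (h3 n)
    _ ≤ B * (C * Real.sqrt x) := by
        gcongr
        exact hC x
    _ = _ := by ring

omit hb in
lemma measurable_psiR : Measurable (psiR b) := by
  have h1 : psiR b = (fun k : ℕ => ∑ n ∈ Finset.Icc 0 k, b n * ArithmeticFunction.vonMangoldt n) ∘
      (fun x : ℝ => ⌊x⌋₊) := rfl
  rw [h1]
  exact (measurable_from_top).comp Nat.measurable_floor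

omit hb in
lemma measurable_gR (β : ℝ) : Measurable (gR b β) := by
  have h1 : Measurable (fun u : ℝ => psiR b (Real.exp u)) :=
    measurable_psiR.comp Real.measurable_exp
  have h2 : Measurable (fun u : ℝ => Real.exp (-(1 / 2 * u))) :=
    (by fun_prop : Continuous (fun u : ℝ => Real.exp (-(1 / 2 * u)))).measurable
  have h3 : Measurable (fun u : ℝ => β * Real.exp (1 / 2 * u)) :=
    (by fun_prop : Continuous (fun u : ℝ => β * Real.exp (1 / 2 * u))).measurable
  exact (h2.mul h1).sub h3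

lemma abs_gR_le (β u : ℝ) : |gR b β u| ≤ (B * 6 + |β|) * Real.exp (1 / 2 * u) := by
  have h1 := abs_psiR_le hb (Real.exp_pos u).le
  have h2 : Real.exp (-(1 / 2 * u)) * Real.exp u = Real.exp (1 / 2 * u) := by
    rw [← Real.exp_add]; congr 1; ring
  rw [gR]
  calc |Real.exp (-(1 / 2 * u)) * psiR b (Real.exp u) - β * Real.exp (1 / 2 * u)|
      ≤ |Real.exp (-(1 / 2 * u)) * psiR b (Real.exp u)| + |β * Real.exp (1 / 2 * u)| :=
        abs_sub _ _
    _ ≤ Real.exp (-(1 / 2 * u)) * (B * 6 * Real.exp u) + |β| * Real.exp (1 / 2 * u) := by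
        rw [abs_mul, abs_mul, abs_of_pos (Real.exp_pos _), abs_of_pos (Real.exp_pos _)]
        gcongr
    _ = B * 6 * (Real.exp (-(1 / 2 * u)) * Real.exp u) + |β| * Real.exp (1 / 2 * u) := by ring
    _ = _ := by rw [h2]; ring

lemma gR_intervalIntegrable (β x y : ℝ) : IntervalIntegrable (gR b β) volume x y := by
  have h1 : IntervalIntegrable (fun u => (B * 6 + |β|) * Real.exp (1 / 2 * u)) volume x y :=
    Continuous.intervalIntegrable (by fun_prop) _ _
  refine h1.mono_fun (measurable_gR β).aestronglyMeasurable ?_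
  refine Eventually.of_forall fun u => ?_
  have h2 := abs_gR_le hb β u
  have hB := B_nonneg hb
  show ‖gR b β u‖ ≤ ‖(B * 6 + |β|) * Real.exp (1 / 2 * u)‖
  rw [Real.norm_eq_abs, Real.norm_eq_abs, abs_of_nonneg (a := (B * 6 + |β|) * _) (by positivity)]
  exact h2

omit hb in
lemma gR_rightCts (β u : ℝ) : ContinuousWithinAt (gR b β) (Ioi u) u := by
  have h1 : ∀ᶠ t in 𝓝[>] u, psiR b (Real.exp t) = psiR b (Real.exp u) := by
    have h2 : Real.exp u < (⌊Real.exp u⌋₊ : ℝ) + 1 := Nat.lt_floor_add_one _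
    have h3 : ∀ᶠ t in 𝓝[>] u, Real.exp t < (⌊Real.exp u⌋₊ : ℝ) + 1 :=
      nhdsWithin_le_nhds (Real.continuous_exp.continuousAt.eventually_lt_const h2)
    filter_upwards [h3, self_mem_nhdsWithin] with t ht ht2
    have h4 : ⌊Real.exp t⌋₊ = ⌊Real.exp u⌋₊ := by
      rw [Nat.floor_eq_iff (Real.exp_pos t).le]
      refine ⟨?_, ht⟩
      exact (Nat.floor_le (Real.exp_pos u).le).trans (Real.exp_le_exp.2 (le_of_lt ht2))
    rw [psiR, psiR, h4]
  have h5 : ContinuousWithinAt (fun t => Real.exp (-(1 / 2 * t)) * psiR b (Real.exp u) -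
      β * Real.exp (1 / 2 * t)) (Ioi u) u := by
    apply Continuous.continuousWithinAt
    fun_prop
  refine h5.congr_of_eventuallyEq ?_ ?_
  · filter_upwards [h1] with t ht
    rw [gR, ht]
  · rfl

/-- primitive of the error term -/
lemma hasDerivWithinAt_GR (β u : ℝ) :
    HasDerivWithinAt (fun v => ∫ t in (0 : ℝ)..v, gR b β t) (gR b β u) (Ioi u) u := by
  have h := intervalIntegral.integral_hasDerivWithinAt_right (s := Ici u) (t := Ioi u)
    (gR_intervalIntegrable hb β 0 u)
    ((measurable_gR β).stronglyMeasurable.stronglyMeasurableAtFilter) (gR_rightCts β u)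
  exact h.mono Ioi_subset_Ici_self

/-- lower bounds for increments of the primitive give pointwise bounds -/
lemma gR_ge_of_increment {β u C : ℝ}
    (h : ∀ y, 0 ≤ y → -(C * y) ≤ (∫ t in (0 : ℝ)..(u + y), gR b β t) -
      ∫ t in (0 : ℝ)..u, gR b β t) : -C ≤ gR b β u := by
  have h1 := hasDerivWithinAt_GR hb β u
  rw [hasDerivWithinAt_iff_tendsto_slope] at h1
  have h2 : (Ioi u \ {u}) = Ioi u := by
    ext x; simp
  rw [h2] at h1
  refine ge_of_tendsto h1 ?_
  filter_upwards [self_mem_nhdsWithin] with v hv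
  have hv' : 0 < v - u := sub_pos.2 hv
  have h3 := h (v - u) hv'.le
  rw [add_sub_cancel] at h3
  rw [slope_def_field, le_div_iff₀ hv']
  linarith

end

end Pool.Agent.Osc
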