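import Mathlib
import Pool.Agent.Osc.Trans
import Pool.Agent.Osc.Defs

/-!
# Partial summation
-/

open Filter Topology MeasureTheory Set

namespace Pool.Agent.Osc

lemma log_pos_of_two_le {t : ℝ} (ht : 2 ≤ t) : 0 < Real.log t := Real.log_pos (by linarith)

lemma log_ge_half {t : ℝ} (ht : 2 ≤ t) : 1 / 2 ≤ Real.log t := by
  have h1 : Real.log 2 ≤ Real.log t := Real.log_le_log (by norm_num) ht
  have := Real.log_two_gt_d9
  linarith

lemma mem_two {x t : ℝ} (hx : 2 ≤ x) (ht : t ∈ uIcc 2 x) : 2 ≤ t := by
  rw [uIcc_of_le hx] at ht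
  exact ht.1

lemma contOn_inv_log {x : ℝ} (hx : 2 ≤ x) (n : ℕ) :
    ContinuousOn (fun t => 1 / Real.log t ^ n) (uIcc 2 x) := by
  intro t ht
  have h2 := mem_two hx ht
  have h3 := log_pos_of_two_le h2
  apply ContinuousAt.continuousWithinAt
  have : ContinuousAt Real.log t := Real.continuousAt_log (by linarith)
  exact continuousAt_const.div (this.pow n) (by positivity)

lemma abel_summation {b : ℕ → ℝ} {x : ℝ} (hx : 2 ≤ x) :
    piR b x = thR b x / Real.log x + ∫ t in (2 : ℝ)..x, thR b t / (t * Real.log t ^ 2) := by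
  classical
  have hder : ∀ t : ℝ, 2 ≤ t → HasDerivAt (fun t => (Real.log t)⁻¹)
      (-(t⁻¹) / Real.log t ^ 2) t := by
    intro t ht
    exact (Real.hasDerivAt_log (by linarith)).inv (log_pos_of_two_le ht).ne'
  have h := sum_mul_eq_sub_integral_mul₁ (𝕜 := ℝ) (f := fun t => (Real.log t)⁻¹)
    (c := fun n : ℕ => if n.Prime then b n * Real.log n else 0) (by simp) (by simp) x
    (fun t ht => (hder t ht.1).differentiableAt) (by
      have h1 : ContinuousOn (fun t : ℝ => -(t⁻¹) / Real.log t ^ 2) (Icc 2 x) := by
        intro t ht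
        have h2 : 2 ≤ t := ht.1
        have h3 := log_pos_of_two_le h2
        apply ContinuousAt.continuousWithinAt
        have h4 : ContinuousAt Real.log t := Real.continuousAt_log (by linarith)
        have h5 : ContinuousAt (fun t : ℝ => t⁻¹) t := continuousAt_inv₀ (by linarith)
        exact h5.neg.div (h4.pow 2) (by positivity)
      refine h1.integrableOn_Icc.congr_fun ?_ measurableSet_Icc
      intro t ht
      exact (hder t ht.1).deriv.symm)
  have e1 : piR b x = ∑ k ∈ Finset.Icc 0 ⌊x⌋₊, (Real.log (k : ℝ))⁻¹ *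
      (if k.Prime then b k * Real.log k else 0) := by
    rw [piR]
    refine Finset.sum_congr rfl fun n _ => ?_
    by_cases hn : n.Prime
    · rw [if_pos hn, if_pos hn]
      have : 0 < Real.log n := Real.log_pos (by exact_mod_cast hn.one_lt)
      field_simp
    · rw [if_neg hn, if_neg hn, mul_zero]
  rw [e1, h, intervalIntegral.integral_of_le hx]
  have e2 : ∫ t in Ioc 2 x, deriv (fun t => (Real.log t)⁻¹) t *
      ∑ k ∈ Finset.Icc 0 ⌊t⌋₊, (if k.Prime then b k * Real.log k else 0) =
      -∫ t in Ioc 2 x, thR b t / (t * Real.log t ^ 2) := by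
    rw [← integral_neg]
    refine setIntegral_congr_fun measurableSet_Ioc fun t ht => ?_
    have h2 : 2 ≤ t := ht.1.le
    have h3 := log_pos_of_two_le h2
    rw [(hder t h2).deriv, thR]
    field_simp
  rw [e2, thR]
  ring

lemma li_parts {x : ℝ} (hx : 2 ≤ x) : li x = x / Real.log x - 2 / Real.log 2 +
    ∫ t in (2 : ℝ)..x, 1 / Real.log t ^ 2 := by
  have hder : ∀ t ∈ uIcc 2 x, HasDerivAt (fun t => t / Real.log t)
      (1 / Real.log t - 1 / Real.log t ^ 2) t := by
    intro t ht
    have h2 := mem_two hx ht
    have h3 := log_pos_of_two_le h2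
    have h4 := (hasDerivAt_id t).div (Real.hasDerivAt_log (by linarith)) h3.ne'
    convert! h4 using 1
    have : t ≠ 0 := by linarith
    simp only [id]
    field_simp
  have hc1 : ContinuousOn (fun t => 1 / Real.log t) (uIcc 2 x) := by
    simpa using contOn_inv_log hx 1
  have i1 : IntervalIntegrable (fun t => 1 / Real.log t) volume 2 x := hc1.intervalIntegrable
  have i2 : IntervalIntegrable (fun t => 1 / Real.log t ^ 2) volume 2 x :=
    (contOn_inv_log hx 2).intervalIntegrable
  have h := intervalIntegral.integral_eq_sub_of_hasDerivAt hder (i1.sub i2)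
  rw [intervalIntegral.integral_sub i1 i2] at h
  rw [li]
  linarith

/-- comparison integral -/
noncomputable def Ic (x : ℝ) : ℝ := ∫ t in (2 : ℝ)..x, 1 / (Real.sqrt t * Real.log t)

lemma contOn_Ic {x : ℝ} (hx : 2 ≤ x) :
    ContinuousOn (fun t => 1 / (Real.sqrt t * Real.log t)) (uIcc 2 x) := by
  intro t ht
  have h2 := mem_two hx ht
  have h3 := log_pos_of_two_le h2
  apply ContinuousAt.continuousWithinAt
  have h4 : ContinuousAt Real.log t := Real.continuousAt_log (by linarith)
  have h5 : ContinuousAt Real.sqrt t := Real.continuous_sqrt.continuousAt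
  have h6 : 0 < Real.sqrt t := Real.sqrt_pos.2 (by linarith)
  exact continuousAt_const.div (h5.mul h4) (by positivity)

lemma one_le_two_mul {x : ℝ} (hx : 2 ≤ x) : 1 ≤ 2 * (Real.sqrt x / Real.log x) := by
  have h1 := log_pos_of_two_le hx
  have h2 : 0 < Real.sqrt x := Real.sqrt_pos.2 (by linarith)
  have h3 : Real.log x = 2 * Real.log (Real.sqrt x) := by
    rw [Real.log_sqrt (by linarith)]; ring
  have h4 : Real.log (Real.sqrt x) ≤ Real.sqrt x := by
    have := Real.log_le_sub_one_of_pos h2
    linarith
  rw [← mul_div_assoc, le_div_iff₀ h1]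
  linarith

lemma Ic_le : ∃ A, 0 ≤ A ∧ ∀ x, 2 ≤ x → Ic x ≤ A * (Real.sqrt x / Real.log x) := by
  set a : ℝ := Real.exp 4 with ha
  have ha2 : 2 ≤ a := by
    have := Real.add_one_le_exp (4 : ℝ)
    linarith
  have hnn : ∀ t, 2 ≤ t → 0 ≤ 1 / (Real.sqrt t * Real.log t) := by
    intro t ht
    have := log_pos_of_two_le ht
    positivity
  have hIa : 0 ≤ Ic a := intervalIntegral.integral_nonneg ha2 fun t ht => hnn t ht.1
  refine ⟨2 * Ic a + 4, by positivity, fun x hx => ?_⟩
  have h1 := one_le_two_mul hx
  have h2 : Ic x ≤ Ic a + 4 * (Real.sqrt x / Real.log x) := by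
    have hlog := log_pos_of_two_le hx
    rcases le_total x a with hxa | hxa
    · have h3 : Ic x ≤ Ic a := by
        rw [Ic, Ic]
        apply intervalIntegral.integral_mono_interval le_rfl hx hxa
        · filter_upwards [ae_restrict_mem measurableSet_Ioc] with t ht
          exact hnn t ht.1.le
        · exact (contOn_Ic ha2).intervalIntegrable
      have : 0 ≤ 4 * (Real.sqrt x / Real.log x) := by positivity
      linarith
    · have hsub : uIcc a x ⊆ uIcc 2 x := by
        rw [uIcc_of_le hxa, uIcc_of_le hx]
        exact Icc_subset_Icc_left ha2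
      have hcx : IntervalIntegrable (fun t => 1 / (Real.sqrt t * Real.log t)) volume a x :=
        ((contOn_Ic hx).mono hsub).intervalIntegrable
      have h3 : Ic x = Ic a + ∫ t in a..x, 1 / (Real.sqrt t * Real.log t) := by
        rw [Ic, Ic, intervalIntegral.integral_add_adjacent_intervals
          (contOn_Ic ha2).intervalIntegrable hcx]
      have hder : ∀ t ∈ uIcc a x, HasDerivAt (fun t => 4 * (Real.sqrt t / Real.log t))
          (4 * ((1 / (2 * Real.sqrt t) * Real.log t - Real.sqrt t * t⁻¹) / Real.log t ^ 2)) t := by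
        intro t ht
        have h2 := mem_two hx (hsub ht)
        have h3 := log_pos_of_two_le h2
        exact ((Real.hasDerivAt_sqrt (by linarith)).div (Real.hasDerivAt_log (by linarith))
          h3.ne').const_mul 4
      have hcd : ContinuousOn (fun t : ℝ =>
          4 * ((1 / (2 * Real.sqrt t) * Real.log t - Real.sqrt t * t⁻¹) / Real.log t ^ 2))
          (uIcc a x) := by
        intro t ht
        have h2 := mem_two hx (hsub ht)
        have h3 := log_pos_of_two_le h2
        apply ContinuousAt.continuousWithinAt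
        have h4 : ContinuousAt Real.log t := Real.continuousAt_log (by linarith)
        have h5 : ContinuousAt Real.sqrt t := Real.continuous_sqrt.continuousAt
        have h6 : 0 < Real.sqrt t := Real.sqrt_pos.2 (by linarith)
        have h7 : ContinuousAt (fun t : ℝ => t⁻¹) t := continuousAt_inv₀ (by linarith)
        have h8 : ContinuousAt (fun t : ℝ => 1 / (2 * Real.sqrt t)) t :=
          continuousAt_const.div (continuousAt_const.mul h5) (by positivity)
        exact continuousAt_const.mul ((((h8.mul h4).sub (h5.mul h7))).div (h4.pow 2)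
          (by positivity))
      have h4 := intervalIntegral.integral_eq_sub_of_hasDerivAt hder hcd.intervalIntegrable
      have h5 : ∫ t in a..x, 1 / (Real.sqrt t * Real.log t) ≤
          ∫ t in a..x, 4 * ((1 / (2 * Real.sqrt t) * Real.log t - Real.sqrt t * t⁻¹) /
            Real.log t ^ 2) := by
        apply intervalIntegral.integral_mono_on hxa hcx hcd.intervalIntegrable
        intro t ht
        have ht2 : 2 ≤ t := ha2.trans ht.1
        have h4 : 4 ≤ Real.log t := by
          have h := Real.log_le_log (Real.exp_pos 4) ht.1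
          rwa [Real.log_exp] at h
        have ht0 : 0 < t := by linarith
        have h6 : 0 < Real.sqrt t := Real.sqrt_pos.2 ht0
        have h7 : Real.sqrt t * t⁻¹ = 1 / Real.sqrt t := by
          have h8 : t = Real.sqrt t * Real.sqrt t := (Real.mul_self_sqrt ht0.le).symm
          field_simp
          rw [sq]
          exact h8.symm
        rw [h7]
        have h9 : 4 * ((1 / (2 * Real.sqrt t) * Real.log t - 1 / Real.sqrt t) /
            Real.log t ^ 2) = (2 * Real.log t - 4) / (Real.sqrt t * Real.log t ^ 2) := by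
          field_simp
          ring
        rw [h9, div_le_div_iff₀ (by positivity) (by positivity)]
        have h10 : 0 ≤ Real.sqrt t * Real.log t := by positivity
        nlinarith
      have h6 : 0 ≤ 4 * (Real.sqrt a / Real.log a) := by
        have := log_pos_of_two_le ha2
        positivity
      rw [h3]
      linarith
  have h3 : 0 ≤ Ic a * (2 * (Real.sqrt x / Real.log x) - 1) := mul_nonneg hIa (by linarith)
  linarith

lemma exp_half_log {x : ℝ} (hx : 0 < x) : Real.exp (1 / 2 * Real.log x) = Real.sqrt x := by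
  have h1 : Real.exp (Real.log (Real.sqrt x)) = Real.sqrt x :=
    Real.exp_log (Real.sqrt_pos.2 hx)
  rw [Real.log_sqrt hx.le] at h1
  rw [← h1]
  congr 1
  ring

lemma gR_log {b : ℕ → ℝ} (β : ℝ) {x : ℝ} (hx : 0 < x) :
    gR b β (Real.log x) = (psiR b x - β * x) / Real.sqrt x := by
  have h2 : 0 < Real.sqrt x := Real.sqrt_pos.2 hx
  rw [gR, Real.exp_neg, exp_half_log hx, Real.exp_log hx]
  have h3 : x = Real.sqrt x * Real.sqrt x := (Real.mul_self_sqrt hx.le).symm
  field_simp
  rw [sq, ← h3]
  ring

end Pool.Agent.Osc
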