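import Mathlib
import Pool.Agent.Osc.Trans2

/-!
# Comparison of the normalised prime counting error with the normalised psi error
-/

open Filter Topology MeasureTheory Set

namespace Pool.Agent.Osc

lemma measurable_thR {b : ℕ → ℝ} : Measurable (thR b) := by
  classical
  have h1 : thR b = (fun k : ℕ => ∑ n ∈ Finset.Icc 0 k, if n.Prime then b n * Real.log n else 0) ∘
      (fun x : ℝ => ⌊x⌋₊) := by
    funext x
    simp only [thR, Function.comp]
  rw [h1]
  exact (measurable_from_top).comp Nat.measurable_floor

lemma ii_of_bound {f : ℝ → ℝ} (hm : Measurable f) {C : ℝ} (hC : ∀ t, 2 ≤ t → |f t| ≤ C * t)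
    {x : ℝ} (hx : 2 ≤ x) :
    IntervalIntegrable (fun t => f t / (t * Real.log t ^ 2)) volume 2 x := by
  have h1 : IntervalIntegrable (fun t => C * (1 / Real.log t ^ 2)) volume 2 x :=
    ((contOn_inv_log hx 2).intervalIntegrable).const_mul C
  refine h1.mono_fun' ?_ ?_
  · apply Measurable.aestronglyMeasurable
    exact hm.div (measurable_id.mul (Real.measurable_log.pow_const 2))
  · filter_upwards [ae_restrict_mem measurableSet_uIoc] with t ht
    rw [uIoc_of_le hx] at ht
    have h2 : 2 ≤ t := ht.1.le
    have h3 := log_pos_of_two_le h2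
    have h4 := hC t h2
    have ht0 : 0 < t := by linarith
    rw [Real.norm_eq_abs, abs_div, abs_of_pos (a := t * Real.log t ^ 2) (by positivity),
      div_le_iff₀ (by positivity)]
    calc |f t| ≤ C * t := h4
      _ = _ := by field_simp

theorem transfer {b : ℕ → ℝ} {B : ℝ} (hb : ∀ n, |b n| ≤ B) {β K : ℝ}
    (hK : ∀ u, 0 ≤ u → |∫ t in (0 : ℝ)..u, gR b β t| ≤ K * (1 + u)) :
    ∃ K' : ℝ, ∀ x, 2 ≤ x →
      |Real.log x / Real.sqrt x * (piR b x - β * li x) - gR b β (Real.log x)| ≤ K' := by
  have hB := B_nonneg hb
  have hK0 : 0 ≤ K := by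
    have := (abs_nonneg _).trans (hK 0 le_rfl)
    simpa using this
  obtain ⟨C, hC0, hC⟩ := abs_psi_sub_th_le hb
  obtain ⟨A, hA0, hA⟩ := Ic_le
  set G : ℝ → ℝ := fun u => ∫ t in (0 : ℝ)..u, gR b β t with hG
  have hGc : Continuous G :=
    intervalIntegral.continuous_primitive (fun x y => gR_intervalIntegrable hb β x y) 0
  set w : ℝ → ℝ := fun t => Real.sqrt t / Real.log t ^ 2 with hw
  set w' : ℝ → ℝ := fun t => (1 / (2 * Real.sqrt t) * Real.log t ^ 2 -
    Real.sqrt t * (2 * Real.log t * t⁻¹)) / (Real.log t ^ 2) ^ 2 with hw'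
  set c₂ : ℝ := |w 2 * G (Real.log 2)| with hc₂
  refine ⟨C + (2 * |2 * β / Real.log 2| + (3 * K + 2 * c₂ + 15 * K * A) + 2 * C * A),
    fun x hx => ?_⟩
  have hx0 : 0 < x := by linarith
  have hs0 : 0 < Real.sqrt x := Real.sqrt_pos.2 hx0
  have hl0 := log_pos_of_two_le hx
  have hone := one_le_two_mul hx
  set X : ℝ := Real.sqrt x / Real.log x with hX
  have hX0 : 0 < X := by positivity
  have huIcc : uIcc (2 : ℝ) x = Icc 2 x := uIcc_of_le hx
  -- the three integrals
  have i1 : IntervalIntegrable (fun t => psiR b t / (t * Real.log t ^ 2)) volume 2 x :=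
    ii_of_bound measurable_psiR (C := B * 6) (fun t ht => abs_psiR_le hb (by linarith)) hx
  have hdiff : ∀ t, 2 ≤ t → |psiR b t - thR b t| ≤ C * t := by
    intro t ht
    refine (hC t).trans (mul_le_mul_of_nonneg_left ?_ hC0)
    rw [Real.sqrt_le_left (by linarith)]
    nlinarith
  have i2 : IntervalIntegrable (fun t => (psiR b t - thR b t) / (t * Real.log t ^ 2))
      volume 2 x := ii_of_bound (measurable_psiR.sub measurable_thR) hdiff hx
  have i3 : IntervalIntegrable (fun t => β * (1 / Real.log t ^ 2)) volume 2 x :=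
    ((contOn_inv_log hx 2).intervalIntegrable).const_mul β
  -- decomposition
  have hdec : piR b x - β * li x = (thR b x - β * x) / Real.log x + 2 * β / Real.log 2 +
      (∫ t in (2 : ℝ)..x, (psiR b t - β * t) / (t * Real.log t ^ 2)) -
      ∫ t in (2 : ℝ)..x, (psiR b t - thR b t) / (t * Real.log t ^ 2) := by
    rw [abel_summation hx, li_parts hx]
    have e1 : ∫ t in (2 : ℝ)..x, thR b t / (t * Real.log t ^ 2) =
        (∫ t in (2 : ℝ)..x, psiR b t / (t * Real.log t ^ 2)) -
        ∫ t in (2 : ℝ)..x, (psiR b t - thR b t) / (t * Real.log t ^ 2) := by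
      rw [← intervalIntegral.integral_sub i1 i2]
      congr 1
      funext t
      ring
    have e2 : ∫ t in (2 : ℝ)..x, (psiR b t - β * t) / (t * Real.log t ^ 2) =
        (∫ t in (2 : ℝ)..x, psiR b t / (t * Real.log t ^ 2)) -
        ∫ t in (2 : ℝ)..x, β * (1 / Real.log t ^ 2) := by
      rw [← intervalIntegral.integral_sub i1 i3]
      refine intervalIntegral.integral_congr fun t ht => ?_
      have h2 := mem_two hx ht
      have h3 := log_pos_of_two_le h2
      have : t ≠ 0 := by linarith
      field_simp
    rw [e1, e2, intervalIntegral.integral_const_mul]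
    ring
  -- bound for Q
  have hQ : |∫ t in (2 : ℝ)..x, (psiR b t - thR b t) / (t * Real.log t ^ 2)| ≤
      2 * C * A * X := by
    have h1 : |∫ t in (2 : ℝ)..x, (psiR b t - thR b t) / (t * Real.log t ^ 2)| ≤
        ∫ t in (2 : ℝ)..x, 2 * C * (1 / (Real.sqrt t * Real.log t)) := by
      rw [← Real.norm_eq_abs]
      refine intervalIntegral.norm_integral_le_of_norm_le (μ := volume) hx
        (Eventually.of_forall fun t ht => ?_)
        (((contOn_Ic hx).intervalIntegrable).const_mul (2 * C))
      have h2 : 2 ≤ t := ht.1.le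
      have h3 := log_pos_of_two_le h2
      have h3' := log_ge_half h2
      have ht0 : 0 < t := by linarith
      have h4 : 0 < Real.sqrt t := Real.sqrt_pos.2 ht0
      have h5 : Real.sqrt t * Real.sqrt t = t := Real.mul_self_sqrt ht0.le
      rw [Real.norm_eq_abs, abs_div, abs_of_pos (a := t * Real.log t ^ 2) (by positivity),
        div_le_iff₀ (by positivity)]
      calc |psiR b t - thR b t| ≤ C * Real.sqrt t := hC t
        _ ≤ C * Real.sqrt t * (2 * Real.log t) := by
            apply le_mul_of_one_le_right (by positivity)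
            linarith
        _ = 2 * C * (1 / (Real.sqrt t * Real.log t)) *
            ((Real.sqrt t * Real.sqrt t) * Real.log t ^ 2) := by
            field_simp
        _ = _ := by rw [h5]
    rw [intervalIntegral.integral_const_mul] at h1
    calc _ ≤ 2 * C * Ic x := h1
      _ ≤ 2 * C * (A * X) := by
          gcongr
          exact hA x hx
      _ = _ := by ring
  -- integration by parts
  have hwder : ∀ t, 2 ≤ t → HasDerivAt w (w' t) t := by
    intro t ht
    have h3 := log_pos_of_two_le ht
    have h4 := (Real.hasDerivAt_sqrt (by linarith : t ≠ 0)).div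
      ((Real.hasDerivAt_log (by linarith : t ≠ 0)).pow 2) (pow_pos h3 2).ne'
    convert! h4 using 1
    rw [hw']
    simp
  have hHder : ∀ t, 2 ≤ t → HasDerivWithinAt (fun t => G (Real.log t))
      (gR b β (Real.log t) * t⁻¹) (Ioi t) t := by
    intro t ht
    have h1 := hasDerivWithinAt_GR hb β (Real.log t)
    have h2 : HasDerivWithinAt Real.log t⁻¹ (Ioi t) t :=
      (Real.hasDerivAt_log (by linarith)).hasDerivWithinAt
    exact h1.comp t h2 (fun s hs => Real.log_lt_log (by linarith) hs)
  have hwc : ContinuousOn w (uIcc 2 x) := by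
    intro t ht
    exact (hwder t (mem_two hx ht)).continuousAt.continuousWithinAt
  have hHc : ContinuousOn (fun t => G (Real.log t)) (uIcc 2 x) := by
    intro t ht
    have := mem_two hx ht
    apply ContinuousAt.continuousWithinAt
    exact hGc.continuousAt.comp (Real.continuousAt_log (by linarith))
  have hw'c : ContinuousOn w' (uIcc 2 x) := by
    intro t ht
    have h2 := mem_two hx ht
    have h3 := log_pos_of_two_le h2
    apply ContinuousAt.continuousWithinAt
    have h4 : ContinuousAt Real.log t := Real.continuousAt_log (by linarith)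
    have h5 : ContinuousAt Real.sqrt t := Real.continuous_sqrt.continuousAt
    have h6 : 0 < Real.sqrt t := Real.sqrt_pos.2 (by linarith)
    have h7 : ContinuousAt (fun t : ℝ => t⁻¹) t := continuousAt_inv₀ (by linarith)
    have h8 : ContinuousAt (fun t : ℝ => 1 / (2 * Real.sqrt t)) t :=
      continuousAt_const.div (continuousAt_const.mul h5) (by positivity)
    exact ((h8.mul (h4.pow 2)).sub (h5.mul ((continuousAt_const.mul h4).mul h7))).div
      ((h4.pow 2).pow 2) (by positivity)
  have hH'i : IntervalIntegrable (fun t => gR b β (Real.log t) * t⁻¹) volume 2 x := by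
    have h1 : IntervalIntegrable (fun _ : ℝ => B * 6 + |β|) volume 2 x :=
      intervalIntegrable_const
    refine h1.mono_fun' ?_ ?_
    · apply Measurable.aestronglyMeasurable
      exact ((measurable_gR β).comp Real.measurable_log).mul measurable_id.inv
    · filter_upwards [ae_restrict_mem measurableSet_uIoc] with t ht
      rw [uIoc_of_le hx] at ht
      have h2 : 2 ≤ t := ht.1.le
      have ht0 : 0 < t := by linarith
      have h3 := abs_gR_le hb β (Real.log t)
      rw [exp_half_log ht0] at h3
      rw [Real.norm_eq_abs, abs_mul, abs_of_pos (a := t⁻¹) (by positivity)]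
      have h4 : Real.sqrt t ≤ t := by
        rw [Real.sqrt_le_left (by linarith)]
        nlinarith
      calc |gR b β (Real.log t)| * t⁻¹ ≤ ((B * 6 + |β|) * Real.sqrt t) * t⁻¹ := by gcongr
        _ ≤ ((B * 6 + |β|) * t) * t⁻¹ := by gcongr
        _ = _ := by field_simp
  have hmm : min (2 : ℝ) x = 2 := min_eq_left hx
  have hibp := intervalIntegral.integral_mul_deriv_eq_deriv_mul_of_hasDeriv_right
    (u := w) (v := fun t => G (Real.log t)) (u' := w') (v' := fun t => gR b β (Real.log t) * t⁻¹)
    hwc hHc
    (fun t ht => by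
      rw [hmm] at ht
      exact (hwder t ht.1.le).hasDerivWithinAt)
    (fun t ht => by
      rw [hmm] at ht
      exact hHder t ht.1.le)
    hw'c.intervalIntegrable hH'i
  have hPeq : ∫ t in (2 : ℝ)..x, (psiR b t - β * t) / (t * Real.log t ^ 2) =
      ∫ t in (2 : ℝ)..x, w t * (gR b β (Real.log t) * t⁻¹) := by
    refine intervalIntegral.integral_congr fun t ht => ?_
    have h2 := mem_two hx ht
    have h3 := log_pos_of_two_le h2
    have ht0 : 0 < t := by linarith
    have h4 : 0 < Real.sqrt t := Real.sqrt_pos.2 ht0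
    simp only [hw]
    rw [gR_log β ht0]
    field_simp
  have hGb : ∀ t, 2 ≤ t → |G (Real.log t)| ≤ 3 * K * Real.log t := by
    intro t ht
    have h3 := log_pos_of_two_le ht
    have h4 := log_ge_half ht
    refine (hK _ h3.le).trans ?_
    nlinarith
  have hP : |∫ t in (2 : ℝ)..x, (psiR b t - β * t) / (t * Real.log t ^ 2)| ≤
      (3 * K + 2 * c₂ + 15 * K * A) * X := by
    rw [hPeq, hibp]
    have b1 : |w x * G (Real.log x)| ≤ 3 * K * X := by
      rw [abs_mul, abs_of_pos (a := w x) (by rw [hw]; positivity)]
      calc w x * |G (Real.log x)| ≤ w x * (3 * K * Real.log x) := by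
            apply mul_le_mul_of_nonneg_left (hGb x hx)
            rw [hw]; positivity
        _ = 3 * K * X := by
            rw [hw, hX]
            field_simp
    have b2 : |w 2 * G (Real.log 2)| ≤ 2 * c₂ * X := by
      rw [← hc₂]
      have : 0 ≤ c₂ := abs_nonneg _
      nlinarith
    have b3 : |∫ t in (2 : ℝ)..x, w' t * G (Real.log t)| ≤ 15 * K * A * X := by
      have h1 : |∫ t in (2 : ℝ)..x, w' t * G (Real.log t)| ≤
          ∫ t in (2 : ℝ)..x, 15 * K * (1 / (Real.sqrt t * Real.log t)) := by
        rw [← Real.norm_eq_abs]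
        refine intervalIntegral.norm_integral_le_of_norm_le (μ := volume) hx
          (Eventually.of_forall fun t ht => ?_)
          (((contOn_Ic hx).intervalIntegrable).const_mul (15 * K))
        have h2 : 2 ≤ t := ht.1.le
        have h3 := log_pos_of_two_le h2
        have h3' := log_ge_half h2
        have ht0 : 0 < t := by linarith
        have h4 : 0 < Real.sqrt t := Real.sqrt_pos.2 ht0
        have h5 : Real.sqrt t * t⁻¹ = 1 / Real.sqrt t := by
          have h8 : t = Real.sqrt t * Real.sqrt t := (Real.mul_self_sqrt ht0.le).symm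
          field_simp
          rw [sq]
          exact h8.symm
        have e1 : w' t = (1 / 2 * Real.log t - 2) / (Real.sqrt t * Real.log t ^ 3) := by
          rw [hw']
          simp only
          have : Real.sqrt t * (2 * Real.log t * t⁻¹) = 2 * Real.log t *
              (Real.sqrt t * t⁻¹) := by ring
          rw [this, h5]
          field_simp
        have e2 : |w' t| ≤ 5 / (Real.sqrt t * Real.log t ^ 2) := by
          rw [e1, abs_div, abs_of_pos (a := Real.sqrt t * Real.log t ^ 3) (by positivity),
            div_le_div_iff₀ (by positivity) (by positivity)]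
          have h6 : |1 / 2 * Real.log t - 2| ≤ 5 * Real.log t := by
            rw [abs_le]
            constructor <;> linarith
          calc |1 / 2 * Real.log t - 2| * (Real.sqrt t * Real.log t ^ 2)
              ≤ (5 * Real.log t) * (Real.sqrt t * Real.log t ^ 2) := by gcongr
            _ = _ := by ring
        rw [Real.norm_eq_abs, abs_mul]
        calc |w' t| * |G (Real.log t)| ≤ (5 / (Real.sqrt t * Real.log t ^ 2)) *
              (3 * K * Real.log t) := mul_le_mul e2 (hGb t h2) (abs_nonneg _) (by positivity)
          _ = _ := by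
            field_simp
            ring
      rw [intervalIntegral.integral_const_mul] at h1
      calc _ ≤ 15 * K * Ic x := h1
        _ ≤ 15 * K * (A * X) := by
            gcongr
            exact hA x hx
        _ = _ := by ring
    calc |w x * G (Real.log x) - w 2 * G (Real.log 2) -
          ∫ t in (2 : ℝ)..x, w' t * G (Real.log t)|
        ≤ |w x * G (Real.log x)| + |w 2 * G (Real.log 2)| +
          |∫ t in (2 : ℝ)..x, w' t * G (Real.log t)| := by
          refine (abs_sub _ _).trans ?_
          gcongr
          exact abs_sub _ _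
      _ ≤ 3 * K * X + 2 * c₂ * X + 15 * K * A * X := add_le_add (add_le_add b1 b2) b3
      _ = _ := by ring
  -- conclusion
  rw [hdec, gR_log β hx0]
  set P := ∫ t in (2 : ℝ)..x, (psiR b t - β * t) / (t * Real.log t ^ 2) with hPd
  set Q := ∫ t in (2 : ℝ)..x, (psiR b t - thR b t) / (t * Real.log t ^ 2) with hQd
  have e : Real.log x / Real.sqrt x * ((thR b x - β * x) / Real.log x + 2 * β / Real.log 2 +
      P - Q) - (psiR b x - β * x) / Real.sqrt x =
      -((psiR b x - thR b x) / Real.sqrt x) + (2 * β / Real.log 2 + P - Q) / X := by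
    rw [hX]
    field_simp
    ring
  rw [e]
  have h1 : |(psiR b x - thR b x) / Real.sqrt x| ≤ C := by
    rw [abs_div, abs_of_pos hs0, div_le_iff₀ hs0]
    exact hC x
  have h2 : |(2 * β / Real.log 2 + P - Q) / X| ≤
      2 * |2 * β / Real.log 2| + (3 * K + 2 * c₂ + 15 * K * A) + 2 * C * A := by
    rw [abs_div, abs_of_pos hX0, div_le_iff₀ hX0]
    have h3 : |2 * β / Real.log 2| ≤ 2 * |2 * β / Real.log 2| * X := by
      have := abs_nonneg (2 * β / Real.log 2)
      nlinarith
    calc |2 * β / Real.log 2 + P - Q| ≤ |2 * β / Real.log 2| + |P| + |Q| := by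
          refine (abs_sub _ _).trans ?_
          gcongr
          exact abs_add_le _ _
      _ ≤ 2 * |2 * β / Real.log 2| * X + (3 * K + 2 * c₂ + 15 * K * A) * X + 2 * C * A * X :=
          add_le_add (add_le_add h3 hP) hQ
      _ = _ := by ring
  calc |-((psiR b x - thR b x) / Real.sqrt x) + (2 * β / Real.log 2 + P - Q) / X|
      ≤ |-((psiR b x - thR b x) / Real.sqrt x)| + |(2 * β / Real.log 2 + P - Q) / X| :=
        abs_add_le _ _
    _ ≤ C + (2 * |2 * β / Real.log 2| + (3 * K + 2 * c₂ + 15 * K * A) + 2 * C * A) := by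
        rw [abs_neg]
        exact add_le_add h1 h2

end Pool.Agent.Osc
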