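import Mathlib
import Pool.Agent.Osc.Diff
import Pool.Agent.Osc.Trans3

/-!
# Assembly
-/

open Complex Filter Topology MeasureTheory Set DirichletCharacter

namespace Pool.Agent.Osc

section chars
variable {q : ℕ} [NeZero q]

lemma phi_eq_zero {n : ℕ} {u : ℝ} (hu : 0 ≤ u) (h : u < Real.log n) : phi n u = 0 := by
  rw [phi]
  apply intervalIntegral.integral_zero_ae
  refine Eventually.of_forall fun t ht => ?_
  rw [uIoc_of_le hu] at ht
  rw [if_neg, mul_zero]
  push Not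
  exact lt_of_le_of_lt ht.2 h

lemma psiR_exp_eq (c : (ZMod q)ˣ → ℝ) {t u : ℝ} (ht : 0 ≤ t) (htu : t ≤ u) :
    ∑ n ∈ Finset.Icc 0 ⌊Real.exp u⌋₊, av c n * (if Real.log n ≤ t then 1 else 0) =
      ((psiR (ct c) (Real.exp t) : ℝ) : ℂ) := by
  have hsub : Finset.Icc 0 ⌊Real.exp t⌋₊ ⊆ Finset.Icc 0 ⌊Real.exp u⌋₊ :=
    Finset.Icc_subset_Icc_right (Nat.floor_le_floor (Real.exp_le_exp.2 htu))
  rw [psiR, Complex.ofReal_sum, ← Finset.sum_subset hsub]
  · refine Finset.sum_congr rfl fun n hn => ?_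
    rw [Finset.mem_Icc] at hn
    have h1 : Real.log n ≤ t := by
      by_cases h0 : n = 0
      · simp [h0, ht]
      · have hn0 : (0 : ℝ) < n := by exact_mod_cast Nat.pos_of_ne_zero h0
        rw [Real.log_le_iff_le_exp hn0]
        exact (Nat.le_floor_iff (Real.exp_pos t).le).1 hn.2
    rw [if_pos h1, mul_one, av]
    push_cast
    rfl
  · intro n _ hn
    rw [Finset.mem_Icc, not_and] at hn
    have h1 := hn (Nat.zero_le n)
    rw [Nat.le_floor_iff (Real.exp_pos t).le] at h1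
    push Not at h1
    have hn0 : (0 : ℝ) < n := lt_trans (Real.exp_pos t) h1
    rw [if_neg, mul_zero]
    rw [Real.log_le_iff_le_exp hn0]
    exact not_le.2 h1

lemma J_av_eq (c : (ZMod q)ˣ → ℝ) {u : ℝ} (hu : 0 ≤ u) : J (av c) u =
    ∫ t in (0 : ℝ)..u, ((Real.exp (-(1 / 2 * t)) * psiR (ct c) (Real.exp t) : ℝ) : ℂ) := by
  rw [J, tsum_eq_sum (s := Finset.Icc 0 ⌊Real.exp u⌋₊)]
  · have h1 : ∀ n ∈ Finset.Icc 0 ⌊Real.exp u⌋₊, av c n * phi n u =
        ∫ t in (0 : ℝ)..u, av c n * (wt t * (if Real.log n ≤ t then 1 else 0)) := by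
      intro n _
      rw [phi, intervalIntegral.integral_const_mul]
    rw [Finset.sum_congr rfl h1, ← intervalIntegral.integral_finsetSum]
    · refine intervalIntegral.integral_congr fun t ht => ?_
      rw [uIcc_of_le hu] at ht
      rw [Complex.ofReal_mul, ← psiR_exp_eq c ht.1 ht.2, Finset.mul_sum]
      refine Finset.sum_congr rfl fun n _ => ?_
      rw [wt]
      ring
    · intro n _
      exact (intervalIntegrable_step n 0 u).const_mul _
  · intro n hn
    rw [Finset.mem_Icc, not_and] at hn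
    have h1 := hn (Nat.zero_le n)
    rw [Nat.le_floor_iff (Real.exp_pos u).le] at h1
    push Not at h1
    have hn0 : (0 : ℝ) < n := lt_trans (Real.exp_pos u) h1
    rw [phi_eq_zero hu, mul_zero]
    rw [Real.lt_log_iff_exp_lt hn0]
    exact h1

lemma Gc_eq (c : (ZMod q)ˣ → ℝ) {u : ℝ} (hu : 0 ≤ u) :
    Gc c u = ((∫ t in (0 : ℝ)..u, gR (ct c) (cbar c) t : ℝ) : ℂ) := by
  have hb := ct_bound c
  have h1 : ∀ t : ℝ, gR (ct c) (cbar c) t =
      Real.exp (-(1 / 2 * t)) * psiR (ct c) (Real.exp t) - cbar c * Real.exp (1 / 2 * t) :=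
    fun t => rfl
  have i2 : IntervalIntegrable (fun t => cbar c * Real.exp (1 / 2 * t)) volume 0 u :=
    Continuous.intervalIntegrable (by fun_prop) _ _
  have i1 : IntervalIntegrable (fun t => Real.exp (-(1 / 2 * t)) * psiR (ct c) (Real.exp t))
      volume 0 u := by
    have := (gR_intervalIntegrable hb (cbar c) 0 u).add i2
    refine this.congr fun t _ => ?_
    simp only [h1]
    ring
  simp_rw [h1]
  rw [intervalIntegral.integral_sub i1 i2, Complex.ofReal_sub, Gc, J_av_eq c hu,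
    intervalIntegral.integral_ofReal, intervalIntegral.integral_const_mul]
  congr 1
  rw [E, Complex.ofReal_mul]
  congr 1
  rw [← intervalIntegral.integral_ofReal]
  congr 1
  funext t
  push_cast
  rfl

/-- the weighted normalised error term -/
noncomputable def Sc (c : (ZMod q)ˣ → ℝ) (x : ℝ) : ℝ :=
  Real.log x / Real.sqrt x * (piR (ct c) x - cbar c * li x)

lemma Ps_bound {u : ℝ} (hu : 0 ≤ u) : ‖Ps 0 u‖ ≤ ∑' k : ℕ, 5 / (1 + (k : ℝ)) ^ 2 :=
  tsum_of_norm_bounded summable_triv.hasSum fun k => norm_triv_term_le (Or.inl rfl) k hu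

lemma Gc_growth (hG : GRH q) (c : (ZMod q)ˣ → ℝ) : ∃ K : ℝ, ∀ u, 0 ≤ u →
    |∫ t in (0 : ℝ)..u, gR (ct c) (cbar c) t| ≤ K * (1 + u) := by
  obtain ⟨L, hL0, hL⟩ := Gc_formula c
  set T := ∑' ρ : ℂ, ‖Mw (chat c) ρ‖ / ‖ρ‖ ^ 2 with hT
  have hT0 : 0 ≤ T := tsum_nonneg fun ρ => by positivity
  set P := ∑' k : ℕ, 5 / (1 + (k : ℝ)) ^ 2 with hP
  have hP0 : 0 ≤ P := tsum_nonneg fun k => by positivity
  set F : ℝ → ℂ := fun u => Gc c u - AM (Mw (chat c)) u - (c 1 : ℂ) * Ps 0 u with hF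
  refine ⟨‖F 0‖ + L + 3 * T + |c 1| * P, fun u hu => ?_⟩
  have h1 : ‖F u‖ ≤ ‖F 0‖ + L * u := by
    have h2 := hL 0 u le_rfl hu
    rw [sub_zero, abs_of_nonneg hu] at h2
    calc ‖F u‖ = ‖F 0 + (F u - F 0)‖ := by congr 1; ring
      _ ≤ ‖F 0‖ + ‖F u - F 0‖ := norm_add_le _ _
      _ ≤ _ := by
        have : ‖F u - F 0‖ ≤ L * u := h2
        linarith
  have h2 : ‖AM (Mw (chat c)) u‖ ≤ T * (u + 3) := by
    have := norm_AM_le (summable_Mw (chat c)) (Mw_re hG (chat c)) u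
    rwa [abs_of_nonneg hu] at this
  have h3 : ‖(c 1 : ℂ) * Ps 0 u‖ ≤ |c 1| * P := by
    rw [norm_mul, Complex.norm_real, Real.norm_eq_abs]
    exact mul_le_mul_of_nonneg_left (Ps_bound hu) (abs_nonneg _)
  have h4 : Gc c u = F u + AM (Mw (chat c)) u + (c 1 : ℂ) * Ps 0 u := by rw [hF]; ring
  have h5 : |∫ t in (0 : ℝ)..u, gR (ct c) (cbar c) t| = ‖Gc c u‖ := by
    rw [Gc_eq c hu, Complex.norm_real, Real.norm_eq_abs]
  rw [h5, h4]
  have hF0 := norm_nonneg (F 0)
  calc ‖F u + AM (Mw (chat c)) u + (c 1 : ℂ) * Ps 0 u‖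
      ≤ ‖F u‖ + ‖AM (Mw (chat c)) u‖ + ‖(c 1 : ℂ) * Ps 0 u‖ := norm_add₃_le
    _ ≤ (‖F 0‖ + L * u) + T * (u + 3) + |c 1| * P := add_le_add (add_le_add h1 h2) h3
    _ ≤ _ := by
        have := mul_nonneg hF0 hu
        have := mul_nonneg (mul_nonneg (abs_nonneg (c 1)) hP0) hu
        have := mul_nonneg hT0 hu
        nlinarith

/-- comparison of `Sc` with the psi version -/
lemma Sc_compare (hG : GRH q) (c : (ZMod q)ˣ → ℝ) : ∃ K : ℝ, ∀ x, 2 ≤ x →
    |Sc c x - gR (ct c) (cbar c) (Real.log x)| ≤ K := by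
  obtain ⟨K, hK⟩ := Gc_growth hG c
  exact transfer (ct_bound c) hK

/-- if the weighted error is bounded above then the increments of the sum over zeros are -/
lemma AM_upper_of_Sc (hG : GRH q) (c : (ZMod q)ˣ → ℝ) {C : ℝ}
    (h : ∀ᶠ x in atTop, Sc c x ≤ C) :
    ∃ C' : ℝ, ∀ u h, 0 ≤ h → (AM (Mw (chat c)) (u + h) - AM (Mw (chat c)) u).re ≤ C' * h := by
  obtain ⟨K, hK⟩ := Sc_compare hG c
  obtain ⟨x₀, hx₀⟩ := eventually_atTop.1 h
  obtain ⟨L, hL0, hL⟩ := Gc_formula_far c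
  -- pointwise bound
  have h1 : ∀ u, max (Real.log (max x₀ 2)) 1 ≤ u → gR (ct c) (cbar c) u ≤ C + K := by
    intro u hu
    have hu1 : Real.log (max x₀ 2) ≤ u := (le_max_left _ _).trans hu
    have h2 : max x₀ 2 ≤ Real.exp u := by
      rw [← Real.log_le_iff_le_exp (lt_of_lt_of_le two_pos (le_max_right _ _))]
      exact hu1
    have h3 := hx₀ (Real.exp u) ((le_max_left _ _).trans h2)
    have h4 := hK (Real.exp u) ((le_max_right _ _).trans h2)
    rw [Real.log_exp] at h4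
    have := (abs_le.1 h4).1
    linarith
  refine ⟨C + K + L, AM_rec (summable_Mw (chat c)) (Mw_re hG (chat c))
    (u₀ := max (Real.log (max x₀ 2)) 1) ?_⟩
  intro u hu y hy
  have hu1 : 1 ≤ u := (le_max_right _ _).trans hu
  have hu0 : 0 ≤ u := by linarith
  have h2 := hL u (u + y) hu1 (by linarith)
  rw [add_sub_cancel_left, abs_of_nonneg hy] at h2
  have h3 := (Complex.abs_re_le_norm _).trans h2
  have h4 : (Gc c (u + y) - Gc c u).re ≤ (C + K) * y := by
    rw [Gc_eq c hu0, Gc_eq c (by linarith), ← Complex.ofReal_sub, Complex.ofReal_re]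
    rw [intervalIntegral.integral_interval_sub_left (gR_intervalIntegrable (ct_bound c) _ _ _)
      (gR_intervalIntegrable (ct_bound c) _ _ _)]
    have h5 : ∫ t in u..(u + y), gR (ct c) (cbar c) t ≤ ∫ t in u..(u + y), (C + K) := by
      apply intervalIntegral.integral_mono_on (by linarith)
        (gR_intervalIntegrable (ct_bound c) _ _ _) intervalIntegrable_const
      intro t ht
      exact h1 t (hu.trans ht.1)
    rw [intervalIntegral.integral_const, smul_eq_mul] at h5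
    calc _ ≤ _ := h5
      _ = _ := by ring
  simp only [Complex.sub_re] at h3 h4 ⊢
  have h5 := (abs_le.1 h3).1
  nlinarith

/-- lower bounds for increments of the sum over zeros give lower bounds for `Sc` -/
lemma Sc_lower_of_AM (hG : GRH q) (c : (ZMod q)ˣ → ℝ) {C : ℝ}
    (h : ∀ u h, 0 ≤ h → -(C * h) ≤ (AM (Mw (chat c)) (u + h) - AM (Mw (chat c)) u).re) :
    ∃ C' : ℝ, ∀ᶠ x in atTop, C' ≤ Sc c x := by
  obtain ⟨K, hK⟩ := Sc_compare hG c
  obtain ⟨L, hL0, hL⟩ := Gc_formula_far c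
  refine ⟨-(C + L) - K, ?_⟩
  filter_upwards [eventually_ge_atTop (Real.exp 1)] with x hx
  have hx0 : 0 < x := lt_of_lt_of_le (Real.exp_pos 1) hx
  have hx2 : 2 ≤ x := by
    have := Real.add_one_le_exp (1 : ℝ)
    linarith
  have hu : 1 ≤ Real.log x := by
    rw [Real.le_log_iff_exp_le hx0]
    exact hx
  have h1 : -(C + L) ≤ gR (ct c) (cbar c) (Real.log x) := by
    refine gR_ge_of_increment (ct_bound c) fun y hy => ?_
    have hu0 : 0 ≤ Real.log x := by linarith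
    have h2 := hL (Real.log x) (Real.log x + y) hu (by linarith)
    rw [add_sub_cancel_left, abs_of_nonneg hy] at h2
    have h3 := (Complex.abs_re_le_norm _).trans h2
    have h4 := h (Real.log x) y hy
    have h5 : (Gc c (Real.log x + y) - Gc c (Real.log x)).re =
        (∫ t in (0 : ℝ)..(Real.log x + y), gR (ct c) (cbar c) t) -
        ∫ t in (0 : ℝ)..(Real.log x), gR (ct c) (cbar c) t := by
      rw [Gc_eq c hu0, Gc_eq c (by linarith), ← Complex.ofReal_sub, Complex.ofReal_re]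
    rw [← h5]
    simp only [Complex.sub_re] at h3 h4 ⊢
    have h6 := (abs_le.1 h3).1
    nlinarith
  have h2 := (abs_le.1 (hK x hx2)).1
  linarith

lemma Mw_chat_inv (c : (ZMod q)ˣ → ℝ) :
    Mw (chat (fun a => c a⁻¹)) = fun ρ => Mw (chat c) (1 - ρ) := by
  rw [Mw_refl, chat_inv]

/-- boundedness above implies boundedness below for the reflected weight -/
theorem lower_of_upper (hG : GRH q) (c : (ZMod q)ˣ → ℝ) {C : ℝ}
    (h : ∀ᶠ x in atTop, Sc c x ≤ C) : ∃ C' : ℝ, ∀ᶠ x in atTop, C' ≤ Sc (fun a => c a⁻¹) x := by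
  obtain ⟨C₁, h1⟩ := AM_upper_of_Sc hG c h
  obtain ⟨C₂, h2⟩ := AM_refl_bound (summable_Mw (chat c)) (Mw_re hG (chat c)) h1
  rw [← Mw_chat_inv] at h2
  exact Sc_lower_of_AM hG _ h2

lemma AM_zero (M : ℂ → ℂ) : AM M 0 = 0 := by simp [AM, E]

/-- the main term near the origin -/
lemma AM_near_zero (c : (ZMod q)ˣ → ℝ) : ∃ L : ℝ, 0 ≤ L ∧ ∀ h, 0 ≤ h → h ≤ 1 →
    ‖AM (Mw (chat c)) h + (c 1 : ℂ) * Ps 0 h‖ ≤ L * h := by
  obtain ⟨L, hL0, hL⟩ := Gc_formula c
  set B := (∑ a : (ZMod q)ˣ, |c a|) * 6 + |cbar c| with hB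
  have hB0 : 0 ≤ B := by positivity
  refine ⟨L + B * Real.exp 1, by positivity, fun h hh hh1 => ?_⟩
  have h0 : Gc c 0 - AM (Mw (chat c)) 0 - (c 1 : ℂ) * Ps 0 0 = 0 := by
    rw [Gc_eq c le_rfl, AM_zero]
    simp [Ps, E]
  have h1 : ‖(Gc c h - AM (Mw (chat c)) h - (c 1 : ℂ) * Ps 0 h) -
      (Gc c 0 - AM (Mw (chat c)) 0 - (c 1 : ℂ) * Ps 0 0)‖ ≤ L * |h - 0| := hL 0 h le_rfl hh
  rw [h0, sub_zero, sub_zero, abs_of_nonneg hh] at h1
  have h2 : ‖Gc c h‖ ≤ B * Real.exp 1 * h := by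
    rw [Gc_eq c hh, Complex.norm_real]
    have h3 := intervalIntegral.norm_integral_le_of_norm_le_const (a := 0) (b := h)
      (C := B * Real.exp 1) (f := gR (ct c) (cbar c)) (by
        intro t ht
        rw [uIoc_of_le hh] at ht
        rw [Real.norm_eq_abs]
        refine (abs_gR_le (ct_bound c) (cbar c) t).trans ?_
        rw [← hB]
        apply mul_le_mul_of_nonneg_left _ hB0
        apply Real.exp_le_exp.2
        linarith [ht.2])
    rwa [sub_zero, abs_of_nonneg hh] at h3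
  have e : AM (Mw (chat c)) h + (c 1 : ℂ) * Ps 0 h =
      Gc c h - (Gc c h - AM (Mw (chat c)) h - (c 1 : ℂ) * Ps 0 h) := by ring
  rw [e]
  refine (norm_sub_le _ _).trans ?_
  calc _ ≤ B * Real.exp 1 * h + L * h := add_le_add h2 h1
    _ = _ := by ring

/-- the key unboundedness statement -/
theorem not_bounded_above (hG : GRH q) (c : (ZMod q)ˣ → ℝ) (hc : c 1 ≠ 0) (C : ℝ) :
    ¬ ∀ᶠ x in atTop, Sc c x ≤ C := by
  intro h
  obtain ⟨C₁, h1⟩ := AM_upper_of_Sc hG c h
  rcases lt_or_gt_of_ne hc with hneg | hpos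
  · -- contradiction with the upper bound at the origin
    obtain ⟨L, hL0, hL⟩ := AM_near_zero c
    obtain ⟨δ, hδ, hPs⟩ := Ps_zero_lower ((C₁ + L + 1) / (-c 1))
    set y := min (δ / 2) 1 with hy
    have hy0 : 0 < y := by positivity
    have hyδ : y < δ := lt_of_le_of_lt (min_le_left _ _) (by linarith)
    have hy1 : y ≤ 1 := min_le_right _ _
    have h2 := h1 0 y hy0.le
    rw [zero_add, AM_zero, sub_zero] at h2
    have h3 := (Complex.abs_re_le_norm _).trans (hL y hy0.le hy1)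
    have h4 := hPs y hy0 hyδ
    rw [Complex.add_re, Complex.re_ofReal_mul] at h3
    have h5 := (abs_le.1 h3).1
    have h6 : (C₁ + L + 1) * y ≤ -c 1 * (Ps 0 y).re := by
      have h7 : 0 < -c 1 := by linarith
      calc (C₁ + L + 1) * y = -c 1 * ((C₁ + L + 1) / (-c 1) * y) := by
            field_simp
        _ ≤ _ := mul_le_mul_of_nonneg_left h4 h7.le
    nlinarith
  · -- contradiction with the lower bound for the reflected weight
    obtain ⟨C₂, h2⟩ := AM_refl_bound (summable_Mw (chat c)) (Mw_re hG (chat c)) h1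
    rw [← Mw_chat_inv] at h2
    set c' : (ZMod q)ˣ → ℝ := fun a => c a⁻¹ with hc'
    have hc1 : c' 1 = c 1 := by rw [hc']; simp
    obtain ⟨L, hL0, hL⟩ := AM_near_zero c'
    obtain ⟨δ, hδ, hPs⟩ := Ps_zero_lower ((C₂ + L + 1) / (c 1))
    set y := min (δ / 2) 1 with hy
    have hy0 : 0 < y := by positivity
    have hyδ : y < δ := lt_of_le_of_lt (min_le_left _ _) (by linarith)
    have hy1 : y ≤ 1 := min_le_right _ _
    have h2 := h2 0 y hy0.le
    rw [zero_add, AM_zero, sub_zero] at h2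
    have h3 := (Complex.abs_re_le_norm _).trans (hL y hy0.le hy1)
    have h4 := hPs y hy0 hyδ
    rw [Complex.add_re, Complex.re_ofReal_mul, hc1] at h3
    have h5 := (abs_le.1 h3).2
    have h6 : (C₂ + L + 1) * y ≤ c 1 * (Ps 0 y).re := by
      calc (C₂ + L + 1) * y = c 1 * ((C₂ + L + 1) / (c 1) * y) := by
            field_simp
        _ ≤ _ := mul_le_mul_of_nonneg_left h4 hpos.le
    nlinarith

end chars

end Pool.Agent.Osc
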