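import Mathlib
import Pool.Agent.Osc.Main

/-!
# Statements for the prime counting function in arithmetic progressions
-/

open Complex Filter Topology MeasureTheory Set DirichletCharacter

namespace Pool.Agent.Osc

variable {q : ℕ} [NeZero q]

lemma piR_ct (c : (ZMod q)ˣ → ℝ) (x : ℝ) :
    piR (ct c) x = ∑ a : (ZMod q)ˣ, c a * (primeCountAP q (a : ZMod q) x : ℝ) := by
  classical
  have h0 : piR (ct c) x = ∑ n ∈ Finset.Icc 1 ⌊x⌋₊, if n.Prime then ct c n else 0 := by
    rw [piR]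
    symm
    refine Finset.sum_subset (Finset.Icc_subset_Icc_left zero_le_one) fun n hn hn1 => ?_
    rw [if_neg]
    intro hp
    apply hn1
    rw [Finset.mem_Icc] at hn ⊢
    exact ⟨hp.one_lt.le, hn.2⟩
  rw [h0]
  have h1 : ∀ n ∈ Finset.Icc 1 ⌊x⌋₊, (if n.Prime then ct c n else 0) =
      ∑ a : (ZMod q)ˣ, c a * (if n.Prime ∧ (n : ZMod q) = a then 1 else 0) := by
    intro n _
    by_cases hp : n.Prime
    · rw [if_pos hp, ct]
      refine Finset.sum_congr rfl fun a _ => ?_
      by_cases h : (n : ZMod q) = a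
      · simp [hp, h]
      · simp [h]
    · rw [if_neg hp]
      simp [hp]
  rw [Finset.sum_congr rfl h1, Finset.sum_comm]
  refine Finset.sum_congr rfl fun a _ => ?_
  rw [← Finset.mul_sum, primeCountAP, Finset.card_filter]
  push_cast
  rfl

lemma Sc_eq (c : (ZMod q)ˣ → ℝ) (x : ℝ) :
    ∑ a : (ZMod q)ˣ, c a * errAP q (a : ZMod q) x = Sc c x := by
  rw [Sc, piR_ct, cbar]
  simp only [errAP]
  rw [Finset.sum_div, Finset.sum_mul, ← Finset.sum_sub_distrib, Finset.mul_sum]
  refine Finset.sum_congr rfl fun a _ => ?_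
  ring

lemma Sc_neg (c : (ZMod q)ˣ → ℝ) (x : ℝ) : Sc (fun a => -c a) x = -Sc c x := by
  rw [← Sc_eq, ← Sc_eq, ← Finset.sum_neg_distrib]
  refine Finset.sum_congr rfl fun a _ => ?_
  ring

lemma Sc_inv_eq (c : (ZMod q)ˣ → ℝ) (x : ℝ) :
    ∑ a : (ZMod q)ˣ, c a * errAP q ((a⁻¹ : (ZMod q)ˣ) : ZMod q) x = Sc (fun a => c a⁻¹) x := by
  rw [← Sc_eq, ← Equiv.sum_comp (Equiv.inv (ZMod q)ˣ)]
  refine Finset.sum_congr rfl fun a _ => ?_
  simp only [Equiv.inv_apply, inv_inv]

theorem unbounded_both (hG : GRH q) (c : (ZMod q)ˣ → ℝ) (hc : c 1 ≠ 0) :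
    (∀ C : ℝ, ∃ᶠ x : ℝ in atTop, C < ∑ a : (ZMod q)ˣ, c a * errAP q (a : ZMod q) x) ∧
    (∀ C : ℝ, ∃ᶠ x : ℝ in atTop, ∑ a : (ZMod q)ˣ, c a * errAP q (a : ZMod q) x < C) := by
  constructor
  · intro C
    simp only [Sc_eq]
    have h := not_bounded_above hG c hc C
    simp only [Filter.Frequently, not_lt]
    exact h
  · intro C
    simp only [Sc_eq]
    have h := not_bounded_above hG (fun a => -c a) (neg_ne_zero.2 hc) (-C)
    simp only [Filter.Frequently, not_lt]
    intro h2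
    apply h
    filter_upwards [h2] with x hx
    rw [Sc_neg]
    linarith

theorem reflection (hG : GRH q) (c : (ZMod q)ˣ → ℝ) :
    (∀ C : ℝ, ∃ᶠ x : ℝ in atTop, C < ∑ a : (ZMod q)ˣ, c a * errAP q (a : ZMod q) x) ↔
    (∀ C : ℝ, ∃ᶠ x : ℝ in atTop,
      ∑ a : (ZMod q)ˣ, c a * errAP q ((a⁻¹ : (ZMod q)ˣ) : ZMod q) x < C) := by
  simp only [Sc_eq, Sc_inv_eq]
  constructor
  · intro h C
    by_contra h2
    simp only [Filter.Frequently, not_lt, not_not] at h2
    -- the reflected weight is bounded below, so its negative is bounded above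
    have h3 : ∀ᶠ x in atTop, Sc (fun a => -(c a⁻¹)) x ≤ -C := by
      filter_upwards [h2] with x hx
      have := Sc_neg (fun a : (ZMod q)ˣ => c a⁻¹) x
      rw [this]
      linarith
    obtain ⟨C', h4⟩ := lower_of_upper hG _ h3
    have h5 := h (-C')
    simp only [Filter.Frequently, not_lt] at h5
    apply h5
    filter_upwards [h4] with x hx
    simp only [inv_inv] at hx
    rw [Sc_neg c x] at hx
    linarith
  · intro h C
    by_contra h2
    simp only [Filter.Frequently, not_lt, not_not] at h2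
    obtain ⟨C', h4⟩ := lower_of_upper hG _ h2
    have h5 := h C'
    simp only [Filter.Frequently, not_lt] at h5
    exact h5 h4

end Pool.Agent.Osc
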